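import Mathlib

namespace Pool.Agent.Helper158

open CategoryTheory CategoryTheory.Limits

section

variable {k G : Type} [CommRing k] [Group G]

/-- equivariant additive maps are linear over the group ring -/
theorem equi_linear {M N : Type} [AddCommGroup M] [Module k M] [Module (MonoidAlgebra k G) M]
    [IsScalarTower k (MonoidAlgebra k G) M]
    [AddCommGroup N] [Module k N] [Module (MonoidAlgebra k G) N]
    [IsScalarTower k (MonoidAlgebra k G) N] (f : M →ₗ[k] N)
    (h : ∀ g x, f (MonoidAlgebra.of k G g • x) = MonoidAlgebra.of k G g • f x)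
    (r : MonoidAlgebra k G) (x : M) : f (r • x) = r • f x := by
  induction r using MonoidAlgebra.induction_on with
  | of g => exact h g x
  | add a b ha hb => rw [add_smul, add_smul, map_add, ha, hb]
  | smul n a ha => rw [smul_assoc, smul_assoc, ← ha, map_smul]

/-- an equivariant additive map as a linear map -/
noncomputable def mkLin {M N : Type} [AddCommGroup M] [Module k M] [Module (MonoidAlgebra k G) M]
    [IsScalarTower k (MonoidAlgebra k G) M]
    [AddCommGroup N] [Module k N] [Module (MonoidAlgebra k G) N]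
    [IsScalarTower k (MonoidAlgebra k G) N] (f : M →ₗ[k] N)
    (h : ∀ g x, f (MonoidAlgebra.of k G g • x) = MonoidAlgebra.of k G g • f x) :
    M →ₗ[MonoidAlgebra k G] N where
  toFun := f
  map_add' := map_add f
  map_smul' := equi_linear f h

@[simp] theorem mkLin_apply {M N : Type} [AddCommGroup M] [Module k M]
    [Module (MonoidAlgebra k G) M]
    [IsScalarTower k (MonoidAlgebra k G) M]
    [AddCommGroup N] [Module k N] [Module (MonoidAlgebra k G) N]
    [IsScalarTower k (MonoidAlgebra k G) N] (f : M →ₗ[k] N)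
    (h : ∀ g x, f (MonoidAlgebra.of k G g • x) = MonoidAlgebra.of k G g • f x) (x : M) :
    mkLin f h x = f x := rfl

/-- a module over the group ring as a representation -/
noncomputable def rho (M : Type) [AddCommGroup M] [Module k M] [Module (MonoidAlgebra k G) M]
    [IsScalarTower k (MonoidAlgebra k G) M] :
    Representation k G M where
  toFun g :=
    { toFun := fun x => MonoidAlgebra.of k G g • x
      map_add' := smul_add _
      map_smul' := fun r x => by
        rw [RingHom.id_apply, ← algebraMap_smul (MonoidAlgebra k G) r x,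
          ← algebraMap_smul (MonoidAlgebra k G) r (MonoidAlgebra.of k G g • x), ← mul_smul,
          ← mul_smul, Algebra.commutes] }
  map_one' := by
    ext x
    change MonoidAlgebra.of k G 1 • x = x
    rw [map_one, one_smul]
  map_mul' g h := by
    ext x
    change MonoidAlgebra.of k G (g * h) • x = MonoidAlgebra.of k G g • MonoidAlgebra.of k G h • x
    rw [map_mul, mul_smul]

theorem rho_apply (M : Type) [AddCommGroup M] [Module k M] [Module (MonoidAlgebra k G) M]
    [IsScalarTower k (MonoidAlgebra k G) M] (g : G) (x : M) :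
    rho (k := k) M g x = MonoidAlgebra.of k G g • x := rfl

/-- a module over the group ring as an object of `Rep` -/
noncomputable abbrev FMk (k : Type) [CommRing k] {G : Type} [Group G] (M : Type)
    [AddCommGroup M] [Module k M] [Module (MonoidAlgebra k G) M]
    [IsScalarTower k (MonoidAlgebra k G) M] : Rep k G :=
  Rep.of (rho (k := k) (G := G) M)

/-- an equivariant additive map as a morphism from a module to a representation -/
noncomputable def mkHom {M : Type} [AddCommGroup M] [Module k M] [Module (MonoidAlgebra k G) M]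
    [IsScalarTower k (MonoidAlgebra k G) M]
    {N : Type} [AddCommGroup N] [Module k N] {σ : Representation k G N} (f : M →ₗ[k] N)
    (h : ∀ g x, f (MonoidAlgebra.of k G g • x) = σ g (f x)) : FMk k M ⟶ Rep.of σ :=
  Rep.ofHom ⟨f, fun g => by ext x; exact h g x⟩

@[simp] theorem mkHom_apply {M : Type} [AddCommGroup M] [Module k M]
    [Module (MonoidAlgebra k G) M]
    [IsScalarTower k (MonoidAlgebra k G) M]
    {N : Type} [AddCommGroup N] [Module k N] {σ : Representation k G N} (f : M →ₗ[k] N)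
    (h : ∀ g x, f (MonoidAlgebra.of k G g • x) = σ g (f x)) (x : M) :
    (mkHom f h).hom x = f x := rfl

variable {M : Type} [AddCommGroup M] [Module k M] [Module (MonoidAlgebra k G) M]
  [IsScalarTower k (MonoidAlgebra k G) M]

theorem leftRegular_rho (g : G) (x : MonoidAlgebra k G) :
    Representation.leftRegular k G g x = MonoidAlgebra.of k G g * x := by
  induction x using MonoidAlgebra.induction_on with
  | of h => simp [MonoidAlgebra.single_mul_single]
  | add a b ha hb => rw [map_add, ha, hb, mul_add]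
  | smul n a ha => rw [map_smul, ha, mul_smul_comm]

/-- maps to the regular representation as linear maps -/
noncomputable def toRLin (f : FMk k (G := G) M ⟶ Rep.leftRegular k G) :
    M →ₗ[MonoidAlgebra k G] MonoidAlgebra k G :=
  mkLin (f.hom.toLinearMap : M →ₗ[k] MonoidAlgebra k G) (by
    intro g x
    have := Rep.hom_comm_apply f g x
    rw [smul_eq_mul]
    exact this.trans (leftRegular_rho g _))

theorem toRLin_apply (f : FMk k (G := G) M ⟶ Rep.leftRegular k G) (x : M) :
    toRLin f x = f.hom x := rfl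

/-- linear maps as maps to the regular representation -/
noncomputable def ofRLin (f : M →ₗ[MonoidAlgebra k G] MonoidAlgebra k G) :
    FMk k (G := G) M ⟶ Rep.leftRegular k G :=
  mkHom (M := M) (f.restrictScalars k) (by
    intro g x
    have := f.map_smul (MonoidAlgebra.of k G g) x
    exact this.trans (leftRegular_rho g (f x)).symm)

theorem ofRLin_apply (f : M →ₗ[MonoidAlgebra k G] MonoidAlgebra k G) (x : M) :
    (ofRLin f).hom x = f x := rfl

instance FM_projective [Module.Projective (MonoidAlgebra k G) M] :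
    Projective (FMk k (G := G) M) where
  factors {E X} f e he := by
    have hs : Function.Surjective e.hom := (Rep.epi_iff_surjective e).1 he
    let e' : E.ρ.asModule →ₗ[MonoidAlgebra k G] X.ρ.asModule :=
      mkLin (X.ρ.asModuleEquiv.symm.toLinearMap ∘ₗ e.hom.toLinearMap ∘ₗ
        E.ρ.asModuleEquiv.toLinearMap) (by
        intro g x
        change X.ρ.asModuleEquiv.symm (e.hom (E.ρ.asModuleEquiv (MonoidAlgebra.of k G g • x))) =
          MonoidAlgebra.of k G g • X.ρ.asModuleEquiv.symm (e.hom (E.ρ.asModuleEquiv x))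
        rw [← Representation.asModuleEquiv_symm_map_rho, ← Rep.hom_comm_apply,
          Representation.asModuleEquiv_map_smul]
        simp)
    let f' : M →ₗ[MonoidAlgebra k G] X.ρ.asModule :=
      mkLin (X.ρ.asModuleEquiv.symm.toLinearMap ∘ₗ f.hom.toLinearMap) (by
        intro g x
        change X.ρ.asModuleEquiv.symm (f.hom (MonoidAlgebra.of k G g • x)) =
          MonoidAlgebra.of k G g • X.ρ.asModuleEquiv.symm (f.hom x)
        rw [← Representation.asModuleEquiv_symm_map_rho, ← Rep.hom_comm_apply]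
        rfl)
    obtain ⟨h, hh⟩ := Module.projective_lifting_property e' f' (by
      intro y
      obtain ⟨x, hx⟩ := hs (X.ρ.asModuleEquiv y)
      refine ⟨E.ρ.asModuleEquiv.symm x, ?_⟩
      change X.ρ.asModuleEquiv.symm (e.hom (E.ρ.asModuleEquiv (E.ρ.asModuleEquiv.symm x))) = y
      simp [hx])
    refine ⟨mkHom (E.ρ.asModuleEquiv.toLinearMap ∘ₗ (h.restrictScalars k)) ?_, ?_⟩
    · intro g x
      change E.ρ.asModuleEquiv (h (MonoidAlgebra.of k G g • x)) = E.ρ g (E.ρ.asModuleEquiv (h x))
      rw [map_smul, Representation.asModuleEquiv_map_smul]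
      simp
    · ext x
      have := LinearMap.congr_fun hh x
      change X.ρ.asModuleEquiv.symm (e.hom (E.ρ.asModuleEquiv (h x))) =
        X.ρ.asModuleEquiv.symm (f.hom x) at this
      exact X.ρ.asModuleEquiv.symm.injective this

end

theorem rep_exact {k G : Type} [CommRing k] [Group G] (S : ShortComplex (Rep.{0} k G))
    (h : ∀ x : S.X₂, S.g.hom x = 0 → ∃ y : S.X₁, S.f.hom y = x) : S.Exact := by
  apply (forget₂ _ (ModuleCat k)).reflects_exact_of_faithful
  rw [ShortComplex.moduleCat_exact_iff]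
  exact h

/-- an augmented exact complex of `ℤ[G]`-modules -/
structure Reso {G : Type} [Group G] (P : ℕ → Type) [∀ i, AddCommGroup (P i)]
    [∀ i, Module (MonoidAlgebra ℤ G) (P i)] (d : ∀ i, P (i + 1) →ₗ[MonoidAlgebra ℤ G] P i)
    (ε : P 0 →+ ℤ) : Prop where
  surj : Function.Surjective ε
  equi : ∀ (g : G) (x : P 0), ε (MonoidAlgebra.of ℤ G g • x) = ε x
  ex0 : ∀ x : P 0, ε x = 0 ↔ x ∈ LinearMap.range (d 0)
  ex : ∀ (i : ℕ) (x : P (i + 1)), d i x = 0 ↔ x ∈ LinearMap.range (d (i + 1))

section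

variable {G : Type} [Group G] {P : ℕ → Type} [∀ i, AddCommGroup (P i)]
  [∀ i, Module (MonoidAlgebra ℤ G) (P i)] {d : ∀ i, P (i + 1) →ₗ[MonoidAlgebra ℤ G] P i}
  {ε : P 0 →+ ℤ}

/-- a linear map as a morphism -/
noncomputable def lhom {M N : Type} [AddCommGroup M] [Module (MonoidAlgebra ℤ G) M]
    [AddCommGroup N] [Module (MonoidAlgebra ℤ G) N] (f : M →ₗ[MonoidAlgebra ℤ G] N) :
    FMk ℤ (G := G) M ⟶ FMk ℤ (G := G) N :=
  mkHom (k := ℤ) (f.restrictScalars ℤ) (by
    intro g x
    exact f.map_smul _ _)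

@[simp] theorem lhom_apply {M N : Type} [AddCommGroup M] [Module (MonoidAlgebra ℤ G) M]
    [AddCommGroup N] [Module (MonoidAlgebra ℤ G) N] (f : M →ₗ[MonoidAlgebra ℤ G] N) (x : M) :
    (lhom f).hom x = f x := rfl

theorem Reso.dd (h : Reso P d ε) (i : ℕ) (x : P (i + 2)) : d i (d (i + 1) x) = 0 :=
  (h.ex i _).2 ⟨x, rfl⟩

/-- the chain complex in `Rep` -/
noncomputable def Reso.complex (h : Reso P d ε) : ChainComplex (Rep ℤ G) ℕ :=
  ChainComplex.of (fun i => FMk ℤ (P i)) (fun i => lhom (d i)) (by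
    intro i
    ext x
    exact h.dd i x)

theorem Reso.complex_d (h : Reso P d ε) (i : ℕ) : h.complex.d (i + 1) i = lhom (d i) :=
  ChainComplex.of_d (fun i => FMk ℤ (G := G) (P i)) (fun i => lhom (d i)) i

/-- the augmentation as a morphism -/
noncomputable def Reso.aug (h : Reso P d ε) : FMk ℤ (G := G) (P 0) ⟶ Rep.trivial ℤ G ℤ :=
  mkHom (k := ℤ) (G := G) ε.toIntLinearMap (by
    intro g x
    exact h.equi g x)

/-- the projective resolution -/
noncomputable def Reso.pr (h : Reso P d ε) [∀ i, Module.Projective (MonoidAlgebra ℤ G) (P i)] :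
    ProjectiveResolution (Rep.trivial ℤ G ℤ) where
  complex := h.complex
  projective i := inferInstanceAs (Projective (FMk ℤ (G := G) (P i)))
  π := (h.complex.toSingle₀Equiv _).symm ⟨h.aug, by
    rw [h.complex_d]
    ext x
    exact (h.ex0 _).2 ⟨x, rfl⟩⟩
  quasiIso := by
    constructor
    intro m
    cases m with
    | zero =>
      rw [ChainComplex.quasiIsoAt₀_iff, ShortComplex.quasiIso_iff_of_zeros' _ rfl rfl rfl]
      constructor
      · apply rep_exact
        intro x hx
        have hx' : ε x = 0 := hx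
        obtain ⟨y, hy⟩ := (h.ex0 x).1 hx'
        refine ⟨y, ?_⟩
        change (h.complex.d 1 0).hom y = x
        rw [h.complex_d]
        exact hy
      · rw [Rep.epi_iff_surjective]
        intro x
        obtain ⟨y, hy⟩ := h.surj x
        exact ⟨y, hy⟩
    | succ m =>
      rw [quasiIsoAt_iff_exactAt' (hL := ChainComplex.exactAt_succ_single_obj ..),
          HomologicalComplex.exactAt_iff' _ (m + 2) (m + 1) m (by simp) (by simp)]
      apply rep_exact
      intro x hx
      have hx' : (h.complex.d (m + 1) m).hom x = 0 := hx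
      rw [h.complex_d] at hx'
      have hx'' : d m x = 0 := hx'
      obtain ⟨y, hy⟩ := (h.ex m x).1 hx''
      refine ⟨y, ?_⟩
      change (h.complex.d (m + 2) (m + 1)).hom y = x
      rw [h.complex_d]
      exact hy

end

section

theorem sc_pi {k : Type} [CommRing k] (S : ShortComplex (ModuleCat.{0} k)) :
    ∃ π : LinearMap.ker S.g.hom →+ S.homology,
      Function.Surjective π ∧ ∀ x, π x = 0 ↔ ∃ y, S.f.hom y = x.1 := by
  let e : (LinearMap.ker S.g.hom ⧸ LinearMap.range S.moduleCatToCycles) ≃ₗ[k] S.homology :=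
    S.moduleCatHomologyIso.symm.toLinearEquiv
  let q := (LinearMap.range S.moduleCatToCycles).mkQ
  refine ⟨(e.toLinearMap ∘ₗ q).toAddMonoidHom, ?_, ?_⟩
  · exact e.surjective.comp (Submodule.mkQ_surjective _)
  · intro x
    change e (q x) = 0 ↔ _
    rw [LinearEquiv.map_eq_zero_iff]
    change Submodule.Quotient.mk x = 0 ↔ _
    rw [Submodule.Quotient.mk_eq_zero]
    constructor
    · rintro ⟨y, hy⟩
      exact ⟨y, congrArg Subtype.val hy⟩
    · rintro ⟨y, hy⟩
      exact ⟨y, Subtype.ext hy⟩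

theorem cc_pi {k : Type} [CommRing k] (K : CochainComplex (ModuleCat.{0} k) ℕ) (i n : ℕ)
    (hi : (ComplexShape.up ℕ).prev n = i) :
    ∃ π : LinearMap.ker (K.d n (n + 1)).hom →+ K.homology n,
      Function.Surjective π ∧ ∀ x, π x = 0 ↔ ∃ y, (K.d i n).hom y = x.1 := by
  obtain ⟨π, h1, h2⟩ := sc_pi (K.sc' i n (n + 1))
  let e : (K.sc' i n (n + 1)).homology ≃+ K.homology n :=
    (ShortComplex.homologyMapIso (K.isoSc' i n (n + 1) hi (by simp))).symm.toLinearEquiv.toAddEquiv
  refine ⟨e.toAddMonoidHom.comp π, e.surjective.comp h1, ?_⟩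
  intro x
  exact (AddEquiv.map_eq_zero_iff e (x := π x)).trans (h2 x)

theorem pr_coh {k G : Type} [CommRing k] [Group G]
    (Q : ProjectiveResolution (Rep.trivial k G k)) (A : Rep.{0} k G) (i n : ℕ)
    (hi : (ComplexShape.up ℕ).prev n = i) :
    ∃ π : (Preadditive.leftComp A (Q.complex.d (n + 1) n)).ker →+ groupCohomology A n,
      Function.Surjective π ∧ ∀ x, π x = 0 ↔
        ∃ y : Q.complex.X i ⟶ A, Q.complex.d n i ≫ y = x.1 := by
  obtain ⟨π, h1, h2⟩ := cc_pi (Q.complex.linearYonedaObj k A) i n hi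
  let e : (Q.complex.linearYonedaObj k A).homology n ≃+ groupCohomology A n :=
    (groupCohomologyIso A n Q).symm.toLinearEquiv.toAddEquiv
  refine ⟨e.toAddMonoidHom.comp π, e.surjective.comp h1, ?_⟩
  intro x
  exact (AddEquiv.map_eq_zero_iff e (x := π x)).trans (h2 x)

variable {G : Type} [Group G] {P : ℕ → Type} [∀ i, AddCommGroup (P i)]
  [∀ i, Module (MonoidAlgebra ℤ G) (P i)] {d : ∀ i, P (i + 1) →ₗ[MonoidAlgebra ℤ G] P i}
  {ε : P 0 →+ ℤ}

/-- cocycles of the dual complex -/
def cocyc (d : ∀ i, P (i + 1) →ₗ[MonoidAlgebra ℤ G] P i) (n : ℕ) :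
    AddSubgroup (P n →ₗ[MonoidAlgebra ℤ G] MonoidAlgebra ℤ G) where
  carrier := {f | f ∘ₗ d n = 0}
  add_mem' {a b} ha hb := by
    simp only [Set.mem_ofPred_eq] at *
    rw [LinearMap.add_comp, ha, hb, add_zero]
  zero_mem' := LinearMap.zero_comp _
  neg_mem' {a} ha := by
    simp only [Set.mem_ofPred_eq] at *
    rw [LinearMap.neg_comp, ha, neg_zero]

theorem mem_cocyc {n : ℕ} {f : P n →ₗ[MonoidAlgebra ℤ G] MonoidAlgebra ℤ G} :
    f ∈ cocyc d n ↔ f ∘ₗ d n = 0 := Iff.rfl

/-- coboundaries of the dual complex -/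
def IsCob (d : ∀ i, P (i + 1) →ₗ[MonoidAlgebra ℤ G] P i) :
    ∀ n : ℕ, (P n →ₗ[MonoidAlgebra ℤ G] MonoidAlgebra ℤ G) → Prop
  | 0, f => f = 0
  | (n + 1), f => ∃ g : P n →ₗ[MonoidAlgebra ℤ G] MonoidAlgebra ℤ G, g ∘ₗ d n = f

theorem ofRLin_comp {M N : Type} [AddCommGroup M] [Module (MonoidAlgebra ℤ G) M]
    [AddCommGroup N] [Module (MonoidAlgebra ℤ G) N] (f : M →ₗ[MonoidAlgebra ℤ G] N)
    (g : N →ₗ[MonoidAlgebra ℤ G] MonoidAlgebra ℤ G) :
    lhom f ≫ ofRLin (k := ℤ) g = ofRLin (k := ℤ) (g ∘ₗ f) := by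
  ext x
  rfl

theorem ofRLin_toRLin {M : Type} [AddCommGroup M] [Module (MonoidAlgebra ℤ G) M]
    (f : FMk ℤ (G := G) M ⟶ Rep.leftRegular ℤ G) : ofRLin (k := ℤ) (toRLin (k := ℤ) f) = f := by
  ext x
  rfl

theorem toRLin_ofRLin {M : Type} [AddCommGroup M] [Module (MonoidAlgebra ℤ G) M]
    (f : M →ₗ[MonoidAlgebra ℤ G] MonoidAlgebra ℤ G) : toRLin (k := ℤ) (ofRLin (k := ℤ) f) = f := by
  ext x
  rfl

theorem ofRLin_inj {M : Type} [AddCommGroup M] [Module (MonoidAlgebra ℤ G) M]
    {f g : M →ₗ[MonoidAlgebra ℤ G] MonoidAlgebra ℤ G}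
    (h : ofRLin (k := ℤ) f = ofRLin (k := ℤ) g) : f = g := by
  rw [← toRLin_ofRLin f, h, toRLin_ofRLin]

theorem Reso.coh (h : Reso P d ε) [∀ i, Module.Projective (MonoidAlgebra ℤ G) (P i)] (n : ℕ) :
    ∃ π : cocyc d n →+ groupCohomology (Rep.leftRegular ℤ G) n,
      Function.Surjective π ∧ ∀ x, π x = 0 ↔ IsCob d n x.1 := by
  obtain ⟨π, h1, h2⟩ := pr_coh h.pr (Rep.leftRegular ℤ G) ((ComplexShape.up ℕ).prev n) n rfl
  have hz : ∀ n, (ofRLin (k := ℤ) (0 : P n →ₗ[MonoidAlgebra ℤ G] MonoidAlgebra ℤ G)) = 0 := by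
    intro n
    ext x
    rfl
  have hmem : ∀ f : P n →ₗ[MonoidAlgebra ℤ G] MonoidAlgebra ℤ G,
      (Preadditive.leftComp (Rep.leftRegular ℤ G) (h.complex.d (n + 1) n)) (ofRLin (k := ℤ) f) = 0
        ↔ f ∈ cocyc d n := by
    intro f
    change h.complex.d (n + 1) n ≫ ofRLin (k := ℤ) f = 0 ↔ _
    rw [h.complex_d]
    change lhom (d n) ≫ ofRLin (k := ℤ) f = 0 ↔ _
    rw [ofRLin_comp, mem_cocyc, ← hz]
    exact ⟨fun h => ofRLin_inj h, fun h => by rw [h]⟩
  let j : cocyc d n → (Preadditive.leftComp (Rep.leftRegular ℤ G) (h.complex.d (n + 1) n)).ker :=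
    fun f => ⟨ofRLin (k := ℤ) f.1, (hmem f.1).2 f.2⟩
  refine ⟨AddMonoidHom.mk' (fun f => π (j f)) ?_, ?_, ?_⟩
  · intro a b
    exact map_add π (j a) (j b)
  · intro y
    obtain ⟨x, hx⟩ := h1 y
    have hx2 := x.2
    have hx3 : ofRLin (k := ℤ) (toRLin (k := ℤ) (G := G) (M := P n) x.1) = x.1 :=
      ofRLin_toRLin (M := P n) x.1
    refine ⟨⟨toRLin (k := ℤ) (G := G) (M := P n) x.1, ?_⟩, ?_⟩
    · refine (hmem _).1 ?_
      rw [hx3]
      exact hx2
    · rw [← hx]
      exact congrArg π (Subtype.ext hx3)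
  · intro x
    refine (h2 (j x)).trans ?_
    cases n with
    | zero =>
      have h0 : h.complex.d 0 ((ComplexShape.up ℕ).prev 0) = 0 := by
        apply h.complex.shape
        simp
      constructor
      · rintro ⟨y, hy⟩
        let y' : h.complex.X ((ComplexShape.up ℕ).prev 0) ⟶ Rep.leftRegular ℤ G := y
        have hy' : h.complex.d 0 ((ComplexShape.up ℕ).prev 0) ≫ y' = ofRLin (k := ℤ) x.1 := hy
        rw [h0, zero_comp] at hy'
        change x.1 = 0
        apply ofRLin_inj
        rw [hz]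
        exact hy'.symm
      · intro hx
        change x.1 = 0 at hx
        refine ⟨0, ?_⟩
        change _ = ofRLin (k := ℤ) x.1
        rw [hx, hz, comp_zero]
        rfl
    | succ m =>
      have hp : (ComplexShape.up ℕ).prev (m + 1) = m := by simp
      rw [hp]
      constructor
      · rintro ⟨y, hy⟩
        let y' : FMk ℤ (G := G) (P m) ⟶ Rep.leftRegular ℤ G := y
        have hy' : h.complex.d (m + 1) m ≫ y' = ofRLin (k := ℤ) x.1 := hy
        rw [h.complex_d] at hy'
        refine ⟨toRLin (k := ℤ) (G := G) (M := P m) y', ?_⟩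
        apply ofRLin_inj
        rw [← ofRLin_comp, ofRLin_toRLin]
        exact hy'
      · rintro ⟨y, hy⟩
        refine ⟨ofRLin (k := ℤ) y, ?_⟩
        change h.complex.d (m + 1) m ≫ _ = ofRLin (k := ℤ) x.1
        rw [h.complex_d, ← hy, ← ofRLin_comp]
        rfl

end

end Pool.Agent.Helper158
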