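import Mathlib

/-!
Abstract algebra of the cellular complex of the graph manifold group
`G = ⟨a,b,z,c,d,w | z central in ⟨a,b,z⟩, w central in ⟨c,d,w⟩, w = [a,b]z², z = [c,d]w²⟩`.
-/

namespace Pool.Agent.Helper158

section Side

variable {A : Type*} [Ring A] {M : Type*} [AddCommGroup M] [Module A M] {G : Type*} [Group G]
variable (ρ : G →* Module.End A M) (a b z : G)

/-- coefficient of the `a`-edges in the path from `x` to `w x`, `w = a b a⁻¹ b⁻¹ z z` -/
def Wa : Module.End A M := ρ (b * a⁻¹ * b⁻¹ * z * z) - ρ (a⁻¹ * b⁻¹ * z * z)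

/-- coefficient of the `b`-edges -/
def Wb : Module.End A M := ρ (a⁻¹ * b⁻¹ * z * z) - ρ (b⁻¹ * z * z)

/-- coefficient of the `z`-edges -/
def Wz : Module.End A M := 1 + ρ z

/-- dual of `Wa` -/
def Va : Module.End A M := ρ (b * a⁻¹ * b⁻¹ * z * z)⁻¹ - ρ (a⁻¹ * b⁻¹ * z * z)⁻¹

/-- dual of `Wb` -/
def Vb : Module.End A M := ρ (a⁻¹ * b⁻¹ * z * z)⁻¹ - ρ (b⁻¹ * z * z)⁻¹

/-- dual of `Wz` -/
def Vz : Module.End A M := 1 + ρ z⁻¹

theorem fox (w : G) (hw : w = a * b * a⁻¹ * b⁻¹ * z * z) :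
    (ρ a - 1) * Wa ρ a b z + (ρ b - 1) * Wb ρ a b z + (ρ z - 1) * Wz ρ z = ρ w - 1 := by
  subst hw
  simp only [Wa, Wb, Wz, mul_sub, sub_mul, mul_add, one_mul, mul_one, ← map_mul]
  simp only [mul_assoc, mul_inv_cancel_left]
  abel

theorem fox' (w : G) (hw : w = a * b * a⁻¹ * b⁻¹ * z * z) :
    Va ρ a b z * (ρ a⁻¹ - 1) + Vb ρ a b z * (ρ b⁻¹ - 1) + Vz ρ z * (ρ z⁻¹ - 1) = ρ w⁻¹ - 1 := by
  subst hw
  simp only [Va, Vb, Vz, mul_sub, sub_mul, add_mul, one_mul, mul_one, ← map_mul]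
  simp only [mul_assoc, mul_inv_rev, inv_inv, mul_one, mul_inv_cancel]
  abel

theorem comm_sub_one {g h : G} (hc : Commute g h) (x : M) :
    (ρ g - 1) (ρ h x) = ρ h ((ρ g - 1) x) := by
  have : ρ g * ρ h = ρ h * ρ g := by rw [← map_mul, hc.eq, map_mul]
  have h2 := LinearMap.congr_fun this x
  simp only [Module.End.mul_apply] at h2
  simp [LinearMap.sub_apply, h2]

theorem comm_sub_one' {g h : G} (hc : Commute g h) (x : M) :
    (ρ g - 1) ((ρ h - 1) x) = (ρ h - 1) ((ρ g - 1) x) := by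
  simp only [LinearMap.sub_apply, Module.End.one_apply, map_sub]
  have : ρ g * ρ h = ρ h * ρ g := by rw [← map_mul, hc.eq, map_mul]
  have h2 := LinearMap.congr_fun this x
  simp only [Module.End.mul_apply] at h2
  rw [h2]; abel

variable {a b z}

theorem comm_Wa (ha : Commute z a) (hb : Commute z b) (x : M) :
    (ρ z - 1) (Wa ρ a b z x) = Wa ρ a b z ((ρ z - 1) x) := by
  have h1 : Commute z (b * a⁻¹ * b⁻¹ * z * z) :=
    (((hb.mul_right ha.inv_right).mul_right hb.inv_right).mul_right (Commute.refl z)).mul_right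
      (Commute.refl z)
  have h2 : Commute z (a⁻¹ * b⁻¹ * z * z) :=
    ((ha.inv_right.mul_right hb.inv_right).mul_right (Commute.refl z)).mul_right (Commute.refl z)
  simp only [Wa, LinearMap.sub_apply (ρ _) (ρ _), map_sub, comm_sub_one ρ h1, comm_sub_one ρ h2]

theorem comm_Wb (ha : Commute z a) (hb : Commute z b) (x : M) :
    (ρ z - 1) (Wb ρ a b z x) = Wb ρ a b z ((ρ z - 1) x) := by
  have h1 : Commute z (b⁻¹ * z * z) :=
    (hb.inv_right.mul_right (Commute.refl z)).mul_right (Commute.refl z)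
  have h2 : Commute z (a⁻¹ * b⁻¹ * z * z) :=
    ((ha.inv_right.mul_right hb.inv_right).mul_right (Commute.refl z)).mul_right (Commute.refl z)
  simp only [Wb, LinearMap.sub_apply (ρ _) (ρ _), map_sub, comm_sub_one ρ h1, comm_sub_one ρ h2]

end Side

/-- The relations of the graph manifold group between six elements of a group. -/
structure Rels {G : Type*} [Group G] (a b z c d w : G) : Prop where
  za : Commute z a
  zb : Commute z b
  wc : Commute w c
  wd : Commute w d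
  hw : w = a * b * a⁻¹ * b⁻¹ * z * z
  hz : z = c * d * c⁻¹ * d⁻¹ * w * w

theorem Rels.zw {G : Type*} [Group G] {a b z c d w : G} (h : Rels a b z c d w) :
    Commute z w := by
  rw [h.hw]
  exact ((((h.za.mul_right h.zb).mul_right h.za.inv_right).mul_right h.zb.inv_right).mul_right
    (Commute.refl z)).mul_right (Commute.refl z)

section Cplx

variable {A : Type*} [Ring A] {M : Type*} [AddCommGroup M] [Module A M] {G : Type*} [Group G]
variable (ρ : G →* Module.End A M) (a b z c d w : G)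

/-- boundary of the edges -/
def bd1 : (M × M × M × M × M × M × M) →ₗ[A] (M × M) where
  toFun p := ((ρ a - 1) p.1 + (ρ b - 1) p.2.1 + (ρ z - 1) p.2.2.1 - p.2.2.2.2.2.2,
     (ρ c - 1) p.2.2.2.1 + (ρ d - 1) p.2.2.2.2.1 + (ρ w - 1) p.2.2.2.2.2.1 - p.2.2.2.2.2.2)
  map_add' p q := by
    simp only [Prod.fst_add, Prod.snd_add, map_add, Prod.mk_add_mk]
    congr 1 <;> abel
  map_smul' r p := by
    simp only [Prod.smul_fst, Prod.smul_snd, map_smul, Prod.smul_mk, smul_sub, smul_add,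
      RingHom.id_apply]

/-- boundary of the two-cells -/
def bd2 : (M × M × M × M × M × M) →ₗ[A] (M × M × M × M × M × M × M) where
  toFun u := (-(ρ z - 1) u.1 + Wa ρ a b z u.2.2.2.2.2,
    -(ρ z - 1) u.2.1 + Wb ρ a b z u.2.2.2.2.2,
    (ρ a - 1) u.1 + (ρ b - 1) u.2.1 + u.2.2.2.2.1 + Wz ρ z u.2.2.2.2.2,
    -(ρ w - 1) u.2.2.1 + Wa ρ c d w u.2.2.2.2.1,
    -(ρ w - 1) u.2.2.2.1 + Wb ρ c d w u.2.2.2.2.1,
    (ρ c - 1) u.2.2.1 + (ρ d - 1) u.2.2.2.1 + u.2.2.2.2.2 + Wz ρ w u.2.2.2.2.1,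
    (ρ z - 1) u.2.2.2.2.1 + (ρ w - 1) u.2.2.2.2.2)
  map_add' p q := by
    simp only [Prod.fst_add, Prod.snd_add, map_add, Prod.mk_add_mk]
    congr 1; · abel
    congr 1; · abel
    congr 1; · abel
    congr 1; · abel
    congr 1; · abel
    congr 1 <;> abel
  map_smul' r p := by
    simp only [Prod.smul_fst, Prod.smul_snd, map_smul, Prod.smul_mk, smul_add,
      RingHom.id_apply, smul_neg]

/-- boundary of the three-cell -/
def bd3 : M →ₗ[A] (M × M × M × M × M × M) where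
  toFun u := (Wa ρ a b z u, Wb ρ a b z u, -Wa ρ c d w u, -Wb ρ c d w u, -(ρ w - 1) u,
    (ρ z - 1) u)
  map_add' p q := by
    simp only [map_add, Prod.mk_add_mk]
    congr 1
    congr 1
    congr 1; · abel
    congr 1; · abel
    congr 1; · abel
  map_smul' r p := by
    simp only [map_smul, Prod.smul_mk, RingHom.id_apply, smul_neg]

variable {a b z c d w}

theorem fox_apply (hw : w = a * b * a⁻¹ * b⁻¹ * z * z) (x : M) :
    (ρ a - 1) (Wa ρ a b z x) + (ρ b - 1) (Wb ρ a b z x) + (ρ z - 1) (Wz ρ z x)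
      = (ρ w - 1) x := by
  have h := LinearMap.congr_fun (fox ρ a b z w hw) x
  simpa only [LinearMap.add_apply, Module.End.mul_apply] using h

theorem fox'_apply (hw : w = a * b * a⁻¹ * b⁻¹ * z * z) (x : M) :
    Va ρ a b z ((ρ a⁻¹ - 1) x) + Vb ρ a b z ((ρ b⁻¹ - 1) x) + Vz ρ z ((ρ z⁻¹ - 1) x)
      = (ρ w⁻¹ - 1) x := by
  have h := LinearMap.congr_fun (fox' ρ a b z w hw) x
  simpa only [LinearMap.add_apply, Module.End.mul_apply] using h

theorem bd1_bd2 (h : Rels a b z c d w) (u) :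
    bd1 ρ a b z c d w (bd2 ρ a b z c d w u) = 0 := by
  obtain ⟨ua, ub, uc, ud, al, be⟩ := u
  simp only [bd1, bd2, LinearMap.coe_mk, AddHom.coe_mk, map_add, map_neg]
  rw [comm_sub_one' ρ h.za.symm, comm_sub_one' ρ h.zb.symm, comm_sub_one' ρ h.wc.symm,
    comm_sub_one' ρ h.wd.symm]
  have e1 := fox_apply ρ h.hw be
  have e2 := fox_apply ρ h.hz al
  rw [← e1, ← e2]
  ext <;> simp only [Prod.fst_zero, Prod.snd_zero] <;> abel

theorem bd2_bd3 (h : Rels a b z c d w) (u) :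
    bd2 ρ a b z c d w (bd3 ρ a b z c d w u) = 0 := by
  have e1 := fox_apply ρ h.hw u
  have e2 := fox_apply ρ h.hz u
  simp only [bd2, bd3, LinearMap.coe_mk, AddHom.coe_mk, map_neg]
  rw [comm_Wa ρ h.za h.zb, comm_Wb ρ h.za h.zb, comm_Wa ρ h.wc h.wd, comm_Wb ρ h.wc h.wd,
    comm_sub_one' ρ h.zw]
  have hz : (ρ z - 1) (Wz ρ z u) = Wz ρ z ((ρ z - 1) u) := by
    simp only [Wz, LinearMap.add_apply, Module.End.one_apply, map_add]
    rw [comm_sub_one ρ (Commute.refl z)]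
  have hw : (ρ w - 1) (Wz ρ w u) = Wz ρ w ((ρ w - 1) u) := by
    simp only [Wz, LinearMap.add_apply, Module.End.one_apply, map_add]
    rw [comm_sub_one ρ (Commute.refl w)]
  rw [← hz, ← hw, ← e1, ← e2]
  simp only [Prod.mk_eq_zero]
  refine ⟨by abel, by abel, by abel, by abel, by abel, by abel, by abel⟩

end Cplx

/-- The exactness properties of a `G`-module which make the complex above exact. -/
structure Nice {M : Type*} [AddCommGroup M] {G : Type*} [Group G]
    (act : G → M → M) (a b z c d w : G) : Prop where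
  zinj : ∀ m, act z m - m = 0 → m = 0
  winj : ∀ m, act w m - m = 0 → m = 0
  kos : ∀ x y, act z x - x = act w y - y → ∃ u, x = act w u - u ∧ y = act z u - u
  free1 : ∀ x y u, (act a x - x) + (act b y - y) = act z u - u →
    ∃ x' y', x = act z x' - x' ∧ y = act z y' - y'
  free2 : ∀ x y u, (act c x - x) + (act d y - y) = act w u - u →
    ∃ x' y', x = act w x' - x' ∧ y = act w y' - y'
  tree : ∀ x1 x2 x3 y1 y2 y3,
    (act a x1 - x1) + (act b x2 - x2) + (act z x3 - x3)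
      = (act c y1 - y1) + (act d y2 - y2) + (act w y3 - y3) →
    ∃ u v, (act a x1 - x1) + (act b x2 - x2) + (act z x3 - x3)
      = (act z u - u) + (act w v - v)

section Exact

variable {A : Type*} [Ring A] {M : Type*} [AddCommGroup M] [Module A M] {G : Type*} [Group G]
variable {ρ : G →* Module.End A M} {a b z c d w : G}

theorem sub_one_apply (g : G) (x : M) : (ρ g - 1) x = ρ g x - x := by
  simp [LinearMap.sub_apply]

/-- `H₃ = 0` -/
theorem bd3_injective (hN : Nice (fun g m => ρ g m) a b z c d w) (u : M)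
    (h : bd3 ρ a b z c d w u = 0) : u = 0 := by
  simp only [bd3, LinearMap.coe_mk, AddHom.coe_mk, Prod.mk_eq_zero] at h
  exact hN.zinj u (by simpa [sub_one_apply] using h.2.2.2.2.2)

/-- `H₂ = 0` -/
theorem exact2 (hR : Rels a b z c d w) (hN : Nice (fun g m => ρ g m) a b z c d w)
    (u) (h : bd2 ρ a b z c d w u = 0) : ∃ m, bd3 ρ a b z c d w m = u := by
  -- first reduce to `al = be = 0`
  have key : ∀ ua ub uc ud : M, bd2 ρ a b z c d w (ua, ub, uc, ud, 0, 0) = 0 →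
      ua = 0 ∧ ub = 0 ∧ uc = 0 ∧ ud = 0 := by
    intro ua ub uc ud h
    simp only [bd2, LinearMap.coe_mk, AddHom.coe_mk, Prod.mk_eq_zero, map_zero, add_zero,
      neg_eq_zero] at h
    obtain ⟨h1, h2, -, h3, h4, -⟩ := h
    exact ⟨hN.zinj _ (by simpa [sub_one_apply] using h1),
      hN.zinj _ (by simpa [sub_one_apply] using h2),
      hN.winj _ (by simpa [sub_one_apply] using h3),
      hN.winj _ (by simpa [sub_one_apply] using h4)⟩
  obtain ⟨ua, ub, uc, ud, al, be⟩ := u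
  have h' := h
  simp only [bd2, LinearMap.coe_mk, AddHom.coe_mk, Prod.mk_eq_zero] at h'
  obtain ⟨-, -, -, -, -, -, h7⟩ := h'
  obtain ⟨u, hu1, hu2⟩ := hN.kos al (-be) (by
    simp only [sub_one_apply] at h7
    rw [eq_neg_of_add_eq_zero_left h7, map_neg]
    abel)
  refine ⟨-u, ?_⟩
  have e : (ua, ub, uc, ud, al, be) - bd3 ρ a b z c d w (-u)
      = (ua + Wa ρ a b z u, ub + Wb ρ a b z u, uc - Wa ρ c d w u, ud - Wb ρ c d w u, 0, 0) := by
    have hb : be = -(ρ z u - u) := by rw [← hu2, neg_neg]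
    subst hu1
    subst hb
    ext <;> simp [bd3, sub_eq_add_neg]
    · abel
    · abel
  have h0 : bd2 ρ a b z c d w ((ua, ub, uc, ud, al, be) - bd3 ρ a b z c d w (-u)) = 0 := by
    rw [map_sub, h, bd2_bd3 ρ hR, sub_zero]
  rw [e] at h0
  obtain ⟨k1, k2, k3, k4⟩ := key _ _ _ _ h0
  rw [k1, k2, k3, k4] at e
  rw [sub_eq_iff_eq_add] at e
  rw [e]
  ext <;> simp

/-- `H₁ = 0` -/
theorem exact1 (hR : Rels a b z c d w) (hN : Nice (fun g m => ρ g m) a b z c d w)
    (p) (h : bd1 ρ a b z c d w p = 0) : ∃ u, bd2 ρ a b z c d w u = p := by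
  have side1 : ∀ pa pb pz : M, (ρ a pa - pa) + (ρ b pb - pb) + (ρ z pz - pz) = 0 →
      ∃ ua ub : M, pa = -(ρ z ua - ua) ∧ pb = -(ρ z ub - ub) ∧
        pz = (ρ a ua - ua) + (ρ b ub - ub) := by
    intro pa pb pz h
    obtain ⟨x, y, hx, hy⟩ := hN.free1 pa pb (-pz) (by
      rw [eq_neg_of_add_eq_zero_left h, map_neg]; abel)
    refine ⟨-x, -y, by rw [hx, map_neg]; abel, by rw [hy, map_neg]; abel, ?_⟩
    have hc1 := comm_sub_one' ρ hR.za.symm x
    have hc2 := comm_sub_one' ρ hR.zb.symm y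
    simp only [sub_one_apply] at hc1 hc2
    rw [← sub_eq_zero]
    apply hN.zinj
    rw [hx, hy, hc1, hc2] at h
    simp only [map_neg, map_sub, map_add] at h ⊢
    rw [← h]; abel
  have side2 : ∀ pa pb pz : M, (ρ c pa - pa) + (ρ d pb - pb) + (ρ w pz - pz) = 0 →
      ∃ ua ub : M, pa = -(ρ w ua - ua) ∧ pb = -(ρ w ub - ub) ∧
        pz = (ρ c ua - ua) + (ρ d ub - ub) := by
    intro pa pb pz h
    obtain ⟨x, y, hx, hy⟩ := hN.free2 pa pb (-pz) (by
      rw [eq_neg_of_add_eq_zero_left h, map_neg]; abel)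
    refine ⟨-x, -y, by rw [hx, map_neg]; abel, by rw [hy, map_neg]; abel, ?_⟩
    have hc1 := comm_sub_one' ρ hR.wc.symm x
    have hc2 := comm_sub_one' ρ hR.wd.symm y
    simp only [sub_one_apply] at hc1 hc2
    rw [← sub_eq_zero]
    apply hN.winj
    rw [hx, hy, hc1, hc2] at h
    simp only [map_neg, map_sub, map_add] at h ⊢
    rw [← h]; abel
  have key : ∀ pa pb pz pc pd pw : M, bd1 ρ a b z c d w (pa, pb, pz, pc, pd, pw, 0) = 0 →
      ∃ u, bd2 ρ a b z c d w u = (pa, pb, pz, pc, pd, pw, 0) := by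
    intro pa pb pz pc pd pw h
    simp only [bd1, LinearMap.coe_mk, AddHom.coe_mk, Prod.mk_eq_zero, sub_zero,
      sub_one_apply] at h
    obtain ⟨ua, ub, h1, h2, h3⟩ := side1 _ _ _ h.1
    obtain ⟨uc, ud, h4, h5, h6⟩ := side2 _ _ _ h.2
    refine ⟨(ua, ub, uc, ud, 0, 0), ?_⟩
    subst h1 h2 h3 h4 h5 h6
    simp only [bd2, LinearMap.coe_mk, AddHom.coe_mk, sub_one_apply, map_zero, add_zero, sub_zero]
  obtain ⟨pa, pb, pz, pc, pd, pw, pe⟩ := p
  have h' := h
  simp only [bd1, LinearMap.coe_mk, AddHom.coe_mk, Prod.mk_eq_zero, sub_one_apply,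
    sub_eq_zero (b := pe)] at h'
  obtain ⟨u, v, huv⟩ := hN.tree pa pb pz pc pd pw (by rw [h'.1, h'.2])
  rw [h'.1] at huv
  have e : (pa, pb, pz, pc, pd, pw, pe) - bd2 ρ a b z c d w (0, 0, 0, 0, u, v)
      = (pa - Wa ρ a b z v, pb - Wb ρ a b z v, pz - (u + Wz ρ z v),
        pc - Wa ρ c d w u, pd - Wb ρ c d w u, pw - (v + Wz ρ w u), 0) := by
    subst huv
    ext <;> simp [bd2]
  have h0 : bd1 ρ a b z c d w
      ((pa, pb, pz, pc, pd, pw, pe) - bd2 ρ a b z c d w (0, 0, 0, 0, u, v)) = 0 := by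
    rw [map_sub, h, bd1_bd2 ρ hR, sub_zero]
  rw [e] at h0
  obtain ⟨u', hu'⟩ := key _ _ _ _ _ _ h0
  rw [← e] at hu'
  exact ⟨u' + (0, 0, 0, 0, u, v), by rw [map_add, hu']; abel⟩

end Exact

end Pool.Agent.Helper158
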