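import Mathlib

namespace Pool.Agent.Helper158

open Finsupp

section

variable (G X : Type*) [Group G] [MulAction G X]

/-- The permutation module `ℤ[X]`. -/
noncomputable def permRep : G →* Module.End ℤ (X →₀ ℤ) where
  toFun g := Finsupp.lmapDomain ℤ ℤ (g • ·)
  map_one' := by
    refine Finsupp.lhom_ext fun x n => ?_
    simp [Finsupp.mapDomain_single]
  map_mul' g h := by
    refine Finsupp.lhom_ext fun x n => ?_
    simp [mul_smul, Finsupp.mapDomain_single]

variable {G X}

theorem permRep_def (g : G) (f : X →₀ ℤ) : permRep G X g f = Finsupp.mapDomain (g • ·) f := rfl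

@[simp]
theorem permRep_single (g : G) (x : X) (n : ℤ) :
    permRep G X g (single x n) = single (g • x) n := by
  simp [permRep_def, Finsupp.mapDomain_single]

theorem permRep_apply (g : G) (f : X →₀ ℤ) (x : X) : permRep G X g f x = f (g⁻¹ • x) := by
  have h := Finsupp.mapDomain_apply (M := ℤ) (MulAction.injective g) f (g⁻¹ • x)
  rw [smul_inv_smul] at h
  exact h

/-- Elements of `ℤ[X]` with zero sum on all orbits are generated by differences. -/
theorem mem_of_mapDomain_eq_zero {Y : Type*} (S : Set G) (I : AddSubgroup (X →₀ ℤ))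
    (hI : ∀ s ∈ S, ∀ x : X, single (s • x) 1 - single x 1 ∈ I) (π : X → Y)
    (hπ : ∀ x y, π x = π y → ∃ g ∈ Subgroup.closure S, g • x = y) (f : X →₀ ℤ)
    (hf : Finsupp.mapDomain π f = 0) : f ∈ I := by
  have h1 : ∀ g ∈ Subgroup.closure S, ∀ x : X, single (g • x) (1 : ℤ) - single x 1 ∈ I := by
    intro g hg
    induction hg using Subgroup.closure_induction with
    | mem s hs => exact hI s hs
    | one => intro x; simp
    | mul g h _ _ ihg ihh =>
      intro x
      have : single ((g * h) • x) (1 : ℤ) - single x 1
          = (single (g • (h • x)) 1 - single (h • x) 1) + (single (h • x) 1 - single x 1) := by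
        rw [mul_smul]; abel
      rw [this]; exact I.add_mem (ihg _) (ihh _)
    | inv g _ ih =>
      intro x
      have : single (g⁻¹ • x) (1 : ℤ) - single x 1
          = -(single (g • (g⁻¹ • x)) 1 - single (g⁻¹ • x) 1) := by
        rw [smul_inv_smul]; abel
      rw [this]; exact I.neg_mem (ih _)
  let q : X → (X →₀ ℤ) ⧸ I := fun x => QuotientAddGroup.mk (single x 1)
  have hq : Function.FactorsThrough q π := by
    intro x y hxy
    obtain ⟨g, hg, rfl⟩ := hπ x y hxy
    rw [eq_comm, QuotientAddGroup.eq]
    have := I.neg_mem (h1 g hg x)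
    rwa [neg_sub, sub_eq_add_neg, add_comm] at this
  have h2 : ∀ f : X →₀ ℤ, (QuotientAddGroup.mk f : (X →₀ ℤ) ⧸ I)
      = (Finsupp.mapDomain π f).sum fun y n => n • Function.extend π q 0 y := by
    intro f
    rw [Finsupp.sum_mapDomain_index (by simp) (by intros; rw [add_zsmul])]
    simp only [hq.extend_apply]
    conv_lhs => rw [← Finsupp.sum_single f]
    rw [Finsupp.sum, Finsupp.sum, ← QuotientAddGroup.mk'_apply, map_sum]
    refine Finset.sum_congr rfl fun x _ => ?_
    rw [QuotientAddGroup.mk'_apply]
    have : (single x (f x) : X →₀ ℤ) = f x • single x 1 := by simp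
    rw [this]; rfl
  have h3 := h2 f
  rw [hf, Finsupp.sum_zero_index] at h3
  exact (QuotientAddGroup.eq_zero_iff f).1 h3

/-- push-forward to a quotient is invariant -/
theorem mapDomain_permRep {Y : Type*} (π : X → Y) (g : G) (h : ∀ x, π (g • x) = π x)
    (f : X →₀ ℤ) : Finsupp.mapDomain π (permRep G X g f) = Finsupp.mapDomain π f := by
  rw [permRep_def, ← Finsupp.mapDomain_comp]
  congr 1
  funext x
  exact h x

/-- Fox calculus on a free orbit: coordinates for the free group factor. -/
theorem exists_fox {ι : Type*} [DecidableEq ι] {B : Type*} [Group B] (j : FreeGroup ι × B →* G)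
    (hj : ∀ v (x : X), j v • x = x → v = 1) :
    ∃ D : ι → ((X →₀ ℤ) →ₗ[ℤ] (X →₀ ℤ)),
      (∀ i k m, D i (permRep G X (j (FreeGroup.of k, 1)) m) = D i m + if i = k then m else 0) ∧
      (∀ i b m, D i (permRep G X (j (1, b)) m) = permRep G X (j (1, b)) (D i m)) := by
  classical
  let _ : MulAction (FreeGroup ι × B) X := MulAction.compHom X j
  have hsm : ∀ (v : FreeGroup ι × B) (x : X), v • x = j v • x := fun v x => rfl
  -- base points and coordinates
  let x0 : X → X := fun x => (Quotient.mk (MulAction.orbitRel (FreeGroup ι × B) X) x).out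
  have hx0 : ∀ x, ∃ v : FreeGroup ι × B, j v • x0 x = x := by
    intro x
    have h : (MulAction.orbitRel (FreeGroup ι × B) X) (x0 x) x := Quotient.mk_out x
    have h2 := (MulAction.orbitRel (FreeGroup ι × B) X).symm h
    obtain ⟨v, hv⟩ := h2
    exact ⟨v, hv⟩
  choose κ hκ using hx0
  have hx0v : ∀ v x, x0 (j v • x) = x0 x := by
    intro v x
    have : Quotient.mk (MulAction.orbitRel (FreeGroup ι × B) X) (j v • x)
        = Quotient.mk (MulAction.orbitRel (FreeGroup ι × B) X) x := by
      apply Quotient.sound
      exact ⟨v, rfl⟩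
    simp only [x0, this]
  have hκv : ∀ v x, κ (j v • x) = v * κ x := by
    intro v x
    have h1 : j (κ (j v • x)) • x0 x = j v • x := by
      have := hκ (j v • x)
      rwa [hx0v] at this
    have h2 : j (v * κ x) • x0 x = j v • x := by
      rw [map_mul, mul_smul, hκ]
    have h3 : j ((v * κ x)⁻¹ * κ (j v • x)) • x0 x = x0 x := by
      rw [map_mul, mul_smul, h1, ← h2, ← mul_smul, ← map_mul, inv_mul_cancel, map_one, one_smul]
    have h4 := hj _ _ h3
    rw [inv_mul_eq_one] at h4
    exact h4.symm
  -- the crossed homomorphism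
  let σ : X → ι → ι → Equiv.Perm (FreeGroup ι × (X →₀ ℤ)) := fun y i k =>
    { toFun := fun p => (FreeGroup.of k * p.1,
        p.2 + if i = k then single (j (p.1, 1) • y) 1 else 0)
      invFun := fun p => ((FreeGroup.of k)⁻¹ * p.1,
        p.2 - if i = k then single (j ((FreeGroup.of k)⁻¹ * p.1, 1) • y) 1 else 0)
      left_inv := fun p => by simp
      right_inv := fun p => by simp }
  let Φ : X → ι → FreeGroup ι →* Equiv.Perm (FreeGroup ι × (X →₀ ℤ)) := fun y i =>
    FreeGroup.lift (σ y i)
  have hΦ1 : ∀ y i g f m, (Φ y i g (f, m)).1 = g * f := by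
    intro y i g
    induction g using FreeGroup.induction_on with
    | C1 => intro f m; simp
    | of k => intro f m; simp [Φ, σ]
    | inv_of k _ => intro f m; simp [Φ, σ]
    | mul g h ihg ihh =>
      intro f m
      rw [map_mul, Equiv.Perm.mul_apply]
      have := ihg (Φ y i h (f, m)).1 (Φ y i h (f, m)).2
      rw [Prod.mk.eta] at this
      rw [this, ihh, mul_assoc]
  let Δ : X → ι → FreeGroup ι → (X →₀ ℤ) := fun y i f => (Φ y i f (1, 0)).2
  have hΔ : ∀ y i k f, Δ y i (FreeGroup.of k * f)
      = Δ y i f + if i = k then single (j (f, 1) • y) 1 else 0 := by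
    intro y i k f
    have h1 : Φ y i f (1, 0) = (f, Δ y i f) := by
      apply Prod.ext
      · rw [hΦ1]; simp
      · rfl
    have h2 : Φ y i (FreeGroup.of k * f) (1, 0) = σ y i k (f, Δ y i f) := by
      rw [map_mul, Equiv.Perm.mul_apply, h1]
      simp [Φ]
    simp only [Δ] at h2 ⊢
    rw [h2]
    simp [σ]
  -- the operators
  let val : ι → X → (X →₀ ℤ) := fun i x =>
    permRep G X (j (1, (κ x).2)) (Δ (x0 x) i (κ x).1)
  refine ⟨fun i => Finsupp.linearCombination ℤ (val i), ?_, ?_⟩
  · intro i k m
    induction m using Finsupp.induction_linear with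
    | zero => simp
    | add f g hf hg =>
      rw [map_add, map_add, hf, hg, map_add]
      split_ifs <;> abel
    | single x n =>
      rw [permRep_single, linearCombination_single, linearCombination_single]
      have hv : val i (j (FreeGroup.of k, 1) • x) = val i x + if i = k then single x 1 else 0 := by
        simp only [val, hκv, hx0v, Prod.fst_mul, Prod.snd_mul, one_mul]
        rw [hΔ, map_add]
        congr 1
        split_ifs with hik
        · rw [permRep_single, ← mul_smul, ← map_mul]
          congr 1
          conv_rhs => rw [← hκ x]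
          congr 2
          ext <;> simp
        · simp
      rw [hv, smul_add]
      congr 1
      split_ifs <;> simp
  · intro i b m
    induction m using Finsupp.induction_linear with
    | zero => simp
    | add f g hf hg => rw [map_add, map_add, hf, hg, map_add, map_add]
    | single x n =>
      rw [permRep_single, linearCombination_single, linearCombination_single]
      have hv : val i (j (1, b) • x) = permRep G X (j (1, b)) (val i x) := by
        simp only [val, hκv, hx0v, Prod.fst_mul, Prod.snd_mul, one_mul]
        rw [← Module.End.mul_apply, ← map_mul, ← map_mul]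
        simp
      rw [hv, map_zsmul]

end

end Pool.Agent.Helper158
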