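import Mathlib
import Pool.Agent.Helper158.Alg
import Pool.Agent.Helper158.Perm

namespace Pool.Agent.Helper158

open Finsupp

/-- the `ℓ¹` norm -/
noncomputable def nrm {Y : Type*} (f : Y →₀ ℤ) : ℤ := f.sum fun _ n => |n|

theorem nrm_nonneg {Y : Type*} (f : Y →₀ ℤ) : 0 ≤ nrm f :=
  Finset.sum_nonneg fun _ _ => abs_nonneg _

theorem nrm_eq_zero {Y : Type*} {f : Y →₀ ℤ} (h : nrm f ≤ 0) : f = 0 := by
  have h0 : nrm f = 0 := le_antisymm h (nrm_nonneg f)
  unfold nrm Finsupp.sum at h0
  rw [Finset.sum_eq_zero_iff_of_nonneg (fun _ _ => abs_nonneg _)] at h0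
  ext y
  by_contra hy
  exact hy (abs_eq_zero.1 (h0 y (Finsupp.mem_support_iff.2 hy)))

theorem nrm_add_le {Y : Type*} (f g : Y →₀ ℤ) : nrm (f + g) ≤ nrm f + nrm g := by
  classical
  unfold nrm
  rw [Finsupp.sum_of_support_subset (f + g) (s := f.support ∪ g.support)
      Finsupp.support_add _ (by simp),
    Finsupp.sum_of_support_subset f (s := f.support ∪ g.support)
      Finset.subset_union_left _ (by simp),
    Finsupp.sum_of_support_subset g (s := f.support ∪ g.support)
      Finset.subset_union_right _ (by simp), ← Finset.sum_add_distrib]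
  exact Finset.sum_le_sum fun y _ => abs_add_le _ _

theorem nrm_single {Y : Type*} (y : Y) (n : ℤ) : nrm (single y n) = |n| := by
  simp [nrm]

theorem nrm_mapDomain_le {Y Z : Type*} (p : Y → Z) (f : Y →₀ ℤ) :
    nrm (Finsupp.mapDomain p f) ≤ nrm f := by
  classical
  have h : ∀ s : Finset Y, nrm (∑ y ∈ s, single (p y) (f y)) ≤ ∑ y ∈ s, |f y| := by
    intro s
    induction s using Finset.induction_on with
    | empty => simp [nrm]
    | insert y s hy ih =>
      rw [Finset.sum_insert hy, Finset.sum_insert hy]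
      exact (nrm_add_le _ _).trans (add_le_add (nrm_single _ _).le ih)
  exact h f.support

theorem nrm_le_of_sign {Y Z : Type*} (p : Y → Z) (f : Y →₀ ℤ) (s : Z → ℤ)
    (hs : ∀ z, |s z| ≤ 1) (h : ∀ y, |f y| = s (p y) * f y) :
    nrm f ≤ nrm (Finsupp.mapDomain p f) := by
  have h1 : nrm f = (Finsupp.mapDomain p f).sum fun z n => s z * n := by
    rw [Finsupp.sum_mapDomain_index (by simp) (by intros; ring)]
    unfold nrm Finsupp.sum
    exact Finset.sum_congr rfl fun y _ => h y
  rw [h1]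
  unfold nrm Finsupp.sum
  refine Finset.sum_le_sum fun z _ => ?_
  calc s z * (mapDomain p f) z ≤ |s z * (mapDomain p f) z| := le_abs_self _
    _ = |s z| * |(mapDomain p f) z| := abs_mul _ _
    _ ≤ 1 * |(mapDomain p f) z| := by gcongr; exact hs z
    _ = _ := one_mul _

theorem const_fibre {Y Z : Type*} (p : Y → Z) (F : Y →₀ ℤ)
    (h : ∀ y y', p y = p y' → F y = F y') (y : Y) :
    ∃ n : ℕ, Finsupp.mapDomain p F (p y) = n * F y ∧ (F y ≠ 0 → 1 ≤ n) := by
  classical
  refine ⟨(F.support.filter fun y' => p y' = p y).card, ?_, ?_⟩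
  · rw [Finsupp.mapDomain, Finsupp.sum_apply, Finsupp.sum]
    simp only [Finsupp.single_apply]
    rw [← Finset.sum_filter]
    rw [Finset.sum_congr rfl (g := fun _ => F y)]
    · simp
    · intro y' hy'
      exact h _ _ (Finset.mem_filter.1 hy').2
  · intro hy
    exact Finset.card_pos.2 ⟨y, by simp [hy]⟩

section

variable {G X : Type*} [Group G] [MulAction G X]

/-- orbit map of a subgroup -/
def oq (K : Subgroup G) (x : X) : MulAction.orbitRel.Quotient K X := Quotient.mk _ x

theorem oq_eq_iff {K : Subgroup G} {x y : X} : oq K x = oq K y ↔ ∃ g ∈ K, g • y = x := by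
  unfold oq
  rw [Quotient.eq]
  constructor
  · rintro ⟨⟨g, hg⟩, h⟩; exact ⟨g, hg, h⟩
  · rintro ⟨g, hg, h⟩; exact ⟨⟨g, hg⟩, h⟩

theorem oq_surj {K : Subgroup G} (q : MulAction.orbitRel.Quotient K X) : ∃ x : X, oq K x = q :=
  Quotient.exists_rep q

/-- sum over the orbits of `z` -/
noncomputable def Sz (z : G) (m : X →₀ ℤ) (x : X) : ℤ :=
  Finsupp.mapDomain (oq (Subgroup.zpowers z)) m (oq (Subgroup.zpowers z) x)

theorem Sz_add (z : G) (m m' : X →₀ ℤ) (x : X) : Sz z (m + m') x = Sz z m x + Sz z m' x := by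
  simp [Sz, Finsupp.mapDomain_add]

theorem Sz_sub (z : G) (m m' : X →₀ ℤ) (x : X) : Sz z (m - m') x = Sz z m x - Sz z m' x := by
  have := Sz_add z (m - m') m' x
  rw [sub_add_cancel] at this
  rw [this]; ring

theorem Sz_neg (z : G) (m : X →₀ ℤ) (x : X) : Sz z (-m) x = -Sz z m x := by
  have := Sz_sub z 0 m x
  rw [zero_sub] at this
  rw [this]
  simp [Sz]

theorem Sz_act (z g : G) (hg : Commute z g) (m : X →₀ ℤ) (x : X) :
    Sz z (permRep G X g m) x = Sz z m (g⁻¹ • x) := by
  have hwd : ∀ x y : X, oq (Subgroup.zpowers z) x = oq (Subgroup.zpowers z) y →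
      oq (Subgroup.zpowers z) (g • x) = oq (Subgroup.zpowers z) (g • y) := by
    intro x y h
    obtain ⟨_, ⟨k, rfl⟩, hk⟩ := oq_eq_iff.1 h
    rw [oq_eq_iff]
    refine ⟨z ^ k, ⟨k, rfl⟩, ?_⟩
    rw [← hk]
    simp only [← mul_smul]
    rw [(hg.zpow_left k).eq]
  have hinj : ∀ x y : X, oq (Subgroup.zpowers z) (g • x) = oq (Subgroup.zpowers z) (g • y) →
      oq (Subgroup.zpowers z) x = oq (Subgroup.zpowers z) y := by
    intro x y h
    obtain ⟨_, ⟨k, rfl⟩, hk⟩ := oq_eq_iff.1 h
    rw [oq_eq_iff]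
    refine ⟨z ^ k, ⟨k, rfl⟩, ?_⟩
    simp only [← mul_smul] at hk
    rw [(hg.zpow_left k).eq, mul_smul] at hk
    exact MulAction.injective g hk
  let gbar : MulAction.orbitRel.Quotient (Subgroup.zpowers z) X →
      MulAction.orbitRel.Quotient (Subgroup.zpowers z) X :=
    Quotient.lift (fun x => oq (Subgroup.zpowers z) (g • x))
      (fun x y h => hwd x y (Quotient.sound h))
  have hgbar : ∀ x, gbar (oq (Subgroup.zpowers z) x) = oq (Subgroup.zpowers z) (g • x) :=
    fun x => rfl
  have hgi : Function.Injective gbar := by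
    intro q q' h
    obtain ⟨x, rfl⟩ := oq_surj q
    obtain ⟨y, rfl⟩ := oq_surj q'
    rw [hgbar, hgbar] at h
    exact hinj _ _ h
  unfold Sz
  have h1 : Finsupp.mapDomain (oq (Subgroup.zpowers z)) (permRep G X g m)
      = Finsupp.mapDomain gbar (Finsupp.mapDomain (oq (Subgroup.zpowers z)) m) := by
    rw [permRep_def, ← Finsupp.mapDomain_comp, ← Finsupp.mapDomain_comp]
    rfl
  have h2 : oq (Subgroup.zpowers z) x = gbar (oq (Subgroup.zpowers z) (g⁻¹ • x)) := by
    rw [hgbar, smul_inv_smul]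
  rw [h1, h2, Finsupp.mapDomain_apply hgi]

theorem Sz_self (z : G) (m : X →₀ ℤ) (x : X) : Sz z m (z • x) = Sz z m x := by
  unfold Sz
  congr 1
  rw [oq_eq_iff]
  exact ⟨z, Subgroup.mem_zpowers z, rfl⟩

theorem Sz_sub_one (z : G) (m : X →₀ ℤ) (x : X) : Sz z (permRep G X z m - m) x = 0 := by
  rw [Sz_sub, Sz_act z z (Commute.refl z)]
  have := Sz_self z m (z⁻¹ • x)
  rw [smul_inv_smul] at this
  rw [← this, sub_self]

theorem exists_of_Sz_eq_zero (z : G) (m : X →₀ ℤ) (h : ∀ x, Sz z m x = 0) :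
    ∃ u, m = permRep G X z u - u := by
  let I : AddSubgroup (X →₀ ℤ) :=
    { carrier := {m | ∃ u, m = permRep G X z u - u}
      zero_mem' := ⟨0, by simp⟩
      add_mem' := by
        rintro _ _ ⟨u, rfl⟩ ⟨u', rfl⟩
        exact ⟨u + u', by simp only [map_add]; abel⟩
      neg_mem' := by
        rintro _ ⟨u, rfl⟩
        exact ⟨-u, by simp only [map_neg]; abel⟩ }
  refine mem_of_mapDomain_eq_zero {z} I ?_ (oq (Subgroup.zpowers z)) ?_ m ?_
  · rintro s rfl x
    exact ⟨single x 1, by simp⟩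
  · intro x y hxy
    obtain ⟨g, hg, h⟩ := oq_eq_iff.1 hxy.symm
    exact ⟨g, by rwa [← Subgroup.zpowers_eq_closure], h⟩
  · ext q
    obtain ⟨x, rfl⟩ := oq_surj q
    exact h x

/-- map between orbit spaces -/
def oqMap {K L : Subgroup G} (h : K ≤ L) :
    MulAction.orbitRel.Quotient K X → MulAction.orbitRel.Quotient L X :=
  Quotient.lift (fun x => oq L x) (by
    rintro x y ⟨⟨g, hg⟩, hxy⟩
    rw [oq_eq_iff]
    exact ⟨g, h hg, hxy⟩)

theorem oqMap_oq {K L : Subgroup G} (h : K ≤ L) (x : X) : oqMap h (oq K x) = oq L x := rfl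

theorem oqMap_comp {K L : Subgroup G} (h : K ≤ L) :
    (oqMap h) ∘ (oq K : X → _) = oq L := rfl

theorem side_ineq (a b z w : G) (za : Commute z a) (zb : Commute z b)
    (hw : w = a * b * a⁻¹ * b⁻¹ * z * z) (KE : Subgroup G) (hzK : z ∈ KE)
    (hKE : KE ≤ Subgroup.closure {z, w}) (ua ub al be : X →₀ ℤ)
    (h1 : -(permRep G X z - 1) ua + Wa (permRep G X) a b z be = 0)
    (h2 : -(permRep G X z - 1) ub + Wb (permRep G X) a b z be = 0)
    (h3 : (permRep G X a - 1) ua + (permRep G X b - 1) ub + al + Wz (permRep G X) z be = 0) :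
    2 * nrm (Finsupp.mapDomain (oq KE) be) ≤ nrm (Finsupp.mapDomain (oq KE) al) ∧
    (Finsupp.mapDomain (oq KE) be = 0 → ∃ u, be = permRep G X z u - u) := by
  -- invariance of the orbit sums
  set σ : X → ℤ := Sz z be with hσ
  have σz : ∀ x, σ (z • x) = σ x := fun x => Sz_self z be x
  have σz' : ∀ x, σ (z⁻¹ • x) = σ x := fun x => by
    have := σz (z⁻¹ • x)
    rwa [smul_inv_smul, eq_comm] at this
  have c1 : Commute z (b * a⁻¹ * b⁻¹ * z * z) :=
    (((zb.mul_right za.inv_right).mul_right zb.inv_right).mul_right (Commute.refl z)).mul_right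
      (Commute.refl z)
  have c2 : Commute z (a⁻¹ * b⁻¹ * z * z) :=
    ((za.inv_right.mul_right zb.inv_right).mul_right (Commute.refl z)).mul_right (Commute.refl z)
  have c3 : Commute z (b⁻¹ * z * z) :=
    (zb.inv_right.mul_right (Commute.refl z)).mul_right (Commute.refl z)
  have e1 : ∀ x, σ (b • a • x) = σ (b • x) := by
    intro x
    have h : Sz z (Wb (permRep G X) a b z be) x = 0 := by
      rw [neg_add_eq_zero] at h2
      rw [← h2, sub_one_apply]
      exact Sz_sub_one z ub x
    rw [Wb, LinearMap.sub_apply, Sz_sub, Sz_act z _ c2, Sz_act z _ c3, sub_eq_zero] at h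
    simp only [mul_inv_rev, inv_inv, mul_smul] at h
    rw [← hσ, σz', σz', σz', σz'] at h
    exact h
  have e2 : ∀ x, σ (b • a • b⁻¹ • x) = σ (b • a • x) := by
    intro x
    have h : Sz z (Wa (permRep G X) a b z be) x = 0 := by
      rw [neg_add_eq_zero] at h1
      rw [← h1, sub_one_apply]
      exact Sz_sub_one z ua x
    rw [Wa, LinearMap.sub_apply, Sz_sub, Sz_act z _ c1, Sz_act z _ c2, sub_eq_zero] at h
    simp only [mul_inv_rev, inv_inv, mul_smul] at h
    rw [← hσ, σz', σz', σz', σz'] at h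
    exact h
  have σb : ∀ x, σ (b • x) = σ x := by
    intro x
    have h := e2 x
    rw [e1, e1, smul_inv_smul] at h
    exact h.symm
  have σa : ∀ x, σ (a • x) = σ x := by
    intro x
    have h := e1 x
    rwa [σb, σb] at h
  set K1 : Subgroup G := Subgroup.closure {a, b, z} with hK1
  have ha1 : a ∈ K1 := Subgroup.subset_closure (by simp)
  have hb1 : b ∈ K1 := Subgroup.subset_closure (by simp)
  have hz1 : z ∈ K1 := Subgroup.subset_closure (by simp)
  have hw1 : w ∈ K1 := by
    rw [hw]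
    exact mul_mem (mul_mem (mul_mem (mul_mem (mul_mem ha1 hb1) (inv_mem ha1)) (inv_mem hb1)) hz1)
      hz1
  have hle : KE ≤ K1 := hKE.trans (by
    rw [Subgroup.closure_le]
    rintro g (rfl | rfl)
    · exact hz1
    · exact hw1)
  have σK : ∀ g ∈ K1, ∀ x, σ (g • x) = σ x := by
    intro g hg
    induction hg using Subgroup.closure_induction with
    | mem s hs =>
      rcases hs with (rfl | rfl | rfl)
      · exact σa
      · exact σb
      · exact σz
    | one => intro x; simp
    | mul g h _ _ ihg ihh => intro x; rw [mul_smul, ihg, ihh]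
    | inv g _ ih => intro x; have := ih (g⁻¹ • x); rwa [smul_inv_smul, eq_comm] at this
  have hzle : Subgroup.zpowers z ≤ KE := by
    rw [Subgroup.zpowers_le]; exact hzK
  -- the fibre formula
  have hfib : ∀ x : X, ∃ n : ℕ, Finsupp.mapDomain (oq KE) be (oq KE x) = n * σ x ∧
      (σ x ≠ 0 → 1 ≤ n) := by
    intro x
    have h := const_fibre (oqMap hzle)
      (Finsupp.mapDomain (oq (Subgroup.zpowers z)) be) (by
        intro q q' hqq
        obtain ⟨x, rfl⟩ := oq_surj q
        obtain ⟨y, rfl⟩ := oq_surj q'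
        rw [oqMap_oq, oqMap_oq, oq_eq_iff] at hqq
        obtain ⟨g, hg, rfl⟩ := hqq
        exact σK g (hle hg) y) (oq (Subgroup.zpowers z) x)
    rw [← Finsupp.mapDomain_comp, oqMap_comp, oqMap_oq] at h
    exact h
  constructor
  · -- signs
    let s : MulAction.orbitRel.Quotient K1 X → ℤ := Quotient.lift (fun x => Int.sign (σ x)) (by
      rintro x y ⟨⟨g, hg⟩, rfl⟩
      exact congrArg Int.sign (σK g hg y))
    have hs : ∀ x, s (oq K1 x) = Int.sign (σ x) := fun x => rfl
    have hs1 : ∀ q, |s q| ≤ 1 := by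
      intro q
      obtain ⟨x, rfl⟩ := oq_surj q
      rw [hs]
      rcases Int.sign_trichotomy (σ x) with h | h | h <;> rw [h] <;> simp
    have hN : nrm (Finsupp.mapDomain (oq KE) be)
        ≤ nrm (Finsupp.mapDomain (oqMap hle) (Finsupp.mapDomain (oq KE) be)) := by
      refine nrm_le_of_sign _ _ s hs1 ?_
      intro q
      obtain ⟨x, rfl⟩ := oq_surj q
      rw [oqMap_oq, hs]
      obtain ⟨n, hn, -⟩ := hfib x
      rw [hn, abs_mul, Nat.abs_cast, ← Int.sign_mul_self_eq_abs]
      ring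
    rw [← Finsupp.mapDomain_comp, oqMap_comp] at hN
    have h4 : Finsupp.mapDomain (oq K1) al = (-2 : ℤ) • Finsupp.mapDomain (oq K1) be := by
      have hinv : ∀ g ∈ K1, ∀ f : X →₀ ℤ,
          Finsupp.mapDomain (oq K1) (permRep G X g f) = Finsupp.mapDomain (oq K1) f := by
        intro g hg f
        apply mapDomain_permRep
        intro x
        rw [oq_eq_iff]
        exact ⟨g, hg, rfl⟩
      have h := congrArg (Finsupp.lmapDomain ℤ ℤ (oq K1)) h3
      simp only [sub_one_apply, map_add, map_sub, map_zero, Wz, LinearMap.add_apply,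
        Module.End.one_apply, Finsupp.lmapDomain_apply, hinv a ha1, hinv b hb1, hinv z hz1,
        sub_self, zero_add] at h
      rw [eq_neg_of_add_eq_zero_left h]
      module
    have h5 : nrm (Finsupp.mapDomain (oq K1) al) = 2 * nrm (Finsupp.mapDomain (oq K1) be) := by
      rw [h4]
      unfold nrm
      rw [Finsupp.sum_smul_index (by simp)]
      simp only [abs_mul]
      rw [Finsupp.mul_sum]
      rfl
    have h6 : nrm (Finsupp.mapDomain (oq K1) al) ≤ nrm (Finsupp.mapDomain (oq KE) al) := by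
      have := nrm_mapDomain_le (oqMap hle) (Finsupp.mapDomain (oq KE) al)
      rwa [← Finsupp.mapDomain_comp, oqMap_comp] at this
    linarith
  · intro h0
    apply exists_of_Sz_eq_zero
    intro x
    by_contra hne
    obtain ⟨n, hn, hn1⟩ := hfib x
    rw [h0, Finsupp.zero_apply] at hn
    have := hn1 hne
    rcases mul_eq_zero.1 hn.symm with h | h
    · rw [Nat.cast_eq_zero] at h; omega
    · exact hne h

end

end Pool.Agent.Helper158
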