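import Mathlib
import Pool.Agent.Helper158.Ineq

namespace Pool.Agent.Helper158

open Finsupp

section

variable {G X : Type*} [Group G] [MulAction G X]

theorem permRep_pow_fix (z : G) (t : X →₀ ℤ) (h : permRep G X z t = t) (n : ℕ) :
    permRep G X (z ^ n) t = t := by
  induction n with
  | zero => simp
  | succ n ih => rw [pow_succ, map_mul, Module.End.mul_apply, h, ih]

theorem exists_period (z : G) (t : X →₀ ℤ) (h : permRep G X z t = t) :
    ∃ N : ℕ, 1 ≤ N ∧ ∀ x ∈ t.support, z ^ N • x = x := by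
  classical
  refine ⟨t.support.card.factorial, Nat.factorial_pos _, fun x hx => ?_⟩
  have hmem : ∀ k : ℕ, z ^ k • x ∈ t.support := by
    intro k
    have h1 := permRep_pow_fix z t h k
    have h2 := DFunLike.congr_fun h1 (z ^ k • x)
    rw [permRep_apply, inv_smul_smul] at h2
    rw [Finsupp.mem_support_iff, ← h2]
    exact Finsupp.mem_support_iff.1 hx
  obtain ⟨i, hi, j, hj, hij, he⟩ := Finset.exists_ne_map_eq_of_card_lt_of_maps_to
    (s := Finset.range (t.support.card + 1)) (t := t.support) (by simp)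
    (f := fun k => z ^ k • x) (fun k _ => hmem k)
  have key : ∀ i j : ℕ, i < j → j < t.support.card + 1 → z ^ i • x = z ^ j • x →
      z ^ t.support.card.factorial • x = x := by
    intro i j hij hj he
    have h1 : z ^ (j - i) • x = x := by
      have : z ^ j = z ^ i * z ^ (j - i) := by rw [← pow_add]; congr 1; omega
      rw [this, mul_smul] at he
      exact (MulAction.injective _ he).symm
    have h2 : (j - i) ∣ t.support.card.factorial :=
      Nat.dvd_factorial (by omega) (by omega)
    obtain ⟨q, hq⟩ := h2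
    rw [hq, pow_mul]
    have h3 : ∀ q : ℕ, (z ^ (j - i)) ^ q • x = x := by
      intro q
      induction q with
      | zero => simp
      | succ q ih => rw [pow_succ, mul_smul, h1, ih]
    exact h3 q
  rw [Finset.mem_range] at hi hj
  rcases lt_or_gt_of_ne hij with h' | h'
  · exact key i j h' hj he
  · exact key j i h' hi he.symm

open scoped Classical in
theorem permRep_filter (z g : G) (hc : Commute z g) (N : ℕ) (v : X →₀ ℤ) :
    permRep G X g (v.filter fun x => z ^ N • x = x)
      = (permRep G X g v).filter fun x => z ^ N • x = x := by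
  ext x
  rw [permRep_apply]
  have hiff : (z ^ N • g⁻¹ • x = g⁻¹ • x) ↔ z ^ N • x = x := by
    rw [← mul_smul, ((hc.pow_left N).inv_right).eq, mul_smul]
    exact smul_left_cancel_iff _
  by_cases hx : z ^ N • x = x
  · rw [Finsupp.filter_apply_pos (fun x => z ^ N • x = x) _ (hiff.2 hx),
      Finsupp.filter_apply_pos (fun x => z ^ N • x = x) _ hx, permRep_apply]
  · rw [Finsupp.filter_apply_neg (fun x => z ^ N • x = x) _ (fun h => hx (hiff.1 h)),
      Finsupp.filter_apply_neg (fun x => z ^ N • x = x) _ hx]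

/-- rational correction -/
theorem exists_correction (z w : G) (hc : Commute z w) (v : X →₀ ℤ)
    (h : permRep G X z (permRep G X w v - v) = permRep G X w v - v) :
    ∃ (N : ℕ) (k : X →₀ ℤ), 1 ≤ N ∧ permRep G X z k = k ∧
      permRep G X w k - k = -((N : ℤ) • (permRep G X w v - v)) := by
  classical
  obtain ⟨N, hN, hfix⟩ := exists_period z _ h
  set v' := v.filter (fun x => z ^ N • x = x) with hv'
  set t := permRep G X w v - v with ht
  have ht' : permRep G X w v' - v' = t := by
    rw [hv', permRep_filter z w hc, ← Finsupp.filter_sub]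
    rw [Finsupp.filter_eq_self_iff]
    intro x hx
    exact hfix x (Finsupp.mem_support_iff.2 hx)
  have hzN : permRep G X (z ^ N) v' = v' := by
    ext x
    rw [permRep_apply]
    by_cases hx : z ^ N • x = x
    · rw [inv_smul_eq_iff.2 hx.symm]
    · rw [hv', Finsupp.filter_apply_neg (fun x => z ^ N • x = x) _ hx,
        Finsupp.filter_apply_neg (fun x => z ^ N • x = x)]
      intro h'
      rw [smul_inv_smul, eq_inv_smul_iff] at h'
      exact hx h'
  refine ⟨N, -∑ j ∈ Finset.range N, permRep G X (z ^ j) v', hN, ?_, ?_⟩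
  · rw [map_neg, map_sum, neg_inj]
    have h1 : ∀ j, permRep G X z (permRep G X (z ^ j) v') = permRep G X (z ^ (j + 1)) v' := by
      intro j
      rw [← Module.End.mul_apply, ← map_mul, ← pow_succ']
    simp only [h1]
    have h2 := Finset.sum_range_succ (fun j => permRep G X (z ^ j) v') N
    rw [Finset.sum_range_succ', hzN] at h2
    simpa using h2
  · rw [map_neg, map_sum, ← neg_add_eq_sub, ← neg_neg (_ + _), neg_inj, neg_add, neg_neg, neg_neg,
      ← sub_eq_neg_add, ← Finset.sum_sub_distrib]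
    have h1 : ∀ j, permRep G X w (permRep G X (z ^ j) v') - permRep G X (z ^ j) v' = t := by
      intro j
      have hcj : Commute w (z ^ j) := (hc.pow_left j).symm
      rw [← Module.End.mul_apply, ← map_mul, hcj.eq, map_mul, Module.End.mul_apply, ← map_sub,
        ht']
      exact permRep_pow_fix z t h j
    rw [Finset.sum_congr rfl (fun j _ => h1 j)]
    simp

/-- Every two-cycle is rationally a sum of cycles supported on the two sides. -/
theorem split (a b z c d w : G) (hR : Rels a b z c d w)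
    (u : (X →₀ ℤ) × (X →₀ ℤ) × (X →₀ ℤ) × (X →₀ ℤ) × (X →₀ ℤ) × (X →₀ ℤ))
    (hu : bd2 (permRep G X) a b z c d w u = 0) :
    ∃ (N : ℕ) (m xa xb xc xd : X →₀ ℤ), 1 ≤ N ∧
      bd2 (permRep G X) a b z c d w (xa, xb, 0, 0, 0, 0) = 0 ∧
      bd2 (permRep G X) a b z c d w (0, 0, xc, xd, 0, 0) = 0 ∧
      (N : ℤ) • u = bd3 (permRep G X) a b z c d w m + (xa, xb, 0, 0, 0, 0)
        + (0, 0, xc, xd, 0, 0) := by
  obtain ⟨ua, ub, uc, ud, al, be⟩ := u
  have hu' := hu
  simp only [bd2, LinearMap.coe_mk, AddHom.coe_mk, Prod.mk_eq_zero] at hu'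
  obtain ⟨h1, h2, h3, h4, h5, h6, h7⟩ := hu'
  have s1 := side_ineq a b z w hR.za hR.zb hR.hw (Subgroup.closure {z, w})
    (Subgroup.subset_closure (by simp)) le_rfl ua ub al be h1 h2 h3
  have s2 := side_ineq c d w z hR.wc hR.wd hR.hz (Subgroup.closure {z, w})
    (Subgroup.subset_closure (by simp)) (by rw [Set.pair_comm]) uc ud be al h4 h5 h6
  have n1 := nrm_nonneg (Finsupp.mapDomain (oq (Subgroup.closure {z, w})) be)
  have n2 := nrm_nonneg (Finsupp.mapDomain (oq (Subgroup.closure {z, w})) al)
  have z1 : Finsupp.mapDomain (oq (Subgroup.closure {z, w})) be = 0 :=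
    nrm_eq_zero (by linarith [s1.1, s2.1])
  have z2 : Finsupp.mapDomain (oq (Subgroup.closure {z, w})) al = 0 :=
    nrm_eq_zero (by linarith [s1.1, s2.1])
  obtain ⟨B, hB⟩ := s1.2 z1
  obtain ⟨A, hA⟩ := s2.2 z2
  have h8 : permRep G X z (permRep G X w (A + B) - (A + B)) = permRep G X w (A + B) - (A + B) := by
    have hc := comm_sub_one' (permRep G X) hR.zw B
    simp only [sub_one_apply] at h7 hc
    rw [hA, hB, ← hc] at h7
    rw [← sub_eq_zero, ← h7]
    simp only [map_add, map_sub]
    abel
  obtain ⟨N, k, hN, hk1, hk2⟩ := exists_correction z w hR.zw (A + B) h8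
  set m : X →₀ ℤ := (N : ℤ) • B + k with hm
  have e1 : (N : ℤ) • be = (permRep G X z - 1) m := by
    rw [hm, map_add, map_zsmul, sub_one_apply, sub_one_apply, hk1, sub_self, add_zero, hB]
  have e2 : (N : ℤ) • al = -(permRep G X w - 1) m := by
    rw [hm, map_add, map_zsmul, sub_one_apply, sub_one_apply, hk2, hA]
    simp only [map_add, smul_sub, smul_add]
    abel
  have e : (N : ℤ) • (ua, ub, uc, ud, al, be) - bd3 (permRep G X) a b z c d w m
      = ((N : ℤ) • ua - Wa (permRep G X) a b z m, (N : ℤ) • ub - Wb (permRep G X) a b z m,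
        (N : ℤ) • uc + Wa (permRep G X) c d w m, (N : ℤ) • ud + Wb (permRep G X) c d w m, 0, 0) := by
    simp only [bd3, LinearMap.coe_mk, AddHom.coe_mk, Prod.smul_mk, Prod.mk_sub_mk, e1, e2,
      sub_self, sub_neg_eq_add]
    rfl
  have h0 : bd2 (permRep G X) a b z c d w
      ((N : ℤ) • (ua, ub, uc, ud, al, be) - bd3 (permRep G X) a b z c d w m) = 0 := by
    rw [map_sub, map_zsmul, hu, bd2_bd3 _ hR]; simp
  rw [e] at h0
  generalize (N : ℤ) • ua - Wa (permRep G X) a b z m = xa at *
  generalize (N : ℤ) • ub - Wb (permRep G X) a b z m = xb at *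
  generalize (N : ℤ) • uc + Wa (permRep G X) c d w m = xc at *
  generalize (N : ℤ) • ud + Wb (permRep G X) c d w m = xd at *
  simp only [bd2, LinearMap.coe_mk, AddHom.coe_mk, Prod.mk_eq_zero, map_zero, add_zero] at h0
  obtain ⟨k1, k2, k3, k4, k5, k6, -⟩ := h0
  refine ⟨N, m, xa, xb, xc, xd, hN, ?_, ?_, ?_⟩
  · simp only [bd2, LinearMap.coe_mk, AddHom.coe_mk, map_zero, add_zero, k1, k2, k3, neg_zero,
      Prod.mk_eq_zero, and_self]
  · simp only [bd2, LinearMap.coe_mk, AddHom.coe_mk, map_zero, add_zero, k4, k5, k6, neg_zero,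
      Prod.mk_eq_zero, and_self]
  · rw [add_assoc, ← sub_eq_iff_eq_add', e]; simp

end

end Pool.Agent.Helper158
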