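import Pool.Agent.Helper158.RankL
import Pool.Agent.Helper158.Split

namespace Pool.Agent.Helper158

open Finsupp

/-- six copies -/
abbrev L2 : Type := RG × RG × RG × RG × RG × RG

/-- seven copies -/
abbrev L1 : Type := RG × RG × RG × RG × RG × RG × RG

/-- boundary -/
noncomputable abbrev B2 : L2 →ₗ[RG] L1 := bd2 ρR gA gB gZ gC gD gW

/-- boundary -/
noncomputable abbrev B1 : L1 →ₗ[RG] (RG × RG) := bd1 ρR gA gB gZ gC gD gW

/-- boundary -/
noncomputable abbrev B3 : RG →ₗ[RG] L2 := bd3 ρR gA gB gZ gC gD gW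

/-- two components of the augmentation -/
noncomputable def A13 : L2 →+ ℤ × ℤ :=
  AddMonoidHom.mk' (fun x => (aug x.1, aug x.2.2.1)) (by
    intro x y
    simp only [Prod.fst_add, Prod.snd_add, map_add, Prod.mk_add_mk])

theorem A13_bd3 (m : RG) : A13 (B3 m) = 0 := by
  change (aug (Wa ρR gA gB gZ m), aug (-Wa ρR gC gD gW m)) = 0
  simp only [Wa, LinearMap.sub_apply, map_neg, map_sub, aug_ρR, sub_self, neg_zero,
    Prod.mk_eq_zero, and_self]

theorem A13_smul (g : GM) (x : L2) : A13 (MonoidAlgebra.of ℤ GM g • x) = A13 x := by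
  change (aug (MonoidAlgebra.of ℤ GM g * x.1), aug (MonoidAlgebra.of ℤ GM g * x.2.2.1)) =
    (aug x.1, aug x.2.2.1)
  rw [map_mul, map_mul, aug_of, one_mul, one_mul]

theorem A13_eq {x y : L2} (h : B2 x = B2 y) : A13 x = A13 y := by
  obtain ⟨m, hm⟩ := exact2 rels nice_R (x - y) (by rw [map_sub, h, sub_self])
  have : x = y + B3 m := by rw [hm]; abel
  rw [this, map_add, A13_bd3, add_zero]

theorem exists_psi (g : GM) : ∃ p : L1, B1 p = (MonoidAlgebra.of ℤ GM g - 1, 0) := by
  apply (ex0_R _).1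
  change aug (MonoidAlgebra.of ℤ GM g - 1) - aug 0 = 0
  rw [map_sub, aug_of, map_one, map_zero, sub_self, sub_zero]

/-- paths -/
noncomputable def psi (g : GM) : L1 := (exists_psi g).choose

theorem psi_spec (g : GM) : B1 (psi g) = (MonoidAlgebra.of ℤ GM g - 1, 0) :=
  (exists_psi g).choose_spec

/-- triangles -/
noncomputable def kap (g k : GM) : L1 := MonoidAlgebra.of ℤ GM g • psi k - psi (g * k) + psi g

theorem bd1_kap (g k : GM) : B1 (kap g k) = 0 := by
  rw [kap, map_add, map_sub, map_smul, psi_spec, psi_spec, psi_spec, map_mul]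
  ext1
  · change MonoidAlgebra.of ℤ GM g * (MonoidAlgebra.of ℤ GM k - 1) - (_ - 1) + (_ - 1) = 0
    rw [mul_sub, mul_one]
    abel
  · change MonoidAlgebra.of ℤ GM g * 0 - 0 + 0 = 0
    simp

theorem exists_tht (p : GM × GM) : ∃ t : L2, B2 t = kap p.1 p.2 :=
  exact1 rels nice_R _ (bd1_kap p.1 p.2)

/-- fillings -/
noncomputable def tht (p : GM × GM) : L2 := (exists_tht p).choose

theorem tht_spec (p : GM × GM) : B2 (tht p) = kap p.1 p.2 := (exists_tht p).choose_spec

/-- fillings of chains -/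
noncomputable def Tht : (GM × GM →₀ ℤ) →+ L2 :=
  Finsupp.liftAddHom (fun p => zmultiplesHom _ (tht p))

theorem Tht_single (p : GM × GM) (n : ℤ) : Tht (single p n) = n • tht p := by
  simp [Tht]

/-- boundary of a bar simplex -/
noncomputable def bcell (g h k : GM) : GM × GM →₀ ℤ :=
  single (h, k) 1 - single (g * h, k) 1 + single (g, h * k) 1 - single (g, h) 1

theorem A13_bcell (g h k : GM) : A13 (Tht (bcell g h k)) = 0 := by
  have h1 : B2 (Tht (bcell g h k)) = B2 (tht (h, k) - MonoidAlgebra.of ℤ GM g • tht (h, k)) := by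
    have h0 : Tht (bcell g h k) =
        tht (h, k) - tht (g * h, k) + tht (g, h * k) - tht (g, h) := by
      simp only [bcell, map_sub, map_add, Tht_single, one_smul]
    rw [h0, map_sub, map_add, map_sub, map_sub, map_smul,
      tht_spec, tht_spec, tht_spec, tht_spec]
    simp only [kap, smul_add, smul_sub, ← mul_smul, map_mul, mul_assoc]
    abel
  rw [A13_eq h1, map_sub, A13_smul, sub_self]

/-- a chain is a boundary -/
noncomputable def BB : AddSubgroup (GM × GM →₀ ℤ) := AddSubgroup.closure {x | ∃ g h k, bcell g h k = x}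

theorem A13_BB {x : GM × GM →₀ ℤ} (hx : x ∈ BB) : A13 (Tht x) = 0 := by
  induction hx using AddSubgroup.closure_induction with
  | mem x hx =>
    obtain ⟨g, h, k, rfl⟩ := hx
    exact A13_bcell g h k
  | zero => rw [map_zero, map_zero]
  | add x y _ _ hx hy => rw [map_add, map_add, hx, hy, add_zero]
  | neg x _ hx => rw [map_neg, map_neg, hx, neg_zero]

theorem A13_sub_smul (g : GM) (x : L2) : A13 ((MonoidAlgebra.of ℤ GM g - 1) • x) = 0 := by
  rw [sub_smul, one_smul, map_sub, A13_smul, sub_self]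

theorem comm_fill (g k : GM) (hc : Commute g k) (eg ek : L1)
    (hg : B1 eg = (MonoidAlgebra.of ℤ GM g - 1, 0))
    (hk : B1 ek = (MonoidAlgebra.of ℤ GM k - 1, 0)) (t : L2)
    (ht : B2 t = (MonoidAlgebra.of ℤ GM g - 1) • ek - (MonoidAlgebra.of ℤ GM k - 1) • eg) :
    A13 (tht (g, k) - tht (k, g)) = A13 t := by
  obtain ⟨xg, hxg⟩ : ∃ x : L2, B2 x = psi g - eg :=
    exact1 rels nice_R _ (by
      change B1 _ = 0
      rw [map_sub, psi_spec, hg, sub_self])
  obtain ⟨xk, hxk⟩ : ∃ x : L2, B2 x = psi k - ek :=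
    exact1 rels nice_R _ (by
      change B1 _ = 0
      rw [map_sub, psi_spec, hk, sub_self])
  have h1 : B2 (tht (g, k) - tht (k, g)) =
      B2 (t + (MonoidAlgebra.of ℤ GM g - 1) • xk - (MonoidAlgebra.of ℤ GM k - 1) • xg) := by
    rw [map_sub, map_sub, map_add, map_smul, map_smul, tht_spec, tht_spec, hxg, hxk, ht]
    simp only [kap, smul_sub, sub_smul, one_smul, hc.eq]
    abel
  rw [A13_eq h1, map_sub, map_add, A13_sub_smul, A13_sub_smul, add_zero, sub_zero]

theorem of_mul_inv (g x : GM) : ρR g (MonoidAlgebra.of ℤ GM x) = MonoidAlgebra.of ℤ GM (x * g⁻¹) := by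
  rw [ρR_apply, map_mul]

/-- two-cycle representing the class -/
noncomputable def yc : GM × GM →₀ ℤ :=
  single (gA, gZ) 1 - single (gZ, gA) 1 + (single (gC, gW) 1 - single (gW, gC) 1)

theorem fill1 : B2 (MonoidAlgebra.of ℤ GM (gA * gZ), 0, 0, 0, 0, 0) =
    (MonoidAlgebra.of ℤ GM gA - 1) • ((0, 0, -MonoidAlgebra.of ℤ GM gZ, 0, 0, 0, 0) : L1) -
    (MonoidAlgebra.of ℤ GM gZ - 1) • ((-MonoidAlgebra.of ℤ GM gA, 0, 0, 0, 0, 0, 0) : L1) := by
  have e1 : gA * gZ * gZ⁻¹ = gA := by group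
  have e2 : gA * gZ * gA⁻¹ = gZ := by rw [rels.za.symm.eq]; group
  have e3 : gZ * gA = gA * gZ := rels.za.eq
  simp only [B2, bd2, LinearMap.coe_mk, AddHom.coe_mk, sub_one_apply, map_zero,
    of_mul_inv, e1, e2, sub_zero, add_zero, neg_zero, Prod.smul_mk, smul_eq_mul, mul_zero,
    Prod.mk_sub_mk, sub_mul, mul_neg, one_mul, ← map_mul, e3, sub_self]
  ext1
  · simp only
    abel
  · ext1
    · rfl
    · ext1
      · simp only
        abel
      · rfl

theorem fill2 : B2 (0, 0, -MonoidAlgebra.of ℤ GM (gC * gW), 0, 0, 0) =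
    (MonoidAlgebra.of ℤ GM gC - 1) •
      ((0, 0, 0, 0, 0, MonoidAlgebra.of ℤ GM gW, 1 - MonoidAlgebra.of ℤ GM gW) : L1) -
    (MonoidAlgebra.of ℤ GM gW - 1) •
      ((0, 0, 0, MonoidAlgebra.of ℤ GM gC, 0, 0, 1 - MonoidAlgebra.of ℤ GM gC) : L1) := by
  have e1 : gC * gW * gW⁻¹ = gC := by group
  have e2 : gC * gW * gC⁻¹ = gW := by rw [rels.wc.symm.eq]; group
  have e3 : gW * gC = gC * gW := rels.wc.eq
  simp only [B2, bd2, LinearMap.coe_mk, AddHom.coe_mk, sub_one_apply, map_zero, map_neg,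
    of_mul_inv, e1, e2, sub_zero, add_zero, neg_zero, Prod.smul_mk, mul_zero, smul_eq_mul,
    Prod.mk_sub_mk, sub_mul, mul_sub, mul_one, one_mul, ← map_mul, e3, sub_self]
  ext1
  · rfl
  · ext1
    · rfl
    · ext1
      · rfl
      · ext1
        · simp only
          abel
        · ext1
          · rfl
          · ext1
            · simp only
              abel
            · simp only
              abel

theorem A13_yc : A13 (Tht yc) = (1, -1) := by
  have h0 : Tht yc = (tht (gA, gZ) - tht (gZ, gA)) + (tht (gC, gW) - tht (gW, gC)) := by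
    simp only [yc, map_sub, map_add, Tht_single, one_smul]
  have h1 := comm_fill gA gZ rels.za.symm (-MonoidAlgebra.of ℤ GM gA, 0, 0, 0, 0, 0, 0)
    (0, 0, -MonoidAlgebra.of ℤ GM gZ, 0, 0, 0, 0)
    (by
      simp only [B1, bd1, LinearMap.coe_mk, AddHom.coe_mk, sub_one_apply, map_zero, map_neg,
        of_mul_inv, mul_inv_cancel, sub_zero, add_zero, map_one]
      ext1
      · simp only
        abel
      · rfl)
    (by
      simp only [B1, bd1, LinearMap.coe_mk, AddHom.coe_mk, sub_one_apply, map_zero, map_neg,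
        of_mul_inv, mul_inv_cancel, sub_zero, add_zero, map_one]
      ext1
      · simp only
        abel
      · rfl)
    (MonoidAlgebra.of ℤ GM (gA * gZ), 0, 0, 0, 0, 0) fill1
  have h2 := comm_fill gC gW rels.wc.symm
    (0, 0, 0, MonoidAlgebra.of ℤ GM gC, 0, 0, 1 - MonoidAlgebra.of ℤ GM gC)
    (0, 0, 0, 0, 0, MonoidAlgebra.of ℤ GM gW, 1 - MonoidAlgebra.of ℤ GM gW)
    (by
      simp only [B1, bd1, LinearMap.coe_mk, AddHom.coe_mk, sub_one_apply, map_zero, map_neg,
        of_mul_inv, mul_inv_cancel, sub_zero, add_zero, map_one]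
      ext1
      · simp only
        abel
      · simp only
        abel)
    (by
      simp only [B1, bd1, LinearMap.coe_mk, AddHom.coe_mk, sub_one_apply, map_zero, map_neg,
        of_mul_inv, mul_inv_cancel, sub_zero, add_zero, map_one]
      ext1
      · simp only
        abel
      · simp only
        abel)
    (0, 0, -MonoidAlgebra.of ℤ GM (gC * gW), 0, 0, 0) fill2
  rw [h0, map_add, h1, h2]
  change (aug _, aug 0) + (aug 0, aug (- _)) = _
  rw [map_neg, aug_of, aug_of, map_zero]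
  rfl

end Pool.Agent.Helper158
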