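import Mathlib
import Pool.Agent.Helper158.Alg

namespace Pool.Agent.Helper158

section

variable {A : Type*} [Ring A] {M : Type*} [AddCommGroup M] [Module A M] {G : Type*} [Group G]
variable {ρ : G →* Module.End A M} {a b z c d w : G}

theorem act_inv_act (g : G) (x : M) : ρ g⁻¹ (ρ g x) = x := by
  rw [← Module.End.mul_apply, ← map_mul, inv_mul_cancel, map_one, Module.End.one_apply]

theorem act_act_inv (g : G) (x : M) : ρ g (ρ g⁻¹ x) = x := by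
  rw [← Module.End.mul_apply, ← map_mul, mul_inv_cancel, map_one, Module.End.one_apply]

theorem act_comm {g h : G} (hc : Commute g h) (x : M) : ρ g (ρ h x) = ρ h (ρ g x) := by
  rw [← Module.End.mul_apply, ← map_mul, hc.eq, map_mul, Module.End.mul_apply]

theorem inv_sub (g : G) (x : M) : ρ g⁻¹ x - x = -(ρ g (ρ g⁻¹ x) - ρ g⁻¹ x) := by
  rw [act_act_inv]; abel

theorem sub_inv (g : G) (x : M) : ρ g x - x = ρ g⁻¹ (-(ρ g x)) - (-(ρ g x)) := by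
  rw [map_neg, act_inv_act]; abel

theorem Nice.inv (hR : Rels a b z c d w) (hN : Nice (fun g m => ρ g m) a b z c d w) :
    Nice (fun g m => ρ g m) a⁻¹ b⁻¹ z⁻¹ c⁻¹ d⁻¹ w⁻¹ where
  zinj m h := by
    apply hN.zinj
    have : ρ z (ρ z⁻¹ m - m) = 0 := by rw [h, map_zero]
    rw [map_sub, act_act_inv] at this
    rw [← neg_sub, this, neg_zero]
  winj m h := by
    apply hN.winj
    have : ρ w (ρ w⁻¹ m - m) = 0 := by rw [h, map_zero]
    rw [map_sub, act_act_inv] at this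
    rw [← neg_sub, this, neg_zero]
  kos x y h := by
    rw [inv_sub z, inv_sub w, neg_inj] at h
    obtain ⟨u, h1, h2⟩ := hN.kos _ _ h
    refine ⟨-(ρ w (ρ z u)), ?_, ?_⟩
    · rw [map_neg, act_inv_act]
      have := congrArg (ρ z) h1
      rw [act_act_inv, map_sub, act_comm hR.zw] at this
      rw [this]; abel
    · have := congrArg (ρ w) h2
      rw [act_act_inv, map_sub] at this
      rw [this, map_neg, act_comm hR.zw.inv_left, act_inv_act]; abel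
  free1 x y u h := by
    rw [inv_sub a, inv_sub b, inv_sub z] at h
    obtain ⟨x', y', h1, h2⟩ := hN.free1 (ρ a⁻¹ x) (ρ b⁻¹ y) (ρ z⁻¹ u) (by
      rw [← neg_inj, neg_add]; exact h)
    refine ⟨-(ρ z (ρ a x')), -(ρ z (ρ b y')), ?_, ?_⟩
    · have := congrArg (ρ a) h1
      rw [act_act_inv, map_sub] at this
      rw [this, map_neg, act_inv_act, act_comm hR.za]; abel
    · have := congrArg (ρ b) h2
      rw [act_act_inv, map_sub] at this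
      rw [this, map_neg, act_inv_act, act_comm hR.zb]; abel
  free2 x y u h := by
    rw [inv_sub c, inv_sub d, inv_sub w] at h
    obtain ⟨x', y', h1, h2⟩ := hN.free2 (ρ c⁻¹ x) (ρ d⁻¹ y) (ρ w⁻¹ u) (by
      rw [← neg_inj, neg_add]; exact h)
    refine ⟨-(ρ w (ρ c x')), -(ρ w (ρ d y')), ?_, ?_⟩
    · have := congrArg (ρ c) h1
      rw [act_act_inv, map_sub] at this
      rw [this, map_neg, act_inv_act, act_comm hR.wc]; abel
    · have := congrArg (ρ d) h2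
      rw [act_act_inv, map_sub] at this
      rw [this, map_neg, act_inv_act, act_comm hR.wd]; abel
  tree x1 x2 x3 y1 y2 y3 h := by
    rw [inv_sub a, inv_sub b, inv_sub z, inv_sub c, inv_sub d, inv_sub w] at h
    obtain ⟨u, v, huv⟩ := hN.tree (ρ a⁻¹ x1) (ρ b⁻¹ x2) (ρ z⁻¹ x3) (ρ c⁻¹ y1) (ρ d⁻¹ y2)
      (ρ w⁻¹ y3) (by rw [← neg_inj]; simpa only [neg_add] using h)
    refine ⟨ρ z u, ρ w v, ?_⟩
    rw [inv_sub a, inv_sub b, inv_sub z, act_inv_act, act_inv_act]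
    have := congrArg Neg.neg huv
    simp only [neg_add] at this
    rw [this]; abel

end

section Coch

variable {A : Type*} [Ring A] {M : Type*} [AddCommGroup M] [Module A M] {G : Type*} [Group G]
variable (ρ : G →* Module.End A M) (a b z c d w : G)

/-- coboundary in degree 0 -/
def cb0 : (M × M) →+ (M × M × M × M × M × M × M) := AddMonoidHom.mk' (fun f =>
  (ρ a⁻¹ f.1 - f.1, ρ b⁻¹ f.1 - f.1, ρ z⁻¹ f.1 - f.1,
   ρ c⁻¹ f.2 - f.2, ρ d⁻¹ f.2 - f.2, ρ w⁻¹ f.2 - f.2, -f.1 - f.2)) (by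
    intro p q
    simp only [Prod.fst_add, Prod.snd_add, map_add, Prod.mk_add_mk]
    congr 1; · abel
    congr 1; · abel
    congr 1; · abel
    congr 1; · abel
    congr 1; · abel
    congr 1 <;> abel)

/-- coboundary in degree 1 -/
def cb1 : (M × M × M × M × M × M × M) →+ (M × M × M × M × M × M) := AddMonoidHom.mk' (fun g =>
  (-(ρ z⁻¹ g.1 - g.1) + (ρ a⁻¹ g.2.2.1 - g.2.2.1),
   -(ρ z⁻¹ g.2.1 - g.2.1) + (ρ b⁻¹ g.2.2.1 - g.2.2.1),
   -(ρ w⁻¹ g.2.2.2.1 - g.2.2.2.1) + (ρ c⁻¹ g.2.2.2.2.2.1 - g.2.2.2.2.2.1),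
   -(ρ w⁻¹ g.2.2.2.2.1 - g.2.2.2.2.1) + (ρ d⁻¹ g.2.2.2.2.2.1 - g.2.2.2.2.2.1),
   g.2.2.1 + Va ρ c d w g.2.2.2.1 + Vb ρ c d w g.2.2.2.2.1 + Vz ρ w g.2.2.2.2.2.1
     + (ρ z⁻¹ g.2.2.2.2.2.2 - g.2.2.2.2.2.2),
   g.2.2.2.2.2.1 + Va ρ a b z g.1 + Vb ρ a b z g.2.1 + Vz ρ z g.2.2.1
     + (ρ w⁻¹ g.2.2.2.2.2.2 - g.2.2.2.2.2.2))) (by
    intro p q
    simp only [Prod.fst_add, Prod.snd_add, map_add, Prod.mk_add_mk]
    congr 1; · abel
    congr 1; · abel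
    congr 1; · abel
    congr 1; · abel
    congr 1 <;> abel)

/-- coboundary in degree 2 -/
def cb2 : (M × M × M × M × M × M) →+ M := AddMonoidHom.mk' (fun h =>
  Va ρ a b z h.1 + Vb ρ a b z h.2.1 - Va ρ c d w h.2.2.1 - Vb ρ c d w h.2.2.2.1
    - (ρ w⁻¹ h.2.2.2.2.1 - h.2.2.2.2.1) + (ρ z⁻¹ h.2.2.2.2.2 - h.2.2.2.2.2)) (by
    intro p q
    simp only [Prod.fst_add, Prod.snd_add, map_add]
    abel)

variable {a b z c d w}

theorem comm_Va (ha : Commute z a) (hb : Commute z b) (x : M) :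
    ρ z⁻¹ (Va ρ a b z x) - Va ρ a b z x = Va ρ a b z (ρ z⁻¹ x - x) := by
  have h1 : Commute z⁻¹ (b * a⁻¹ * b⁻¹ * z * z)⁻¹ :=
    ((((hb.mul_right ha.inv_right).mul_right hb.inv_right).mul_right (Commute.refl z)).mul_right
      (Commute.refl z)).inv_inv
  have h2 : Commute z⁻¹ (a⁻¹ * b⁻¹ * z * z)⁻¹ :=
    (((ha.inv_right.mul_right hb.inv_right).mul_right (Commute.refl z)).mul_right
      (Commute.refl z)).inv_inv
  simp only [Va, LinearMap.sub_apply (ρ _) (ρ _), map_sub, act_comm h1, act_comm h2]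
  abel

theorem comm_Vb (ha : Commute z a) (hb : Commute z b) (x : M) :
    ρ z⁻¹ (Vb ρ a b z x) - Vb ρ a b z x = Vb ρ a b z (ρ z⁻¹ x - x) := by
  have h1 : Commute z⁻¹ (b⁻¹ * z * z)⁻¹ :=
    ((hb.inv_right.mul_right (Commute.refl z)).mul_right (Commute.refl z)).inv_inv
  have h2 : Commute z⁻¹ (a⁻¹ * b⁻¹ * z * z)⁻¹ :=
    (((ha.inv_right.mul_right hb.inv_right).mul_right (Commute.refl z)).mul_right
      (Commute.refl z)).inv_inv
  simp only [Vb, LinearMap.sub_apply (ρ _) (ρ _), map_sub, act_comm h1, act_comm h2]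
  abel

theorem comm_Vz (x : M) :
    ρ z⁻¹ (Vz ρ z x) - Vz ρ z x = Vz ρ z (ρ z⁻¹ x - x) := by
  simp only [Vz, LinearMap.add_apply, Module.End.one_apply, map_sub, map_add]

theorem fox'' (hw : w = a * b * a⁻¹ * b⁻¹ * z * z) (x : M) :
    Va ρ a b z (ρ a⁻¹ x - x) + Vb ρ a b z (ρ b⁻¹ x - x) + Vz ρ z (ρ z⁻¹ x - x)
      = ρ w⁻¹ x - x := by
  simpa only [sub_one_apply] using fox'_apply ρ hw x

theorem cb1_cb0 (hR : Rels a b z c d w) (f : M × M) :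
    cb1 ρ a b z c d w (cb0 ρ a b z c d w f) = 0 := by
  obtain ⟨f1, f2⟩ := f
  have e1 := fox'' ρ hR.hw f1
  have e2 := fox'' ρ hR.hz f2
  have ca := act_comm (ρ := ρ) hR.za.inv_inv f1
  have cb := act_comm (ρ := ρ) hR.zb.inv_inv f1
  have cc := act_comm (ρ := ρ) hR.wc.inv_inv f2
  have cd := act_comm (ρ := ρ) hR.wd.inv_inv f2
  simp only [cb1, cb0, AddMonoidHom.mk'_apply, Prod.mk_eq_zero]
  refine ⟨by simp only [map_sub, ca]; abel, by simp only [map_sub, cb]; abel,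
    by simp only [map_sub, cc]; abel, by simp only [map_sub, cd]; abel, ?_, ?_⟩
  · have : ρ z⁻¹ f1 - f1 + Va ρ c d w (ρ c⁻¹ f2 - f2) + Vb ρ c d w (ρ d⁻¹ f2 - f2)
        + Vz ρ w (ρ w⁻¹ f2 - f2) = ρ z⁻¹ f1 - f1 + (ρ z⁻¹ f2 - f2) := by rw [← e2]; abel
    rw [this, map_sub, map_neg]; abel
  · have : ρ w⁻¹ f2 - f2 + Va ρ a b z (ρ a⁻¹ f1 - f1) + Vb ρ a b z (ρ b⁻¹ f1 - f1)
        + Vz ρ z (ρ z⁻¹ f1 - f1) = ρ w⁻¹ f2 - f2 + (ρ w⁻¹ f1 - f1) := by rw [← e1]; abel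
    rw [this, map_sub, map_neg]; abel

theorem cb2_cb1 (hR : Rels a b z c d w) (g) :
    cb2 ρ a b z c d w (cb1 ρ a b z c d w g) = 0 := by
  obtain ⟨ga, gb, gz, gc, gd, gw, ge⟩ := g
  have e1 := fox'' ρ hR.hw gz
  have e2 := fox'' ρ hR.hz gw
  have ca := comm_Va ρ hR.za hR.zb ga
  have cb := comm_Vb ρ hR.za hR.zb gb
  have cc := comm_Va ρ hR.wc hR.wd gc
  have cd := comm_Vb ρ hR.wc hR.wd gd
  have cz := comm_Vz (z := z) ρ gz
  have cw := comm_Vz (z := w) ρ gw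
  have cm := act_comm (ρ := ρ) hR.zw.inv_inv ge
  simp only [cb2, cb1, AddMonoidHom.mk'_apply, map_add, map_neg]
  rw [← ca, ← cb, ← cc, ← cd]
  have e1' : Va ρ a b z (ρ a⁻¹ gz - gz) = ρ w⁻¹ gz - gz - Vb ρ a b z (ρ b⁻¹ gz - gz)
      - Vz ρ z (ρ z⁻¹ gz - gz) := by rw [← e1]; abel
  have e2' : Va ρ c d w (ρ c⁻¹ gw - gw) = ρ z⁻¹ gw - gw - Vb ρ c d w (ρ d⁻¹ gw - gw)
      - Vz ρ w (ρ w⁻¹ gw - gw) := by rw [← e2]; abel
  rw [e1', e2', ← cz, ← cw]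
  simp only [map_sub, cm]
  abel

end Coch

section CohExact

variable {A : Type*} [Ring A] {M : Type*} [AddCommGroup M] [Module A M] {G : Type*} [Group G]
variable {ρ : G →* Module.End A M} {a b z c d w : G}

/-- `H⁰ = 0` -/
theorem coh0 (hR : Rels a b z c d w) (hN : Nice (fun g m => ρ g m) a b z c d w)
    (f : M × M) (h : cb0 ρ a b z c d w f = 0) : f = 0 := by
  have hN' := hN.inv hR
  obtain ⟨f1, f2⟩ := f
  simp only [cb0, AddMonoidHom.mk'_apply, Prod.mk_eq_zero] at h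
  obtain ⟨-, -, h1, -, -, h2, -⟩ := h
  rw [Prod.mk_eq_zero]
  exact ⟨hN'.zinj _ h1, hN'.winj _ h2⟩

/-- `H¹ = 0` -/
theorem coh1 (hR : Rels a b z c d w) (hN : Nice (fun g m => ρ g m) a b z c d w)
    (g) (h : cb1 ρ a b z c d w g = 0) : ∃ f, cb0 ρ a b z c d w f = g := by
  have hN' := hN.inv hR
  obtain ⟨ga, gb, gz, gc, gd, gw, ge⟩ := g
  simp only [cb1, AddMonoidHom.mk'_apply, Prod.mk_eq_zero] at h
  obtain ⟨h1, h2, h3, h4, h5, h6⟩ := h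
  obtain ⟨f1, -, hf1, -⟩ := hN'.free1 gz 0 ga (by
    simp only [map_zero, sub_zero, add_zero]
    rw [neg_add_eq_zero] at h1; exact h1.symm)
  obtain ⟨f2, -, hf2, -⟩ := hN'.free2 gw 0 gc (by
    simp only [map_zero, sub_zero, add_zero]
    rw [neg_add_eq_zero] at h3; exact h3.symm)
  subst hf1 hf2
  have ea : ga = ρ a⁻¹ f1 - f1 := by
    rw [← sub_eq_zero]; apply hN'.zinj
    have := act_comm (ρ := ρ) hR.za.inv_inv f1
    rw [neg_add_eq_zero] at h1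
    simp only [map_sub] at h1 ⊢
    rw [this]
    have h1' : ρ z⁻¹ ga = ga + (ρ a⁻¹ (ρ z⁻¹ f1) - ρ a⁻¹ f1 - (ρ z⁻¹ f1 - f1)) := by
      rw [← h1]; abel
    rw [h1']; abel
  have eb : gb = ρ b⁻¹ f1 - f1 := by
    rw [← sub_eq_zero]; apply hN'.zinj
    have := act_comm (ρ := ρ) hR.zb.inv_inv f1
    rw [neg_add_eq_zero] at h2
    simp only [map_sub] at h2 ⊢
    rw [this]
    have h2' : ρ z⁻¹ gb = gb + (ρ b⁻¹ (ρ z⁻¹ f1) - ρ b⁻¹ f1 - (ρ z⁻¹ f1 - f1)) := by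
      rw [← h2]; abel
    rw [h2']; abel
  have ec : gc = ρ c⁻¹ f2 - f2 := by
    rw [← sub_eq_zero]; apply hN'.winj
    have := act_comm (ρ := ρ) hR.wc.inv_inv f2
    rw [neg_add_eq_zero] at h3
    simp only [map_sub] at h3 ⊢
    rw [this]
    have h3' : ρ w⁻¹ gc = gc + (ρ c⁻¹ (ρ w⁻¹ f2) - ρ c⁻¹ f2 - (ρ w⁻¹ f2 - f2)) := by
      rw [← h3]; abel
    rw [h3']; abel
  have ed : gd = ρ d⁻¹ f2 - f2 := by
    rw [← sub_eq_zero]; apply hN'.winj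
    have := act_comm (ρ := ρ) hR.wd.inv_inv f2
    rw [neg_add_eq_zero] at h4
    simp only [map_sub] at h4 ⊢
    rw [this]
    have h4' : ρ w⁻¹ gd = gd + (ρ d⁻¹ (ρ w⁻¹ f2) - ρ d⁻¹ f2 - (ρ w⁻¹ f2 - f2)) := by
      rw [← h4]; abel
    rw [h4']; abel
  subst ea eb ec ed
  have ee : ge = -f1 - f2 := by
    rw [← sub_eq_zero]; apply hN'.zinj
    have e2 := fox'' ρ hR.hz f2
    have h5' : (ρ z⁻¹ f1 - f1) + (ρ z⁻¹ f2 - f2) + (ρ z⁻¹ ge - ge) = 0 := by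
      rw [← e2, ← h5]; abel
    simp only [map_sub, map_neg]
    rw [← h5']; abel
  subst ee
  exact ⟨(f1, f2), rfl⟩

theorem side_cob (hz' : ∀ x y u : M, (ρ a⁻¹ x - x) + (ρ b⁻¹ y - y) = ρ z⁻¹ u - u →
      ∃ x' y', x = ρ z⁻¹ x' - x' ∧ y = ρ z⁻¹ y' - y')
    (za : Commute z a) (zb : Commute z b) (hw : w = a * b * a⁻¹ * b⁻¹ * z * z)
    (ha hb u v : M) (h : Va ρ a b z ha + Vb ρ a b z hb = (ρ z⁻¹ u - u) + (ρ w⁻¹ v - v)) :
    ∃ ga gb gz, ha = -(ρ z⁻¹ ga - ga) + (ρ a⁻¹ gz - gz) ∧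
      hb = -(ρ z⁻¹ gb - gb) + (ρ b⁻¹ gz - gz) := by
  have e := fox'' ρ hw v
  have cz := comm_Vz (z := z) ρ v
  -- replace `ha, hb` by `ha - (a⁻¹-1) v`, `hb - (b⁻¹-1) v`
  have h1 : Va ρ a b z (ha - (ρ a⁻¹ v - v)) + Vb ρ a b z (hb - (ρ b⁻¹ v - v))
      = ρ z⁻¹ (u + Vz ρ z v) - (u + Vz ρ z v) := by
    have : ρ z⁻¹ (u + Vz ρ z v) - (u + Vz ρ z v)
        = (ρ z⁻¹ u - u) + Vz ρ z (ρ z⁻¹ v - v) := by rw [← cz, map_add]; abel
    rw [this]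
    rw [map_sub (Va ρ a b z) ha, map_sub (Vb ρ a b z) hb]
    have h' : Va ρ a b z ha + Vb ρ a b z hb
        = (ρ z⁻¹ u - u) + (Va ρ a b z (ρ a⁻¹ v - v) + Vb ρ a b z (ρ b⁻¹ v - v)
          + Vz ρ z (ρ z⁻¹ v - v)) := by rw [e]; exact h
    calc _ = Va ρ a b z ha + Vb ρ a b z hb - (Va ρ a b z (ρ a⁻¹ v - v)
          + Vb ρ a b z (ρ b⁻¹ v - v)) := by abel
      _ = _ := by rw [h']; abel
  generalize hha : ha - (ρ a⁻¹ v - v) = x at h1
  generalize hhb : hb - (ρ b⁻¹ v - v) = y at h1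
  generalize u + Vz ρ z v = t at h1
  -- multiply by `a⁻¹ b⁻¹ z z`
  have h2 := congrArg (ρ (a⁻¹ * b⁻¹ * z * z)) h1
  have k1 : (a⁻¹ * b⁻¹ * z * z) * (b * a⁻¹ * b⁻¹ * z * z)⁻¹ = b⁻¹ := by
    have : (a⁻¹ * b⁻¹ * z * z) * (b * a⁻¹ * b⁻¹ * z * z)⁻¹ = b⁻¹ := by group
    exact this
  have k2 : (a⁻¹ * b⁻¹ * z * z) * (b⁻¹ * z * z)⁻¹ = a⁻¹ := by group
  have k3 : Commute (a⁻¹ * b⁻¹ * z * z) z⁻¹ :=
    (((za.inv_right.mul_right zb.inv_right).mul_right (Commute.refl z)).mul_right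
      (Commute.refl z)).symm.inv_right
  simp only [Va, Vb, LinearMap.sub_apply (ρ _) (ρ _), map_add, map_sub,
    ← Module.End.mul_apply (ρ _) (ρ _), ← map_mul, k1, k2, mul_inv_cancel, map_one,
    Module.End.one_apply, k3.eq] at h2
  obtain ⟨x', y', hx', hy'⟩ := hz' (-y) x (ρ (a⁻¹ * b⁻¹ * z * z) t) (by
    rw [← Module.End.mul_apply, ← map_mul, ← h2, map_neg]; abel)
  refine ⟨-y', x', v, ?_, ?_⟩
  · rw [← sub_eq_iff_eq_add, hha, hy', map_neg]; abel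
  · rw [← sub_eq_iff_eq_add, hhb, ← hx', neg_neg]

/-- `Va x` and `Vb x` lie in the augmentation part of the side group. -/
theorem Va_mem (za : Commute z a) (zb : Commute z b) (x : M) :
    ∃ x1 x2, Va ρ a b z x = (ρ a⁻¹ x1 - x1) + (ρ b⁻¹ x2 - x2) := by
  obtain ⟨q, hq⟩ : ∃ q, q = z⁻¹ * z⁻¹ := ⟨_, rfl⟩
  have ka : Commute a q := by rw [hq]; exact (za.inv_left.mul_left za.inv_left).symm
  have kb : Commute b q := by rw [hq]; exact (zb.inv_left.mul_left zb.inv_left).symm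
  have ka' : ∀ x, a * (q * x) = q * (a * x) := fun x => by rw [← mul_assoc, ka.eq, mul_assoc]
  have kb' : ∀ x, b * (q * x) = q * (b * x) := fun x => by rw [← mul_assoc, kb.eq, mul_assoc]
  have kb2' : ∀ x, b⁻¹ * (q * x) = q * (b⁻¹ * x) := fun x => by
    rw [← mul_assoc, kb.inv_left.eq, mul_assoc]
  refine ⟨-(ρ (a * (q * b⁻¹)) x - ρ (a * q) x),
    -(ρ (b * (q * (a * b⁻¹))) x - ρ (b * (q * a)) x) + ρ q x, ?_⟩
  have w1 : (b * a⁻¹ * b⁻¹ * z * z)⁻¹ = q * (b * (a * b⁻¹)) := by rw [hq]; group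
  have w2 : (a⁻¹ * b⁻¹ * z * z)⁻¹ = q * (b * a) := by rw [hq]; group
  have ka2' : ∀ x, a⁻¹ * (q * x) = q * (a⁻¹ * x) := fun x => by
    rw [← mul_assoc, ka.inv_left.eq, mul_assoc]
  simp only [Va, w1, w2]
  simp only [LinearMap.sub_apply, map_add, map_sub, map_neg,
    ← Module.End.mul_apply (ρ _) (ρ _), ← map_mul, inv_mul_cancel_left, ka', kb',
    ka.eq, kb.inv_left.eq, kb2', ka2', inv_mul_cancel, mul_one]
  abel

theorem Vb_mem (za : Commute z a) (zb : Commute z b) (x : M) :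
    ∃ x1 x2, Vb ρ a b z x = (ρ a⁻¹ x1 - x1) + (ρ b⁻¹ x2 - x2) := by
  obtain ⟨q, hq⟩ : ∃ q, q = z⁻¹ * z⁻¹ := ⟨_, rfl⟩
  have ka : Commute a q := by rw [hq]; exact (za.inv_left.mul_left za.inv_left).symm
  have kb : Commute b q := by rw [hq]; exact (zb.inv_left.mul_left zb.inv_left).symm
  have ka' : ∀ x, a * (q * x) = q * (a * x) := fun x => by rw [← mul_assoc, ka.eq, mul_assoc]
  have kb' : ∀ x, b * (q * x) = q * (b * x) := fun x => by rw [← mul_assoc, kb.eq, mul_assoc]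
  refine ⟨-(ρ (a * q) x), -(ρ (b * (q * a)) x - ρ (b * q) x), ?_⟩
  have w1 : (b⁻¹ * z * z)⁻¹ = q * b := by rw [hq]; group
  have w2 : (a⁻¹ * b⁻¹ * z * z)⁻¹ = q * (b * a) := by rw [hq]; group
  have kb2' : ∀ x, b⁻¹ * (q * x) = q * (b⁻¹ * x) := fun x => by
    rw [← mul_assoc, kb.inv_left.eq, mul_assoc]
  have ka2' : ∀ x, a⁻¹ * (q * x) = q * (a⁻¹ * x) := fun x => by
    rw [← mul_assoc, ka.inv_left.eq, mul_assoc]
  simp only [Vb, w1, w2, LinearMap.sub_apply, map_sub, map_neg,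
    ← Module.End.mul_apply (ρ _) (ρ _), ← map_mul, inv_mul_cancel_left, kb',
    kb.eq, ka.eq, kb2', ka2', inv_mul_cancel, mul_one]
  abel

/-- `H² = 0` -/
theorem coh2 (hR : Rels a b z c d w) (hN : Nice (fun g m => ρ g m) a b z c d w)
    (h) (hh : cb2 ρ a b z c d w h = 0) : ∃ g, cb1 ρ a b z c d w g = h := by
  have hN' := hN.inv hR
  have key : ∀ x y : M, cb2 ρ a b z c d w (0, 0, 0, 0, x, y) = 0 →
      ∃ g, cb1 ρ a b z c d w g = (0, 0, 0, 0, x, y) := by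
    intro x y h
    simp only [cb2, AddMonoidHom.mk'_apply, map_zero, add_zero, sub_zero, zero_sub] at h
    rw [neg_add_eq_zero] at h
    obtain ⟨u, h1, h2⟩ := hN'.kos y x h.symm
    refine ⟨(0, 0, 0, 0, 0, 0, u), ?_⟩
    simp only [cb1, AddMonoidHom.mk'_apply, map_zero, add_zero, sub_zero, neg_zero, zero_add]
    rw [← h1, ← h2]
  obtain ⟨ha, hb, hc, hd, x, y⟩ := h
  have hh' := hh
  simp only [cb2, AddMonoidHom.mk'_apply] at hh'
  obtain ⟨s1, s2, es⟩ := Va_mem (ρ := ρ) hR.za hR.zb ha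
  obtain ⟨t1, t2, et⟩ := Vb_mem (ρ := ρ) hR.za hR.zb hb
  obtain ⟨p1, p2, ep⟩ := Va_mem (ρ := ρ) hR.wc hR.wd hc
  obtain ⟨q1, q2, eq⟩ := Vb_mem (ρ := ρ) hR.wc hR.wd hd
  obtain ⟨u, v, huv⟩ := hN'.tree (s1 + t1) (s2 + t2) y (p1 + q1) (p2 + q2) x (by
    simp only [map_add]
    rw [es, et, ep, eq] at hh'
    rw [← sub_eq_zero, ← hh']; abel)
  have huv' : Va ρ a b z ha + Vb ρ a b z hb = (ρ z⁻¹ (u - y) - (u - y)) + (ρ w⁻¹ v - v) := by
    simp only [map_add] at huv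
    rw [es, et, map_sub]
    have := sub_eq_zero.2 huv
    rw [← sub_eq_zero, ← this]; abel
  have huv2 : Va ρ c d w hc + Vb ρ c d w hd
      = (ρ w⁻¹ (v - x) - (v - x)) + (ρ z⁻¹ u - u) := by
    have h3 : Va ρ c d w hc + Vb ρ c d w hd = Va ρ a b z ha + Vb ρ a b z hb
        - (ρ w⁻¹ x - x) + (ρ z⁻¹ y - y) := by
      rw [← sub_eq_zero, ← neg_eq_zero, ← hh']; abel
    rw [h3, huv']
    simp only [map_sub]; abel
  obtain ⟨ga, gb, gz, h1, h2⟩ := side_cob hN'.free1 hR.za hR.zb hR.hw ha hb _ _ huv'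
  obtain ⟨gc, gd, gw, h3, h4⟩ := side_cob hN'.free2 hR.wc hR.wd hR.hz hc hd _ _ huv2
  have h0 : cb2 ρ a b z c d w ((ha, hb, hc, hd, x, y)
      - cb1 ρ a b z c d w (ga, gb, gz, gc, gd, gw, 0)) = 0 := by
    rw [map_sub, hh, cb2_cb1 ρ hR, sub_zero]
  have e : (ha, hb, hc, hd, x, y) - cb1 ρ a b z c d w (ga, gb, gz, gc, gd, gw, 0)
      = (0, 0, 0, 0, x - (gz + Va ρ c d w gc + Vb ρ c d w gd + Vz ρ w gw),
        y - (gw + Va ρ a b z ga + Vb ρ a b z gb + Vz ρ z gz)) := by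
    simp only [cb1, AddMonoidHom.mk'_apply, Prod.mk_sub_mk, ← h1, ← h2, ← h3, ← h4, sub_self,
      map_zero, add_zero]
  rw [e] at h0
  obtain ⟨g', hg'⟩ := key _ _ h0
  rw [← e] at hg'
  exact ⟨g' + (ga, gb, gz, gc, gd, gw, 0), by rw [map_add, hg']; abel⟩

/-- cokernel in degree 3 -/
theorem coh3 (hR : Rels a b z c d w) (x : M) :
    (∃ h, cb2 ρ a b z c d w h = ρ a x - x) ∧ (∃ h, cb2 ρ a b z c d w h = ρ b x - x) ∧
    (∃ h, cb2 ρ a b z c d w h = ρ z x - x) ∧ (∃ h, cb2 ρ a b z c d w h = ρ c x - x) ∧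
    (∃ h, cb2 ρ a b z c d w h = ρ d x - x) ∧ (∃ h, cb2 ρ a b z c d w h = ρ w x - x) := by
  -- the image as a subgroup
  have hz : ∀ x, ρ z x - x ∈ (cb2 ρ a b z c d w).range := fun x =>
    ⟨(0, 0, 0, 0, 0, -(ρ z x)), by
      simp only [cb2, AddMonoidHom.mk'_apply, map_zero, add_zero, sub_zero, zero_add]
      rw [← sub_inv]⟩
  have hw : ∀ x, ρ w x - x ∈ (cb2 ρ a b z c d w).range := fun x =>
    ⟨(0, 0, 0, 0, ρ w x, 0), by
      simp only [cb2, AddMonoidHom.mk'_apply, map_zero, add_zero, sub_zero, zero_sub,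
        act_inv_act]
      abel⟩
  have hzi : ∀ x, ρ z⁻¹ x - x ∈ (cb2 ρ a b z c d w).range := fun x => by
    rw [inv_sub]; exact neg_mem (hz _)
  have hwi : ∀ x, ρ w⁻¹ x - x ∈ (cb2 ρ a b z c d w).range := fun x => by
    rw [inv_sub]; exact neg_mem (hw _)
  have hVa : ∀ x, Va ρ a b z x ∈ (cb2 ρ a b z c d w).range := fun x =>
    ⟨(x, 0, 0, 0, 0, 0), by
      simp only [cb2, AddMonoidHom.mk'_apply, map_zero, add_zero, sub_zero]⟩
  have hVb : ∀ x, Vb ρ a b z x ∈ (cb2 ρ a b z c d w).range := fun x =>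
    ⟨(0, x, 0, 0, 0, 0), by
      simp only [cb2, AddMonoidHom.mk'_apply, map_zero, add_zero, sub_zero, zero_add]⟩
  have hVc : ∀ x, Va ρ c d w x ∈ (cb2 ρ a b z c d w).range := fun x =>
    ⟨(0, 0, -x, 0, 0, 0), by
      simp only [cb2, AddMonoidHom.mk'_apply, map_zero, add_zero, sub_zero, zero_sub, map_neg,
        neg_neg]⟩
  have hVd : ∀ x, Vb ρ c d w x ∈ (cb2 ρ a b z c d w).range := fun x =>
    ⟨(0, 0, 0, -x, 0, 0), by
      simp only [cb2, AddMonoidHom.mk'_apply, map_zero, add_zero, sub_zero, zero_sub, map_neg,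
        neg_neg]⟩
  have side : ∀ (a b z w : G) (za : Commute z a) (zb : Commute z b)
      (hw' : w = a * b * a⁻¹ * b⁻¹ * z * z) (I : AddSubgroup M)
      (_ : ∀ x, ρ z⁻¹ x - x ∈ I) (_ : ∀ x, ρ w⁻¹ x - x ∈ I) (_ : ∀ x, Va ρ a b z x ∈ I)
      (_ : ∀ x, Vb ρ a b z x ∈ I), ∀ x, ρ a x - x ∈ I ∧ ρ b x - x ∈ I := by
    intro a b z w za zb hw' I hz hw hVa hVb x
    have hzz : ∀ x, ρ (z⁻¹ * z⁻¹) x - x ∈ I := fun x => by
      have : ρ (z⁻¹ * z⁻¹) x - x = (ρ z⁻¹ (ρ z⁻¹ x) - ρ z⁻¹ x) + (ρ z⁻¹ x - x) := by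
        rw [map_mul, Module.End.mul_apply]; abel
      rw [this]; exact add_mem (hz _) (hz _)
    have hb : ∀ x, ρ b x - x ∈ I := by
      intro y
      have e : ρ b y - y = -Va ρ a b z (ρ a⁻¹ y) + (ρ w⁻¹ y - y)
          - (ρ (z⁻¹ * z⁻¹) (ρ b y) - ρ b y) := by
        have w1 : (b * a⁻¹ * b⁻¹ * z * z)⁻¹ * a⁻¹ = w⁻¹ := by rw [hw']; group
        have w2 : (a⁻¹ * b⁻¹ * z * z)⁻¹ * a⁻¹ = z⁻¹ * z⁻¹ * b := by group
        simp only [Va, LinearMap.sub_apply, ← Module.End.mul_apply (ρ _) (ρ _), ← map_mul, w1,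
          w2]
        abel
      rw [e]
      exact sub_mem (add_mem (neg_mem (hVa _)) (hw _)) (hzz _)
    refine ⟨?_, hb x⟩
    have e : ρ a x - x = Vb ρ a b z x - (ρ b (ρ a x - x) - (ρ a x - x))
        - (ρ (z⁻¹ * z⁻¹) (ρ b (ρ a x - x)) - ρ b (ρ a x - x)) := by
      have w1 : (b⁻¹ * z * z)⁻¹ = z⁻¹ * z⁻¹ * b := by group
      have w2 : (a⁻¹ * b⁻¹ * z * z)⁻¹ = z⁻¹ * z⁻¹ * b * a := by group
      simp only [Vb, w1, w2, LinearMap.sub_apply, map_sub, map_mul, Module.End.mul_apply]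
      abel
    rw [e]
    exact sub_mem (sub_mem (hVb _) (hb _)) (hzz _)
  have r1 := side a b z w hR.za hR.zb hR.hw _ hzi hwi hVa hVb x
  have r2 := side c d w z hR.wc hR.wd hR.hz _ hwi hzi hVc hVd x
  exact ⟨r1.1, r1.2, hz x, r2.1, r2.2, hw x⟩

end CohExact

end Pool.Agent.Helper158
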