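import Pool.Agent.Helper158.Res

namespace Pool.Agent.Helper158

open Finsupp

theorem swap_mul (g : GM) (x y : RG) : ρR g x * y = x * ρL g⁻¹ y := by
  rw [ρR_apply, ρL_apply, mul_assoc]

theorem swap_sub (g : GM) (x y : RG) : (ρR g x - x) * y = x * (ρL g⁻¹ y - y) := by
  rw [sub_mul, swap_mul, mul_sub]

theorem swap_Wa (a b z : GM) (x y : RG) : Wa ρR a b z x * y = x * Va ρL a b z y := by
  simp only [Wa, Va, LinearMap.sub_apply, sub_mul, mul_sub, swap_mul]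

theorem swap_Wb (a b z : GM) (x y : RG) : Wb ρR a b z x * y = x * Vb ρL a b z y := by
  simp only [Wb, Vb, LinearMap.sub_apply, sub_mul, mul_sub, swap_mul]

theorem swap_Wz (z : GM) (x y : RG) : Wz ρR z x * y = x * Vz ρL z y := by
  simp only [Wz, Vz, LinearMap.add_apply, Module.End.one_apply, add_mul, mul_add, swap_mul]

/-- linear map with given coefficients -/
noncomputable def F0 (f : RG × RG) : (RG × RG) →ₗ[RG] RG where
  toFun x := x.1 * f.1 + x.2 * f.2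
  map_add' x y := by
    simp only [Prod.fst_add, Prod.snd_add, add_mul]
    abel
  map_smul' r x := by
    simp only [Prod.smul_fst, Prod.smul_snd, smul_eq_mul, RingHom.id_apply, mul_add, mul_assoc]

theorem F0_surj (φ : (RG × RG) →ₗ[RG] RG) : ∃ f, F0 f = φ := by
  refine ⟨(φ (1, 0), φ (0, 1)), ?_⟩
  ext <;> simp [F0]

/-- linear map with given coefficients -/
noncomputable def F1 (f : RG × RG × RG × RG × RG × RG × RG) :
    (RG × RG × RG × RG × RG × RG × RG) →ₗ[RG] RG where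
  toFun x := x.1 * f.1 + x.2.1 * f.2.1 + x.2.2.1 * f.2.2.1 + x.2.2.2.1 * f.2.2.2.1 +
    x.2.2.2.2.1 * f.2.2.2.2.1 + x.2.2.2.2.2.1 * f.2.2.2.2.2.1 + x.2.2.2.2.2.2 * f.2.2.2.2.2.2
  map_add' x y := by
    simp only [Prod.fst_add, Prod.snd_add, add_mul]
    abel
  map_smul' r x := by
    simp only [Prod.smul_fst, Prod.smul_snd, smul_eq_mul, RingHom.id_apply, mul_add, mul_assoc]

theorem F1_surj (φ : (RG × RG × RG × RG × RG × RG × RG) →ₗ[RG] RG) : ∃ f, F1 f = φ := by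
  refine ⟨(φ (1, 0, 0, 0, 0, 0, 0), φ (0, 1, 0, 0, 0, 0, 0), φ (0, 0, 1, 0, 0, 0, 0),
    φ (0, 0, 0, 1, 0, 0, 0), φ (0, 0, 0, 0, 1, 0, 0), φ (0, 0, 0, 0, 0, 1, 0),
    φ (0, 0, 0, 0, 0, 0, 1)), ?_⟩
  ext <;> simp [F1] <;> rfl

/-- linear map with given coefficients -/
noncomputable def F2 (f : RG × RG × RG × RG × RG × RG) :
    (RG × RG × RG × RG × RG × RG) →ₗ[RG] RG where
  toFun x := x.1 * f.1 + x.2.1 * f.2.1 + x.2.2.1 * f.2.2.1 + x.2.2.2.1 * f.2.2.2.1 +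
    x.2.2.2.2.1 * f.2.2.2.2.1 + x.2.2.2.2.2 * f.2.2.2.2.2
  map_add' x y := by
    simp only [Prod.fst_add, Prod.snd_add, add_mul]
    abel
  map_smul' r x := by
    simp only [Prod.smul_fst, Prod.smul_snd, smul_eq_mul, RingHom.id_apply, mul_add, mul_assoc]

theorem F2_surj (φ : (RG × RG × RG × RG × RG × RG) →ₗ[RG] RG) : ∃ f, F2 f = φ := by
  refine ⟨(φ (1, 0, 0, 0, 0, 0), φ (0, 1, 0, 0, 0, 0), φ (0, 0, 1, 0, 0, 0),
    φ (0, 0, 0, 1, 0, 0), φ (0, 0, 0, 0, 1, 0), φ (0, 0, 0, 0, 0, 1)), ?_⟩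
  ext <;> simp [F2] <;> rfl

theorem F0_bd1 (f) : F0 f ∘ₗ bd1 ρR gA gB gZ gC gD gW = F1 (cb0 ρL gA gB gZ gC gD gW f) := by
  refine LinearMap.ext fun p => ?_
  obtain ⟨f1, f2⟩ := f
  obtain ⟨pa, pb, pz, pc, pd, pw, pe⟩ := p
  change ((ρR gA - 1) pa + (ρR gB - 1) pb + (ρR gZ - 1) pz - pe) * f1 +
    ((ρR gC - 1) pc + (ρR gD - 1) pd + (ρR gW - 1) pw - pe) * f2 =
    pa * (ρL gA⁻¹ f1 - f1) + pb * (ρL gB⁻¹ f1 - f1) + pz * (ρL gZ⁻¹ f1 - f1) +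
    pc * (ρL gC⁻¹ f2 - f2) + pd * (ρL gD⁻¹ f2 - f2) + pw * (ρL gW⁻¹ f2 - f2) + pe * (-f1 - f2)
  rw [sub_one_apply, sub_one_apply, sub_one_apply, sub_one_apply, sub_one_apply, sub_one_apply,
    ← swap_sub, ← swap_sub, ← swap_sub, ← swap_sub, ← swap_sub, ← swap_sub]
  rw [sub_mul, add_mul, add_mul, sub_mul _ pe, add_mul, add_mul, mul_sub, mul_neg]
  abel

theorem neg_sub_one (g : GM) (x : RG) : (-(ρR g - 1)) x = -(ρR g x - x) := by
  rw [LinearMap.neg_apply, sub_one_apply]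

theorem F1_bd2 (f) : F1 f ∘ₗ bd2 ρR gA gB gZ gC gD gW = F2 (cb1 ρL gA gB gZ gC gD gW f) := by
  refine LinearMap.ext fun u => ?_
  obtain ⟨ga, gb, gz, gc, gd, gw, ge⟩ := f
  obtain ⟨ua, ub, uc, ud, al, be⟩ := u
  change (-(ρR gZ - 1) ua + Wa ρR gA gB gZ be) * ga + (-(ρR gZ - 1) ub + Wb ρR gA gB gZ be) * gb +
    ((ρR gA - 1) ua + (ρR gB - 1) ub + al + Wz ρR gZ be) * gz +
    (-(ρR gW - 1) uc + Wa ρR gC gD gW al) * gc + (-(ρR gW - 1) ud + Wb ρR gC gD gW al) * gd +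
    ((ρR gC - 1) uc + (ρR gD - 1) ud + be + Wz ρR gW al) * gw +
    ((ρR gZ - 1) al + (ρR gW - 1) be) * ge =
    ua * (-(ρL gZ⁻¹ ga - ga) + (ρL gA⁻¹ gz - gz)) +
    ub * (-(ρL gZ⁻¹ gb - gb) + (ρL gB⁻¹ gz - gz)) +
    uc * (-(ρL gW⁻¹ gc - gc) + (ρL gC⁻¹ gw - gw)) +
    ud * (-(ρL gW⁻¹ gd - gd) + (ρL gD⁻¹ gw - gw)) +
    al * (gz + Va ρL gC gD gW gc + Vb ρL gC gD gW gd + Vz ρL gW gw + (ρL gZ⁻¹ ge - ge)) +
    be * (gw + Va ρL gA gB gZ ga + Vb ρL gA gB gZ gb + Vz ρL gZ gz + (ρL gW⁻¹ ge - ge))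
  rw [sub_one_apply, sub_one_apply, sub_one_apply, sub_one_apply, sub_one_apply, sub_one_apply,
    sub_one_apply, sub_one_apply, sub_one_apply, sub_one_apply]
  simp only [mul_add, mul_neg, ← swap_sub, ← swap_Wa, ← swap_Wb, ← swap_Wz]
  simp only [add_mul, neg_mul]
  abel

theorem F2_bd3 (f) : F2 f ∘ₗ bd3 ρR gA gB gZ gC gD gW =
    LinearMap.toSpanSingleton RG RG (cb2 ρL gA gB gZ gC gD gW f) := by
  refine LinearMap.ext fun u => ?_
  obtain ⟨ga, gb, gc, gd, gal, gbe⟩ := f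
  change (Wa ρR gA gB gZ u) * ga + (Wb ρR gA gB gZ u) * gb + (-Wa ρR gC gD gW u) * gc +
    (-Wb ρR gC gD gW u) * gd + (-(ρR gW - 1) u) * gal + ((ρR gZ - 1) u) * gbe =
    u * (Va ρL gA gB gZ ga + Vb ρL gA gB gZ gb - Va ρL gC gD gW gc - Vb ρL gC gD gW gd
    - (ρL gW⁻¹ gal - gal) + (ρL gZ⁻¹ gbe - gbe))
  rw [sub_one_apply, sub_one_apply, mul_add, mul_sub _ _ (ρL gW⁻¹ gal - gal),
    mul_sub _ _ (Vb ρL gC gD gW gd), mul_sub _ _ (Va ρL gC gD gW gc), mul_add,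
    ← swap_sub, ← swap_sub, ← swap_Wa, ← swap_Wb, ← swap_Wa, ← swap_Wb, neg_mul, neg_mul, neg_mul]
  abel

theorem F1_inj {f} (h : F1 f = 0) : f = 0 := by
  have h' : ∀ x, F1 f x = 0 := fun x => by rw [h]; rfl
  have h1 := h' (1, 0, 0, 0, 0, 0, 0)
  have h2 := h' (0, 1, 0, 0, 0, 0, 0)
  have h3 := h' (0, 0, 1, 0, 0, 0, 0)
  have h4 := h' (0, 0, 0, 1, 0, 0, 0)
  have h5 := h' (0, 0, 0, 0, 1, 0, 0)
  have h6 := h' (0, 0, 0, 0, 0, 1, 0)
  have h7 := h' (0, 0, 0, 0, 0, 0, 1)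
  simp only [F1, LinearMap.coe_mk, AddHom.coe_mk, one_mul, zero_mul, add_zero, zero_add]
    at h1 h2 h3 h4 h5 h6 h7
  obtain ⟨f1, f2, f3, f4, f5, f6, f7⟩ := f
  simp only at h1 h2 h3 h4 h5 h6 h7
  subst h1 h2 h3 h4 h5 h6 h7
  rfl

theorem F2_inj {f} (h : F2 f = 0) : f = 0 := by
  have h' : ∀ x, F2 f x = 0 := fun x => by rw [h]; rfl
  have h1 := h' (1, 0, 0, 0, 0, 0)
  have h2 := h' (0, 1, 0, 0, 0, 0)
  have h3 := h' (0, 0, 1, 0, 0, 0)
  have h4 := h' (0, 0, 0, 1, 0, 0)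
  have h5 := h' (0, 0, 0, 0, 1, 0)
  have h6 := h' (0, 0, 0, 0, 0, 1)
  simp only [F2, LinearMap.coe_mk, AddHom.coe_mk, one_mul, zero_mul, add_zero, zero_add]
    at h1 h2 h3 h4 h5 h6
  obtain ⟨f1, f2, f3, f4, f5, f6⟩ := f
  simp only at h1 h2 h3 h4 h5 h6
  subst h1 h2 h3 h4 h5 h6
  rfl

theorem span_inj {x : RG} (h : LinearMap.toSpanSingleton RG RG x = 0) : x = 0 := by
  have := LinearMap.congr_fun h 1
  simpa using this

theorem cob_zero (n : ℕ) : IsCob dT n 0 := by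
  cases n with
  | zero => rfl
  | succ n => exact ⟨0, LinearMap.zero_comp _⟩

theorem cocyc_cob (n : ℕ) (hn : n ≠ 3) (f : PT n →ₗ[RG] RG) (hf : f ∈ cocyc dT n) :
    IsCob dT n f := by
  rw [mem_cocyc] at hf
  match n, f with
  | 0, f =>
    obtain ⟨f', rfl⟩ := F0_surj f
    have h1 : F0 f' ∘ₗ bd1 ρR gA gB gZ gC gD gW = 0 := hf
    rw [F0_bd1] at h1
    have h2 := coh0 (ρ := ρL) rels nice_L f' (F1_inj h1)
    subst h2
    change F0 0 = 0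
    refine LinearMap.ext fun x => ?_
    simp [F0]
  | 1, f =>
    obtain ⟨f', rfl⟩ := F1_surj f
    have h1 : F1 f' ∘ₗ bd2 ρR gA gB gZ gC gD gW = 0 := hf
    rw [F1_bd2] at h1
    obtain ⟨g, hg⟩ := coh1 (ρ := ρL) rels nice_L f' (F2_inj h1)
    exact ⟨F0 g, by rw [← hg]; exact F0_bd1 g⟩
  | 2, f =>
    obtain ⟨f', rfl⟩ := F2_surj f
    have h1 : F2 f' ∘ₗ bd3 ρR gA gB gZ gC gD gW = 0 := hf
    rw [F2_bd3] at h1
    obtain ⟨g, hg⟩ := coh2 (ρ := ρL) rels nice_L f' (span_inj h1)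
    exact ⟨F1 g, by rw [← hg]; exact F1_bd2 g⟩
  | 3, f => exact absurd rfl hn
  | (n + 4), f =>
    have : f = 0 := by
      refine LinearMap.ext fun x => ?_
      have hx : x = 0 := Subsingleton.elim (α := PUnit) _ _
      rw [hx, map_zero, map_zero]
    rw [this]
    exact cob_zero _

theorem coh_vanish (n : ℕ) (hn : n ≠ 3) :
    Subsingleton (groupCohomology (Rep.leftRegular ℤ GM) n) := by
  obtain ⟨π, h1, h2⟩ := reso_T.coh n
  refine subsingleton_of_forall_eq 0 fun y => ?_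
  obtain ⟨x, rfl⟩ := h1 y
  rw [h2]
  exact cocyc_cob n hn x.1 x.2

theorem aug_cb2 (h) : aug (cb2 ρL gA gB gZ gC gD gW h) = 0 := by
  obtain ⟨ga, gb, gc, gd, gal, gbe⟩ := h
  change aug (Va ρL gA gB gZ ga + Vb ρL gA gB gZ gb - Va ρL gC gD gW gc - Vb ρL gC gD gW gd
    - (ρL gW⁻¹ gal - gal) + (ρL gZ⁻¹ gbe - gbe)) = 0
  simp only [map_add, map_sub, Va, Vb, LinearMap.sub_apply, aug_ρL]
  ring

theorem mem_cb2 (x : RG) (hx : aug x = 0) : ∃ h, cb2 ρL gA gB gZ gC gD gW h = x := by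
  have h := aug_L x hx (cb2 ρL gA gB gZ gC gD gW).range (fun m => coh3 rels m)
  exact h

/-- Two surjective homomorphisms with the same kernel have isomorphic targets. -/
theorem equiv_of_ker {A B C : Type*} [AddCommGroup A] [AddCommGroup B] [AddCommGroup C]
    (f : A →+ B) (g : A →+ C) (hf : Function.Surjective f) (hg : Function.Surjective g)
    (h : ∀ x, f x = 0 ↔ g x = 0) : Nonempty (B ≃+ C) := by
  have hk : f.ker = g.ker := by
    ext x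
    exact h x
  exact ⟨(QuotientAddGroup.quotientKerEquivOfSurjective f hf).symm.trans
    ((QuotientAddGroup.quotientAddEquivOfEq hk).trans
      (QuotientAddGroup.quotientKerEquivOfSurjective g hg))⟩

/-- evaluation of a top cochain -/
noncomputable def evT0 : (RG →ₗ[RG] RG) →+ ℤ :=
  AddMonoidHom.mk' (fun f => aug (f 1)) (by
    intro f g
    rw [LinearMap.add_apply, map_add])

theorem evT0_surj (n : ℤ) : evT0 (LinearMap.toSpanSingleton RG RG (n : RG)) = n := by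
  change aug (LinearMap.toSpanSingleton RG RG (n : RG) 1) = n
  simp

theorem top_aux (f : RG →ₗ[RG] RG) :
    (∃ g : (RG × RG × RG × RG × RG × RG) →ₗ[RG] RG, g ∘ₗ bd3 ρR gA gB gZ gC gD gW = f) ↔
      evT0 f = 0 := by
  change _ ↔ aug (f 1) = 0
  constructor
  · rintro ⟨g, rfl⟩
    obtain ⟨g', rfl⟩ := F2_surj g
    rw [F2_bd3, LinearMap.toSpanSingleton_apply, one_smul]
    exact aug_cb2 g'
  · intro h
    obtain ⟨g, hg⟩ := mem_cb2 _ h
    refine ⟨F2 g, ?_⟩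
    rw [F2_bd3, hg]
    refine LinearMap.ext_ring ?_
    rw [LinearMap.toSpanSingleton_apply, one_smul]

/-- evaluation of a top cochain -/
noncomputable def evT : (PT 3 →ₗ[RG] RG) →+ ℤ := evT0

theorem coh_three : Nonempty (groupCohomology (Rep.leftRegular ℤ GM) 3 ≃+ ℤ) := by
  obtain ⟨π, h1, h2⟩ := reso_T.coh 3
  refine equiv_of_ker π (evT.comp (cocyc dT 3).subtype) h1 ?_ ?_
  · intro n
    refine ⟨⟨(LinearMap.toSpanSingleton RG RG (n : RG) : RG →ₗ[RG] RG), ?_⟩, ?_⟩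
    · exact LinearMap.comp_zero (LinearMap.toSpanSingleton RG RG (n : RG))
    · exact evT0_surj n
  · intro x
    rw [h2]
    exact top_aux x.1

end Pool.Agent.Helper158
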