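import Pool.Agent.Helper158.Main
import Pool.Agent.Helper158.CohG

namespace Pool.Agent.Helper158

open Finsupp CategoryTheory groupHomology

section

variable {K : Type} [Group K]

/-- bar differential -/
noncomputable def cycK (K : Type) [Group K] : (K × K →₀ ℤ) →+ (K →₀ ℤ) :=
  Finsupp.liftAddHom (fun p => zmultiplesHom _ (single p.2 1 - single (p.1 * p.2) 1 + single p.1 1))

theorem cycK_single (p : K × K) (n : ℤ) :
    cycK K (single p n) = n • (single p.2 1 - single (p.1 * p.2) 1 + single p.1 1) := by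
  rw [cycK, Finsupp.liftAddHom_apply_single]
  rfl

theorem d21_eq (y : K × K →₀ ℤ) : (d₂₁ (Rep.trivial ℤ K ℤ)).hom y = cycK K y := by
  induction y using Finsupp.induction_linear with
  | zero => simp only [map_zero]
  | add a b ha hb =>
    rw [map_add (cycK K), ← ha, ← hb]
    exact map_add (d₂₁ (Rep.trivial ℤ K ℤ)).hom a b
  | single p n =>
    rw [cycK_single]
    refine (d₂₁_single (A := Rep.trivial ℤ K ℤ) p n).trans ?_
    simp [smul_sub, smul_add]

theorem mem_cycles2 (y : K × K →₀ ℤ) : y ∈ cycles₂ (Rep.trivial ℤ K ℤ) ↔ cycK K y = 0 := by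
  rw [← d21_eq]
  rfl

end

theorem d32_mem (y : GM × GM × GM →₀ ℤ) : (d₃₂ (Rep.trivial ℤ GM ℤ)).hom y ∈ BB := by
  induction y using Finsupp.induction_linear with
  | zero =>
    have : (d₃₂ (Rep.trivial ℤ GM ℤ)).hom 0 = 0 := map_zero (d₃₂ (Rep.trivial ℤ GM ℤ)).hom
    rw [this]
    exact zero_mem _
  | add a b ha hb =>
    have : (d₃₂ (Rep.trivial ℤ GM ℤ)).hom (a + b) =
      (d₃₂ (Rep.trivial ℤ GM ℤ)).hom a + (d₃₂ (Rep.trivial ℤ GM ℤ)).hom b :=
      map_add (d₃₂ (Rep.trivial ℤ GM ℤ)).hom a b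
    rw [this]
    exact add_mem ha hb
  | single p n =>
    have h1 : (d₃₂ (Rep.trivial ℤ GM ℤ)).hom (single p n) = n • bcell p.1 p.2.1 p.2.2 := by
      refine (d₃₂_single (A := Rep.trivial ℤ GM ℤ) p n).trans ?_
      simp [bcell, smul_sub, smul_add]
    rw [h1]
    have h2 : bcell p.1 p.2.1 p.2.2 ∈ BB := AddSubgroup.subset_closure ⟨_, _, _, rfl⟩
    exact zsmul_mem h2 n

theorem bound_BB {y : GM × GM →₀ ℤ} (hy : y ∈ boundaries₂ (Rep.trivial ℤ GM ℤ)) : y ∈ BB := by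
  obtain ⟨z, hz⟩ := hy
  rw [← hz]
  exact d32_mem z

theorem cyc_yc : cycK GM yc = 0 := by
  have e1 : gZ * gA = gA * gZ := rels.za.eq
  have e2 : gW * gC = gC * gW := rels.wc.eq
  simp only [yc, map_add, map_sub, cycK_single, one_smul, e1, e2]
  abel

/-- the class which is not represented -/
noncomputable def cls : groupHomology (Rep.trivial ℤ GM ℤ) 2 :=
  H2π (Rep.trivial ℤ GM ℤ) ⟨yc, (mem_cycles2 yc).2 cyc_yc⟩

theorem A13_of_eq (y : cycles₂ (Rep.trivial ℤ GM ℤ))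
    (h : H2π (Rep.trivial ℤ GM ℤ) y = cls) : A13 (Tht y.1) = (1, -1) := by
  have h1 := (H2π_eq_iff y ⟨yc, (mem_cycles2 yc).2 cyc_yc⟩).1 h
  have h2 := A13_BB (bound_BB h1)
  have h3 : y.1 = (y.1 - yc) + yc := (sub_add_cancel _ _).symm
  rw [h3, map_add, map_add]
  have h4 : A13 (Tht (y.1 - yc)) = 0 := h2
  rw [h4, A13_yc, zero_add]

theorem cls_ne : cls ≠ 0 := by
  intro h
  have h1 := A13_of_eq 0 (by rw [map_zero, h])
  have h2 : A13 (Tht (0 : GM × GM →₀ ℤ)) = (1, -1) := h1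
  rw [map_zero, map_zero] at h2
  exact absurd (congrArg Prod.fst h2) (by simp)

theorem not_rep (H : Subgroup GM) (hFP : FP H)
    (hv : ∀ i, i ≠ 2 → Subsingleton (groupCohomology (Rep.leftRegular ℤ H) i))
    (h2 : Nonempty (groupCohomology (Rep.leftRegular ℤ H) 2 ≃+ ℤ))
    (x : groupHomology (Rep.trivial ℤ H ℤ) 2) :
    groupHomology.map H.subtype (𝟙 (Rep.trivial ℤ H ℤ)) 2 x ≠ cls := by
  intro h
  induction x using H2_induction_on with
  | h y =>
    have h1 := H2π_comp_map_apply (A := Rep.trivial ℤ H ℤ) (B := Rep.trivial ℤ GM ℤ) H.subtype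
      (𝟙 (Rep.trivial ℤ H ℤ)) y
    have h3 := A13_of_eq _ (h1.symm.trans h)
    have h4 : (mapCycles₂ (A := Rep.trivial ℤ H ℤ) (B := Rep.trivial ℤ GM ℤ) H.subtype
      (𝟙 (Rep.trivial ℤ H ℤ)) y).1 = incH H y.1 := by
      change Finsupp.mapRange _ (map_zero _) (Finsupp.mapDomain (Prod.map H.subtype H.subtype) y.1) =
        Finsupp.mapDomain (Prod.map H.subtype H.subtype) y.1
      refine Finsupp.ext fun p => ?_
      rw [Finsupp.mapRange_apply]
      rfl
    rw [h4] at h3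
    exact no_cycle H hFP (fun i hi => hv i (by omega)) h2 _
      (bd_incH H y.1 ((mem_cycles2 _).1 y.2)) h3

end Pool.Agent.Helper158
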