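import Mathlib
import Pool.Agent.Helper158.Coh
import Pool.Agent.Helper158.Perm

namespace Pool.Agent.Helper158

open Monoid Monoid.PushoutI

/-- vertex group `F₂ × ℤ` -/
abbrev V := FreeGroup Bool × Multiplicative ℤ

/-- edge group `ℤ²` -/
abbrev E := Multiplicative ℤ × Multiplicative ℤ

/-- the commutator of the two generators of the free group -/
def sF : FreeGroup Bool :=
  FreeGroup.of true * FreeGroup.of false * (FreeGroup.of true)⁻¹ * (FreeGroup.of false)⁻¹

/-- the edge map `(i, j) ↦ ([a,b]^j, z^(i+2j))` -/
def φs : E →* V where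
  toFun p := (sF ^ (Multiplicative.toAdd p.2), p.1 * p.2 * p.2)
  map_one' := by simp
  map_mul' p q := by
    ext1
    · simp [zpow_add]
    · simp only [Prod.fst_mul, Prod.snd_mul, Prod.mk_mul_mk]
      ac_rfl

/-- the edge maps of the amalgam -/
def φ (i : Bool) : E →* V :=
  if i then φs else φs.comp (MonoidHom.prod (MonoidHom.snd _ _) (MonoidHom.fst _ _))

theorem sF_ne_one : sF ≠ 1 := by decide

theorem φs_injective : Function.Injective φs := by
  rw [injective_iff_map_eq_one]
  rintro ⟨p, q⟩ h
  simp only [φs, MonoidHom.coe_mk, OneHom.coe_mk, Prod.mk_eq_one] at h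
  obtain ⟨h1, h2⟩ := h
  have hq : Multiplicative.toAdd q = 0 := by
    by_contra hne
    exact sF_ne_one ((IsMulTorsionFree.zpow_eq_one_iff_left hne).1 h1)
  have hq' : q = 1 := by
    rw [← Multiplicative.toAdd.apply_eq_iff_eq, hq]; rfl
  subst hq'
  simpa using h2

theorem φ_injective (i : Bool) : Function.Injective (φ i) := by
  cases i
  · simp only [φ, Bool.false_eq_true, if_false, MonoidHom.coe_comp]
    refine φs_injective.comp ?_
    rintro ⟨p, q⟩ ⟨p', q'⟩ h
    simp only [MonoidHom.prod_apply, MonoidHom.coe_snd, MonoidHom.coe_fst, Prod.mk.injEq] at h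
    rw [h.1, h.2]
  · simpa [φ] using φs_injective

/-- the graph manifold group -/
abbrev GM : Type := Monoid.PushoutI φ

/-- A length function on the amalgam. -/
theorem exists_level : ∃ ℓ : GM → ℕ, (∀ h g, ℓ (base φ h * g) = ℓ g) ∧
    ∀ g, ∃ i : Bool, ∀ y : V, y ∉ (φ i).range → ℓ g < ℓ (of i y * g) := by
  classical
  obtain ⟨d⟩ := NormalWord.transversal_nonempty φ φ_injective
  let ℓ : GM → ℕ := fun g => (g • (NormalWord.empty : NormalWord d)).toList.length
  refine ⟨ℓ, ?_, ?_⟩
  · intro h g
    simp only [ℓ, mul_smul, NormalWord.base_smul_def]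
  · intro g
    obtain ⟨i, hi⟩ : ∃ i : Bool, (g • (NormalWord.empty : NormalWord d)).fstIdx ≠ some i := by
      cases h : (g • (NormalWord.empty : NormalWord d)).fstIdx with
      | none => exact ⟨true, by simp⟩
      | some i => exact ⟨!i, by simp⟩
    refine ⟨i, fun y hy => ?_⟩
    have h := NormalWord.cons_eq_smul (φ := φ) (i := i) y
      (g • (NormalWord.empty : NormalWord d)) hi hy
    simp only [ℓ]
    rw [mul_smul, ← h]
    simp

/-- inclusion of the vertex groups -/
def vin (i : Bool) : V →* GM := of (φ := φ) (G := fun _ => V) i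

/-- inclusion of the edge group -/
def ein : E →* GM := base φ

theorem vin_φ (i : Bool) (e : E) : vin i (φ i e) = ein e := of_apply_eq_base φ i e

theorem vin_injective (i : Bool) : Function.Injective (vin i) := of_injective φ_injective i

theorem ein_injective : Function.Injective ein := base_injective φ_injective

def gA : GM := vin true (FreeGroup.of true, 1)
def gB : GM := vin true (FreeGroup.of false, 1)
def gZ : GM := vin true (1, Multiplicative.ofAdd 1)
def gC : GM := vin false (FreeGroup.of true, 1)
def gD : GM := vin false (FreeGroup.of false, 1)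
def gW : GM := vin false (1, Multiplicative.ofAdd 1)

theorem gZ_eq : gZ = ein (Multiplicative.ofAdd 1, 1) := by
  rw [← vin_φ true]
  congr 1

theorem gW_eq : gW = ein (1, Multiplicative.ofAdd 1) := by
  rw [← vin_φ false]
  congr 1

theorem rels : Rels gA gB gZ gC gD gW where
  za := by
    unfold gZ gA
    rw [commute_iff_eq, ← map_mul, ← map_mul]; congr 1
  zb := by
    unfold gZ gB
    rw [commute_iff_eq, ← map_mul, ← map_mul]; congr 1
  wc := by
    unfold gW gC
    rw [commute_iff_eq, ← map_mul, ← map_mul]; congr 1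
  wd := by
    unfold gW gD
    rw [commute_iff_eq, ← map_mul, ← map_mul]; congr 1
  hw := by
    rw [gW_eq, ← vin_φ true]
    simp only [gA, gB, gZ, ← map_mul, ← map_inv]
    congr 1
  hz := by
    rw [gZ_eq, ← vin_φ false]
    simp only [gC, gD, gW, ← map_mul, ← map_inv]
    congr 1

end Pool.Agent.Helper158
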