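import Pool.Agent.Helper158.Bar

namespace Pool.Agent.Helper158

open Finsupp

section

variable (H : Subgroup GM)

attribute [local instance] modS

theorem smul_L1 (h : H) (x : L1) : MonoidAlgebra.of ℤ H h • x = MonoidAlgebra.of ℤ GM (h : GM) • x := by
  have := towerS H
  rw [← smul_one_smul RG (MonoidAlgebra.of ℤ H h) x, smulS_of, mul_one]

theorem smul_L2 (h : H) (x : L2) : MonoidAlgebra.of ℤ H h • x = MonoidAlgebra.of ℤ GM (h : GM) • x := by
  have := towerS H
  rw [← smul_one_smul RG (MonoidAlgebra.of ℤ H h) x, smulS_of, mul_one]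

/-- bar differential for the subgroup -/
noncomputable def cycH : (H × H →₀ ℤ) →+ (H →₀ ℤ) :=
  Finsupp.liftAddHom (fun p => zmultiplesHom _ (single p.2 1 - single (p.1 * p.2) 1 + single p.1 1))

/-- inclusion of bar chains -/
noncomputable def incH : (H × H →₀ ℤ) →+ (GM × GM →₀ ℤ) :=
  Finsupp.mapDomain.addMonoidHom (Prod.map H.subtype H.subtype)

/-- paths on chains -/
noncomputable def PsiH : (H →₀ ℤ) →+ L1 :=
  Finsupp.liftAddHom (fun h => zmultiplesHom _ (psi h))

theorem PsiH_single (h : H) : PsiH H (single h 1) = psi h := by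
  simp [PsiH]

theorem cycH_single (p : H × H) (n : ℤ) :
    cycH H (single p n) = n • (single p.2 1 - single (p.1 * p.2) 1 + single p.1 1) := by
  rw [cycH, Finsupp.liftAddHom_apply_single]
  rfl

theorem diff_mem (y : H × H →₀ ℤ) :
    B2 (Tht (incH H y)) - PsiH H (cycH H y) ∈ JJ H L1 := by
  induction y using Finsupp.induction_linear with
  | zero =>
    simp only [map_zero, sub_zero]
    exact zero_mem _
  | add a b ha hb =>
    simp only [map_add]
    have := add_mem ha hb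
    convert this using 1
    abel
  | single p n =>
    have e1 : Tht (incH H (single p n)) = n • tht ((p.1 : GM), (p.2 : GM)) := by
      simp only [incH, Finsupp.mapDomain.addMonoidHom_apply, Finsupp.mapDomain_single, Tht_single]
      rfl
    have e2 : PsiH H (cycH H (single p n)) = n • (psi p.2 - psi (p.1 * p.2 : H) + psi p.1) := by
      rw [cycH_single, map_zsmul, map_add, map_sub, PsiH_single, PsiH_single, PsiH_single]
    have e3 : B2 (n • tht ((p.1 : GM), (p.2 : GM))) = n • kap p.1 p.2 := by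
      rw [map_zsmul, tht_spec]
    rw [e1, e2, e3, ← smul_sub]
    apply zsmul_mem
    have e4 : kap (p.1 : GM) p.2 - (psi p.2 - psi (p.1 * p.2 : H) + psi p.1)
        = MonoidAlgebra.of ℤ H p.1 • psi p.2 - psi p.2 := by
      rw [smul_L1, kap, Subgroup.coe_mul]
      abel
    rw [e4]
    exact JJ_gen _ _

theorem bd_incH (y : H × H →₀ ℤ) (hy : cycH H y = 0) : B2 (Tht (incH H y)) ∈ JJ H L1 := by
  have := diff_mem H y
  rwa [hy, map_zero, sub_zero] at this

theorem A13_JJ {v : L2} (hv : v ∈ JJ H L2) : A13 v = 0 := by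
  induction hv using AddSubgroup.closure_induction with
  | mem x hx =>
    obtain ⟨h, m, rfl⟩ := hx
    rw [map_sub, smul_L2, A13_smul, sub_self]
  | zero => rw [map_zero]
  | add x y _ _ hx hy => rw [map_add, hx, hy, add_zero]
  | neg x _ hx => rw [map_neg, hx, neg_zero]

/-- the coset space -/
abbrev XH : Type := GM ⧸ H

/-- projection of the group ring to the coset space -/
noncomputable def qH : RG →+ (XH H →₀ ℤ) :=
  (Finsupp.mapDomain.addMonoidHom (fun g : GM => ((g⁻¹ : GM) : GM ⧸ H))).comp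
    (MonoidAlgebra.coeffAddEquiv (R := ℤ) (M := GM)).toAddMonoidHom

theorem qH_of (g : GM) : qH H (MonoidAlgebra.of ℤ GM g) = single ((g⁻¹ : GM) : GM ⧸ H) 1 := by
  simp [qH]

theorem qH_ρR (g : GM) (x : RG) : qH H (ρR g x) = permRep GM (XH H) g (qH H x) := by
  induction x using MonoidAlgebra.induction_on with
  | of h =>
    rw [of_mul_inv, qH_of, qH_of, permRep_single, mul_inv_rev, inv_inv]
    rfl
  | add a b ha hb => rw [map_add, map_add, ha, hb, map_add, map_add]
  | smul n a ha => rw [map_zsmul, map_zsmul, ha, map_zsmul, map_zsmul]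

theorem qH_surj : Function.Surjective (qH H) := by
  intro f
  induction f using Finsupp.induction_linear with
  | zero => exact ⟨0, map_zero _⟩
  | add a b ha hb =>
    obtain ⟨x, rfl⟩ := ha
    obtain ⟨y, rfl⟩ := hb
    exact ⟨x + y, map_add _ _ _⟩
  | single x n =>
    obtain ⟨g, rfl⟩ := QuotientGroup.mk_surjective x
    refine ⟨n • MonoidAlgebra.of ℤ GM g⁻¹, ?_⟩
    rw [map_zsmul, qH_of, inv_inv]
    simp

theorem qH_ker {x : RG} (hx : qH H x = 0) : x ∈ JJ H RG := by
  let e : RG ≃+ (GM →₀ ℤ) := MonoidAlgebra.coeffAddEquiv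
  have h := mem_of_mapDomain_eq_zero (G := H) (X := GM) Set.univ
    ((JJ H RG).comap e.symm.toAddMonoidHom) (by
      intro h _ g
      change e.symm (single (h • g) 1 - single g 1) ∈ JJ H RG
      have e1 : e.symm (single (h • g) 1 - single g 1) =
          MonoidAlgebra.of ℤ H h • MonoidAlgebra.of ℤ GM g - MonoidAlgebra.of ℤ GM g := by
        rw [smulS_of, ← map_mul, map_sub]
        rfl
      rw [e1]
      exact JJ_gen _ _) (fun g : GM => ((g⁻¹ : GM) : GM ⧸ H)) (by
      intro x y hxy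
      rw [QuotientGroup.eq, inv_inv] at hxy
      refine ⟨(⟨x * y⁻¹, hxy⟩ : H)⁻¹, by simp, ?_⟩
      change (x * y⁻¹)⁻¹ * x = y
      group) (e x) hx
  simpa using h

/-- projection -/
noncomputable def q6 (x : L2) : (XH H →₀ ℤ) × (XH H →₀ ℤ) × (XH H →₀ ℤ) × (XH H →₀ ℤ) ×
    (XH H →₀ ℤ) × (XH H →₀ ℤ) :=
  (qH H x.1, qH H x.2.1, qH H x.2.2.1, qH H x.2.2.2.1, qH H x.2.2.2.2.1, qH H x.2.2.2.2.2)

/-- projection -/
noncomputable def q7 (x : L1) : (XH H →₀ ℤ) × (XH H →₀ ℤ) × (XH H →₀ ℤ) × (XH H →₀ ℤ) ×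
    (XH H →₀ ℤ) × (XH H →₀ ℤ) × (XH H →₀ ℤ) :=
  (qH H x.1, qH H x.2.1, qH H x.2.2.1, qH H x.2.2.2.1, qH H x.2.2.2.2.1, qH H x.2.2.2.2.2.1,
    qH H x.2.2.2.2.2.2)

theorem q7_B2 (x : L2) : q7 H (B2 x) = bd2 (permRep GM (XH H)) gA gB gZ gC gD gW (q6 H x) := by
  have h1 : ∀ (g : GM) (x : RG), qH H ((ρR g - 1) x) = (permRep GM (XH H) g - 1) (qH H x) := by
    intro g x
    rw [sub_one_apply, sub_one_apply, map_sub, qH_ρR]
  have h2 : ∀ (a b z : GM) (x : RG), qH H (Wa ρR a b z x) =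
      Wa (permRep GM (XH H)) a b z (qH H x) := by
    intro a b z x
    simp only [Wa, LinearMap.sub_apply, map_sub, qH_ρR]
  have h3 : ∀ (a b z : GM) (x : RG), qH H (Wb ρR a b z x) =
      Wb (permRep GM (XH H)) a b z (qH H x) := by
    intro a b z x
    simp only [Wb, LinearMap.sub_apply, map_sub, qH_ρR]
  have h4 : ∀ (z : GM) (x : RG), qH H (Wz ρR z x) =
      Wz (permRep GM (XH H)) z (qH H x) := by
    intro z x
    simp only [Wz, LinearMap.add_apply, Module.End.one_apply, map_add, qH_ρR]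
  simp only [q7, q6, B2, bd2, LinearMap.coe_mk, AddHom.coe_mk, map_add, map_neg, h1, h2, h3, h4]

theorem qH_JJ {x : RG} (hx : x ∈ JJ H RG) : qH H x = 0 := by
  have h1 : ∀ (h : H) (m : RG), qH H (MonoidAlgebra.of ℤ GM (h : GM) * m) = qH H m := by
    intro h m
    induction m using MonoidAlgebra.induction_on with
    | of g =>
      rw [← map_mul, qH_of, qH_of, mul_inv_rev]
      congr 1
      rw [QuotientGroup.eq]
      have : (g⁻¹ * (h : GM)⁻¹)⁻¹ * g⁻¹ = h := by group
      rw [this]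
      exact h.2
    | add a b ha hb => rw [mul_add, map_add, ha, hb, map_add]
    | smul n a ha => rw [mul_smul_comm, map_zsmul, ha, map_zsmul]
  induction hx using AddSubgroup.closure_induction with
  | mem x hx =>
    obtain ⟨h, m, rfl⟩ := hx
    rw [smulS_of, map_sub, h1, sub_self]
  | zero => rw [map_zero]
  | add x y _ _ hx hy => rw [map_add, hx, hy, add_zero]
  | neg x _ hx => rw [map_neg, hx, neg_zero]

theorem JJ_fst {M N : Type} [AddCommGroup M] [Module (MonoidAlgebra ℤ H) M]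
    [AddCommGroup N] [Module (MonoidAlgebra ℤ H) N] {x : M × N} (hx : x ∈ JJ H (M × N)) :
    x.1 ∈ JJ H M := JJ_map (LinearMap.fst (MonoidAlgebra ℤ H) M N) hx

theorem JJ_snd {M N : Type} [AddCommGroup M] [Module (MonoidAlgebra ℤ H) M]
    [AddCommGroup N] [Module (MonoidAlgebra ℤ H) N] {x : M × N} (hx : x ∈ JJ H (M × N)) :
    x.2 ∈ JJ H N := JJ_map (LinearMap.snd (MonoidAlgebra ℤ H) M N) hx

theorem q7_JJ {x : L1} (hx : x ∈ JJ H L1) : q7 H x = 0 := by
  have h1 := JJ_snd H hx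
  have h2 := JJ_snd H h1
  have h3 := JJ_snd H h2
  have h4 := JJ_snd H h3
  have h5 := JJ_snd H h4
  have h6 := JJ_snd H h5
  simp only [q7, qH_JJ H (JJ_fst H hx), qH_JJ H (JJ_fst H h1), qH_JJ H (JJ_fst H h2),
    qH_JJ H (JJ_fst H h3), qH_JJ H (JJ_fst H h4), qH_JJ H (JJ_fst H h5), qH_JJ H h6]
  rfl

theorem q7_ker {x : L1} (hx : q7 H x = 0) : x ∈ JJ H L1 := by
  simp only [q7, Prod.mk_eq_zero] at hx
  obtain ⟨h1, h2, h3, h4, h5, h6, h7⟩ := hx
  exact JJ_prod (qH_ker H h1) (JJ_prod (qH_ker H h2) (JJ_prod (qH_ker H h3)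
    (JJ_prod (qH_ker H h4) (JJ_prod (qH_ker H h5) (JJ_prod (qH_ker H h6) (qH_ker H h7))))))

/-- augmentation on the coset space -/
noncomputable def augX : (XH H →₀ ℤ) →+ ℤ := Finsupp.liftAddHom (fun _ => AddMonoidHom.id ℤ)

theorem augX_qH (x : RG) : augX H (qH H x) = aug x := by
  induction x using MonoidAlgebra.induction_on with
  | of h =>
    rw [qH_of, aug_of]
    simp [augX]
  | add a b ha hb => rw [map_add, map_add, ha, hb, map_add]
  | smul n a ha => rw [map_zsmul, map_zsmul, ha, map_zsmul]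

theorem augX_perm (g : GM) (x : XH H →₀ ℤ) : augX H (permRep GM (XH H) g x) = augX H x := by
  obtain ⟨y, rfl⟩ := qH_surj H x
  rw [← qH_ρR, augX_qH, augX_qH, aug_ρR]

theorem augX_Wa (a b z : GM) (x : XH H →₀ ℤ) : augX H (Wa (permRep GM (XH H)) a b z x) = 0 := by
  simp only [Wa, LinearMap.sub_apply, map_sub, augX_perm, sub_self]

/-- The key contradiction. -/
theorem no_cycle (hFP : FP H)
    (hv : ∀ i, 3 ≤ i → Subsingleton (groupCohomology (Rep.leftRegular ℤ H) i))
    (h2 : Nonempty (groupCohomology (Rep.leftRegular ℤ H) 2 ≃+ ℤ))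
    (l : L2) (hl : B2 l ∈ JJ H L1) (hA : A13 l = (1, -1)) : False := by
  obtain ⟨lam, hlam⟩ := rank_L H hFP hv h2
  have hu : bd2 (permRep GM (XH H)) gA gB gZ gC gD gW (q6 H l) = 0 := by
    rw [← q7_B2]
    exact q7_JJ H hl
  obtain ⟨N, m, xa, xb, xc, xd, hN, hc1, -, hs⟩ := split gA gB gZ gC gD gW rels (q6 H l) hu
  obtain ⟨ya, rfl⟩ := qH_surj H xa
  obtain ⟨yb, rfl⟩ := qH_surj H xb
  -- components of the splitting
  have hA1 : aug l.1 = 1 := congrArg Prod.fst hA
  have hA2 : aug l.2.2.1 = -1 := congrArg Prod.snd hA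
  have s1 : (N : ℤ) • qH H l.1 = Wa (permRep GM (XH H)) gA gB gZ m + qH H ya + 0 :=
    congrArg Prod.fst hs
  have e1 : (N : ℤ) = aug ya := by
    have := congrArg (augX H) s1
    rw [map_zsmul, augX_qH, hA1, map_add, map_add, augX_Wa, augX_qH, map_zero, zero_add,
      add_zero, smul_eq_mul, mul_one] at this
    exact this
  -- the lift of the first piece
  obtain ⟨x1, hx1⟩ : ∃ x : L2, x = (ya, yb, 0, 0, 0, 0) := ⟨_, rfl⟩
  have hx1q : q6 H x1 = (qH H ya, qH H yb, 0, 0, 0, 0) := by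
    rw [hx1]
    simp only [q6, map_zero]
  have hx1J : B2 x1 ∈ JJ H L1 := by
    apply q7_ker
    rw [q7_B2, hx1q]
    exact hc1
  have key : ∀ t : L2, B2 t ∈ JJ H L1 → lam t = 0 → A13 t = 0 := by
    intro t ht h0
    obtain ⟨v, hv, hv2⟩ := hlam t ht h0
    rw [← A13_eq hv2]
    exact A13_JJ H hv
  have k1 := key (lam x1 • l - lam l • x1) (by
    rw [map_sub, map_zsmul, map_zsmul]
    exact sub_mem (zsmul_mem hl _) (zsmul_mem hx1J _)) (by
    rw [map_sub, map_zsmul, map_zsmul, smul_eq_mul, smul_eq_mul, mul_comm, sub_self])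
  rw [map_sub, map_zsmul, map_zsmul, hA] at k1
  have hAx : A13 x1 = (aug ya, 0) := by
    rw [hx1]
    change (aug ya, aug 0) = _
    rw [map_zero]
  rw [hAx] at k1
  have k2 : lam x1 = 0 := by
    have := congrArg Prod.snd k1
    simpa using this
  have k3 := key x1 hx1J k2
  rw [hAx, ← e1] at k3
  have := congrArg Prod.fst k3
  simp at this
  omega

end

end Pool.Agent.Helper158
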