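import Mathlib
import Pool.Agent.Helper158.Grp

namespace Pool.Agent.Helper158

open Monoid Monoid.PushoutI Finsupp

/-- generators of the vertex groups -/
def gens (i : Bool) : Set GM :=
  {vin i (FreeGroup.of true, 1), vin i (FreeGroup.of false, 1), vin i (1, Multiplicative.ofAdd 1)}

theorem range_vin_le (i : Bool) : (vin i).range ≤ Subgroup.closure (gens i) := by
  rintro _ ⟨⟨f, n⟩, rfl⟩
  have h1 : ∀ f : FreeGroup Bool, vin i (f, 1) ∈ Subgroup.closure (gens i) := by
    intro f
    induction f using FreeGroup.induction_on with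
    | C1 => exact (map_one (vin i)).symm ▸ Subgroup.one_mem _
    | of k =>
      apply Subgroup.subset_closure
      cases k <;> simp [gens]
    | inv_of k ih =>
      have := Subgroup.inv_mem _ ih
      rw [← map_inv] at this
      simpa using this
    | mul f g hf hg =>
      have := Subgroup.mul_mem _ hf hg
      rw [← map_mul] at this
      simpa using this
  have h2 : vin i (1, n) ∈ Subgroup.closure (gens i) := by
    have : ((1, n) : V) = (1, Multiplicative.ofAdd 1) ^ (Multiplicative.toAdd n) := by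
      ext
      · simp
      · simp [← ofAdd_zsmul]
    rw [this, map_zpow]
    apply Subgroup.zpow_mem
    apply Subgroup.subset_closure
    simp [gens]
  have : ((f, n) : V) = (f, 1) * (1, n) := by simp
  rw [this, map_mul]
  exact Subgroup.mul_mem _ (h1 f) h2

theorem closure_gens (g : GM) :
    g ∈ Subgroup.closure (gens true ∪ gens false) := by
  induction g using PushoutI.induction_on with
  | of i g =>
    have h : vin i g ∈ (vin i).range := ⟨g, rfl⟩
    have h2 := range_vin_le i h
    cases i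
    · exact Subgroup.closure_mono Set.subset_union_right h2
    · exact Subgroup.closure_mono Set.subset_union_left h2
  | base h =>
    have h0 : base φ h = vin true (φ true h) := (vin_φ true h).symm
    rw [h0]
    have h2 := range_vin_le true (x := vin true (φ true h)) ⟨_, rfl⟩
    exact Subgroup.closure_mono Set.subset_union_left h2
  | mul x y hx hy => exact Subgroup.mul_mem _ hx hy

theorem range_ein_le : ein.range ≤ Subgroup.closure {gZ, gW} := by
  rintro _ ⟨⟨p, q⟩, rfl⟩
  have : ((p, q) : E) = (Multiplicative.ofAdd 1, 1) ^ (Multiplicative.toAdd p)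
      * (1, Multiplicative.ofAdd 1) ^ (Multiplicative.toAdd q) := by
    ext
    · simp [← ofAdd_zsmul]
    · simp [← ofAdd_zsmul]
  rw [this, map_mul, map_zpow, map_zpow, ← gZ_eq, ← gW_eq]
  apply Subgroup.mul_mem
  · exact Subgroup.zpow_mem _ (Subgroup.subset_closure (by simp)) _
  · exact Subgroup.zpow_mem _ (Subgroup.subset_closure (by simp)) _

/-- orbit maps of the vertex groups acting by left multiplication -/
def πV (i : Bool) (g : GM) : MulAction.orbitRel.Quotient (vin i).range GM := Quotient.mk _ g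

/-- orbit map of the edge group acting by left multiplication -/
def πE (g : GM) : MulAction.orbitRel.Quotient ein.range GM := Quotient.mk _ g

theorem πV_eq_iff (i : Bool) (x y : GM) : πV i x = πV i y ↔ ∃ v, vin i v * y = x := by
  unfold πV
  rw [Quotient.eq]
  constructor
  · rintro ⟨⟨_, ⟨v, rfl⟩⟩, h⟩; exact ⟨v, h⟩
  · rintro ⟨v, h⟩; exact ⟨⟨_, ⟨v, rfl⟩⟩, h⟩

theorem πE_eq_iff (x y : GM) : πE x = πE y ↔ ∃ e, ein e * y = x := by
  unfold πE
  rw [Quotient.eq]
  constructor
  · rintro ⟨⟨_, ⟨v, rfl⟩⟩, h⟩; exact ⟨v, h⟩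
  · rintro ⟨v, h⟩; exact ⟨⟨_, ⟨v, rfl⟩⟩, h⟩

/-- The Bass-Serre tree has no cycles. -/
theorem tree_lemma (f : GM →₀ ℤ) (h : ∀ i, Finsupp.mapDomain (πV i) f = 0) :
    Finsupp.mapDomain πE f = 0 := by
  classical
  obtain ⟨ℓ, hℓ1, hℓ2⟩ := exists_level
  by_contra hne
  have hne' : (Finsupp.mapDomain πE f).support.Nonempty := Finsupp.support_nonempty_iff.2 hne
  let L : MulAction.orbitRel.Quotient ein.range GM → ℕ := Quotient.lift ℓ (by
    rintro x y ⟨⟨_, ⟨e, rfl⟩⟩, rfl⟩
    exact hℓ1 e y)
  have hL : ∀ x, L (πE x) = ℓ x := fun x => rfl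
  obtain ⟨q, hq, hmax⟩ := Finset.exists_max_image _ L hne'
  obtain ⟨x, rfl⟩ : ∃ x, πE x = q := Quotient.exists_rep q
  obtain ⟨i, hi⟩ := hℓ2 x
  let p : MulAction.orbitRel.Quotient ein.range GM → MulAction.orbitRel.Quotient (vin i).range GM :=
    Quotient.lift (πV i) (by
      rintro x y ⟨⟨_, ⟨e, rfl⟩⟩, rfl⟩
      rw [πV_eq_iff]
      exact ⟨φ i e, by rw [vin_φ]; rfl⟩)
  have hp : ∀ x, p (πE x) = πV i x := fun x => rfl
  have h0 : Finsupp.mapDomain p (Finsupp.mapDomain πE f) = 0 := by
    rw [← Finsupp.mapDomain_comp]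
    exact h i
  have h1 := DFunLike.congr_fun h0 (p (πE x))
  rw [Finsupp.mapDomain, Finsupp.sum_apply, Finsupp.sum, Finset.sum_eq_single (πE x)] at h1
  · rw [Finsupp.single_eq_same] at h1
    exact (Finsupp.mem_support_iff.1 hq) h1
  · intro q' hq' hne
    obtain ⟨y, rfl⟩ : ∃ y, πE y = q' := Quotient.exists_rep q'
    rw [Finsupp.single_apply, if_neg]
    intro hxy
    rw [hp, hp, πV_eq_iff] at hxy
    obtain ⟨v, rfl⟩ := hxy
    have h3 : v ∉ (φ i).range := by
      rintro ⟨e, rfl⟩
      apply hne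
      rw [πE_eq_iff]
      exact ⟨e, by rw [vin_φ]⟩
    have h4 := hi v h3
    have h5 := hmax _ hq'
    rw [hL, hL] at h5
    exact absurd h4 (not_lt.2 h5)
  · intro h6; exact absurd hq h6

end Pool.Agent.Helper158
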