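import Mathlib
import Pool.Agent.Helper158.Tree

namespace Pool.Agent.Helper158

open Monoid Monoid.PushoutI Finsupp

theorem vin_free (i : Bool) (v : V) (x : GM) (h : vin i v • x = x) : v = 1 := by
  rw [smul_eq_mul, mul_eq_right] at h
  exact (injective_iff_map_eq_one _).1 (vin_injective i) v h

theorem ein_free (v : E) (x : GM) (h : ein v • x = x) : v = 1 := by
  rw [smul_eq_mul, mul_eq_right] at h
  exact (injective_iff_map_eq_one _).1 ein_injective v h

/-- Fox derivatives on a vertex group. -/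
theorem side_fox (i : Bool) : ∃ D1 D2 : (GM →₀ ℤ) →ₗ[ℤ] (GM →₀ ℤ),
    (∀ m, D1 (permRep GM GM (vin i (FreeGroup.of true, 1)) m) = D1 m + m) ∧
    (∀ m, D1 (permRep GM GM (vin i (FreeGroup.of false, 1)) m) = D1 m) ∧
    (∀ m, D2 (permRep GM GM (vin i (FreeGroup.of true, 1)) m) = D2 m) ∧
    (∀ m, D2 (permRep GM GM (vin i (FreeGroup.of false, 1)) m) = D2 m + m) ∧
    (∀ m, D1 (permRep GM GM (vin i (1, Multiplicative.ofAdd 1)) m)
      = permRep GM GM (vin i (1, Multiplicative.ofAdd 1)) (D1 m)) ∧
    (∀ m, D2 (permRep GM GM (vin i (1, Multiplicative.ofAdd 1)) m)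
      = permRep GM GM (vin i (1, Multiplicative.ofAdd 1)) (D2 m)) := by
  obtain ⟨D, h1, h2⟩ := exists_fox (G := GM) (X := GM) (vin i) (fun v x h => vin_free i v x h)
  refine ⟨D true, D false, fun m => by simp [h1], fun m => by simp [h1], fun m => by simp [h1],
    fun m => by simp [h1], fun m => h2 _ _ _, fun m => h2 _ _ _⟩

theorem side_free (i : Bool) (x y u : GM →₀ ℤ)
    (h : (permRep GM GM (vin i (FreeGroup.of true, 1)) x - x)
      + (permRep GM GM (vin i (FreeGroup.of false, 1)) y - y)
      = permRep GM GM (vin i (1, Multiplicative.ofAdd 1)) u - u) :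
    ∃ x' y', x = permRep GM GM (vin i (1, Multiplicative.ofAdd 1)) x' - x' ∧
      y = permRep GM GM (vin i (1, Multiplicative.ofAdd 1)) y' - y' := by
  obtain ⟨D1, D2, h1, h2, h3, h4, h5, h6⟩ := side_fox i
  refine ⟨D1 u, D2 u, ?_, ?_⟩
  · rw [← h5, ← map_sub, ← h, map_add, map_sub, map_sub, h1, h2]; abel
  · rw [← h6, ← map_sub, ← h, map_add, map_sub, map_sub, h3, h4]; abel

/-- the derivative along `z` or `w` -/
theorem edge_fox (j : E →* GM) (hj : Function.Injective j) :
    ∃ D : (GM →₀ ℤ) →ₗ[ℤ] (GM →₀ ℤ),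
    (∀ m, D (permRep GM GM (j (Multiplicative.ofAdd 1, 1)) m) = D m + m) ∧
    (∀ m, D (permRep GM GM (j (1, Multiplicative.ofAdd 1)) m)
      = permRep GM GM (j (1, Multiplicative.ofAdd 1)) (D m)) := by
  let e : FreeGroup Unit × Multiplicative ℤ ≃* E :=
    MulEquiv.prodCongr FreeGroup.mulEquivIntOfUnique (MulEquiv.refl _)
  have he1 : e (FreeGroup.of (), 1) = (Multiplicative.ofAdd 1, 1) := by
    have h1 : (FreeGroup.mulEquivIntOfUnique (FreeGroup.of ()) : Multiplicative ℤ)
        = Multiplicative.ofAdd 1 := by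
      change Multiplicative.ofAdd (FreeGroup.equivIntOfUnique (FreeGroup.of ())) = _
      congr 1
    exact Prod.ext h1 rfl
  have he2 : ∀ b, e (1, b) = (1, b) := by
    intro b
    exact Prod.ext (map_one FreeGroup.mulEquivIntOfUnique) rfl
  obtain ⟨D, h1, h2⟩ := exists_fox (G := GM) (X := GM) (j.comp e.toMonoidHom) (fun v x h => by
    rw [smul_eq_mul, mul_eq_right] at h
    have := (injective_iff_map_eq_one _).1 hj _ h
    exact (map_eq_one_iff e e.injective).1 this)
  refine ⟨D (), fun m => ?_, fun m => ?_⟩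
  · have := h1 () () m
    simp only [MonoidHom.comp_apply, MulEquiv.coe_toMonoidHom, he1, if_true] at this
    exact this
  · have := h2 () (Multiplicative.ofAdd 1) m
    simp only [MonoidHom.comp_apply, MulEquiv.coe_toMonoidHom, he2] at this
    exact this

theorem sum_side (i : Bool) (x1 x2 x3 : GM →₀ ℤ) :
    Finsupp.mapDomain (πV i) ((permRep GM GM (vin i (FreeGroup.of true, 1)) x1 - x1)
      + (permRep GM GM (vin i (FreeGroup.of false, 1)) x2 - x2)
      + (permRep GM GM (vin i (1, Multiplicative.ofAdd 1)) x3 - x3)) = 0 := by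
  have h : ∀ (v : V) (x : GM →₀ ℤ),
      Finsupp.mapDomain (πV i) (permRep GM GM (vin i v) x) = Finsupp.mapDomain (πV i) x := by
    intro v x
    apply mapDomain_permRep
    intro x
    rw [πV_eq_iff]
    exact ⟨v, rfl⟩
  simp only [Finsupp.mapDomain_add, sub_eq_add_neg]
  have hneg : ∀ x : GM →₀ ℤ, Finsupp.mapDomain (πV i) (-x) = -Finsupp.mapDomain (πV i) x := by
    intro x
    exact map_neg (Finsupp.mapDomain.addMonoidHom (πV i)) x
  simp only [hneg, h]
  abel

theorem nice_perm : Nice (fun g m => permRep GM GM g m) gA gB gZ gC gD gW where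
  zinj m h := by
    obtain ⟨D, h1, h2⟩ := edge_fox ein ein_injective
    rw [← gZ_eq] at h1
    have := congrArg D h
    rw [map_sub, h1, map_zero] at this
    simpa using this
  winj m h := by
    obtain ⟨D, h1, h2⟩ := edge_fox
      (ein.comp (MonoidHom.prod (MonoidHom.snd _ _) (MonoidHom.fst _ _))) (by
        rw [MonoidHom.coe_comp]
        refine ein_injective.comp ?_
        rintro ⟨p, q⟩ ⟨p', q'⟩ h
        simp only [MonoidHom.prod_apply, MonoidHom.coe_snd, MonoidHom.coe_fst,
          Prod.mk.injEq] at h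
        rw [h.1, h.2])
    have e : (ein.comp (MonoidHom.prod (MonoidHom.snd _ _) (MonoidHom.fst _ _)))
        (Multiplicative.ofAdd 1, 1) = gW := by rw [gW_eq]; rfl
    rw [e] at h1
    have := congrArg D h
    rw [map_sub, h1, map_zero] at this
    simpa using this
  kos x y h := by
    obtain ⟨D, h1, h2⟩ := edge_fox ein ein_injective
    rw [← gZ_eq] at h1
    rw [← gW_eq] at h2
    have hx : x = permRep GM GM gW (D y) - D y := by
      have := congrArg D h
      rw [map_sub, h1, map_sub, h2] at this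
      rw [← this]; abel
    refine ⟨D y, hx, ?_⟩
    have h3 := comm_sub_one' (permRep GM GM) rels.zw (D y)
    simp only [sub_one_apply] at h3
    rw [hx, h3] at h
    rw [← sub_eq_zero]
    obtain ⟨D', h1', h2'⟩ := edge_fox
      (ein.comp (MonoidHom.prod (MonoidHom.snd _ _) (MonoidHom.fst _ _))) (by
        rw [MonoidHom.coe_comp]
        refine ein_injective.comp ?_
        rintro ⟨p, q⟩ ⟨p', q'⟩ h
        simp only [MonoidHom.prod_apply, MonoidHom.coe_snd, MonoidHom.coe_fst,
          Prod.mk.injEq] at h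
        rw [h.1, h.2])
    have e : (ein.comp (MonoidHom.prod (MonoidHom.snd _ _) (MonoidHom.fst _ _)))
        (Multiplicative.ofAdd 1, 1) = gW := by rw [gW_eq]; rfl
    rw [e] at h1'
    have h5 : ∀ m, D' (permRep GM GM gW m - m) = m := fun m => by
      rw [map_sub, h1']; abel
    have h4 := congrArg D' h
    rw [h5, h5] at h4
    rw [h4]; abel
  free1 x y u h := side_free true x y u h
  free2 x y u h := side_free false x y u h
  tree x1 x2 x3 y1 y2 y3 h := by
    have h1 := sum_side true x1 x2 x3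
    have h2 := sum_side false y1 y2 y3
    have h3 := tree_lemma ((permRep GM GM gA x1 - x1) + (permRep GM GM gB x2 - x2)
      + (permRep GM GM gZ x3 - x3)) (by
        intro i
        cases i
        · rw [h]; exact h2
        · exact h1)
    let I : AddSubgroup (GM →₀ ℤ) :=
      { carrier := {m | ∃ u v, m = (permRep GM GM gZ u - u) + (permRep GM GM gW v - v)}
        zero_mem' := ⟨0, 0, by simp⟩
        add_mem' := by
          rintro _ _ ⟨u, v, rfl⟩ ⟨u', v', rfl⟩
          exact ⟨u + u', v + v', by simp only [map_add]; abel⟩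
        neg_mem' := by
          rintro _ ⟨u, v, rfl⟩
          exact ⟨-u, -v, by simp only [map_neg]; abel⟩ }
    refine mem_of_mapDomain_eq_zero {gZ, gW} I ?_ πE ?_ _ h3
    · rintro s (rfl | rfl) x
      · exact ⟨single x 1, 0, by simp⟩
      · exact ⟨0, single x 1, by simp⟩
    · intro x y hxy
      rw [eq_comm, πE_eq_iff] at hxy
      obtain ⟨e, he⟩ := hxy
      exact ⟨ein e, range_ein_le ⟨e, rfl⟩, he⟩

/-- the augmentation ideal is generated by the six generators -/
theorem aug_perm (f : GM →₀ ℤ) (hf : f.sum (fun _ n => n) = 0) (I : AddSubgroup (GM →₀ ℤ))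
    (hI : ∀ m, permRep GM GM gA m - m ∈ I ∧ permRep GM GM gB m - m ∈ I ∧
      permRep GM GM gZ m - m ∈ I ∧ permRep GM GM gC m - m ∈ I ∧ permRep GM GM gD m - m ∈ I ∧
      permRep GM GM gW m - m ∈ I) : f ∈ I := by
  refine mem_of_mapDomain_eq_zero (gens true ∪ gens false) I ?_ (fun _ => ()) ?_ f ?_
  · intro s hs x
    have h := hI (single x 1)
    simp only [permRep_single, smul_eq_mul] at h ⊢
    obtain ⟨h1, h2, h3, h4, h5, h6⟩ := h
    rcases hs with (rfl | rfl | rfl) | (rfl | rfl | rfl)
    · exact h1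
    · exact h2
    · exact h3
    · exact h4
    · exact h5
    · exact h6
  · intro x y _
    exact ⟨y * x⁻¹, closure_gens _, by simp⟩
  · rw [Finsupp.mapDomain, ← Finsupp.single_zero (), ← hf, Finsupp.single_sum]

end Pool.Agent.Helper158
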