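import Mathlib

/-! (Copied from helper294.) A three-dimensional Poincare duality group (a Nil-manifold group) and a self-normalising
cyclic subgroup with infinite-index commensurator. -/

section part1
namespace Pool.Agent.Helper158.PD3Nil

/-- elements `z^a x^b t^c` of the group -/
@[ext] structure Nil where
  a : ℤ
  b : ℤ
  c : ℤ
deriving DecidableEq

/-- the sign `(-1)^c` -/
def sg (c : ℤ) : ℤ := ((Int.negOnePow c : ℤˣ) : ℤ)

lemma sg_add (c d : ℤ) : sg (c + d) = sg c * sg d := by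
  simp [sg, Int.negOnePow_add]

@[simp] lemma sg_zero : sg 0 = 1 := by simp [sg]
@[simp] lemma sg_one : sg 1 = -1 := by simp [sg]
lemma sg_mul_self (c : ℤ) : sg c * sg c = 1 := by
  rw [← sg_add, sg]
  have : Even (c + c) := ⟨c, rfl⟩
  rw [Int.negOnePow_even _ this]; rfl
@[simp] lemma sg_neg (c : ℤ) : sg (-c) = sg c := by simp [sg]

namespace Nil

instance : Mul Nil := ⟨fun g h => ⟨g.a + sg g.c * (h.a - g.c * h.b), g.b + sg g.c * h.b, g.c + h.c⟩⟩
instance : One Nil := ⟨⟨0, 0, 0⟩⟩
instance : Inv Nil := ⟨fun g => ⟨- sg g.c * (g.a + g.c * g.b), - sg g.c * g.b, -g.c⟩⟩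

@[simp] lemma mul_a (g h : Nil) : (g * h).a = g.a + sg g.c * (h.a - g.c * h.b) := rfl
@[simp] lemma mul_b (g h : Nil) : (g * h).b = g.b + sg g.c * h.b := rfl
@[simp] lemma mul_c (g h : Nil) : (g * h).c = g.c + h.c := rfl
@[simp] lemma one_a : (1 : Nil).a = 0 := rfl
@[simp] lemma one_b : (1 : Nil).b = 0 := rfl
@[simp] lemma one_c : (1 : Nil).c = 0 := rfl
@[simp] lemma inv_a (g : Nil) : (g⁻¹).a = - sg g.c * (g.a + g.c * g.b) := rfl
@[simp] lemma inv_b (g : Nil) : (g⁻¹).b = - sg g.c * g.b := rfl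
@[simp] lemma inv_c (g : Nil) : (g⁻¹).c = - g.c := rfl

instance : Group Nil := Group.ofLeftAxioms
  (by
    intro g h k
    ext
    · simp only [mul_a, mul_b, mul_c, sg_add]
      linear_combination (-(sg g.c * g.c * sg h.c * k.b)) * 0
    · simp only [mul_b, mul_c, sg_add]; ring
    · simp only [mul_c]; ring)
  (by
    intro g
    ext <;> simp)
  (by
    intro g
    have h := sg_mul_self g.c
    ext
    · simp only [mul_a, inv_a, inv_b, inv_c, sg_neg, one_a]; ring
    · simp only [mul_b, inv_b, inv_c, sg_neg, one_b]; ring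
    · simp)

end Nil

end Pool.Agent.Helper158.PD3Nil
end part1

section part2
namespace Pool.Agent.Helper158.PD3Nil

open Finsupp

/-- operators with the regular sequence property -/
structure Tower (M M1 M2 : Type) [AddCommGroup M] [AddCommGroup M1] [AddCommGroup M2] where
  D1 : M →+ M
  D2 : M →+ M
  D3 : M →+ M
  E2 : M1 →+ M1
  E3 : M2 →+ M2
  p1 : M →+ M1
  p2 : M1 →+ M2
  p3 : M2 →+ ℤ
  inj1 : Function.Injective D1
  inj2 : Function.Injective E2
  inj3 : Function.Injective E3
  z1 : ∀ m, p1 (D1 m) = 0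
  z2 : ∀ m, p2 (E2 m) = 0
  ex1 : ∀ m, p1 m = 0 → ∃ k, D1 k = m
  ex2 : ∀ m, p2 m = 0 → ∃ k, E2 k = m
  ex3 : ∀ m, p3 m = 0 → ∃ k, E3 k = m
  s1 : Function.Surjective p1
  s2 : Function.Surjective p2
  c2 : ∀ m, p1 (D2 m) = E2 (p1 m)
  c3 : ∀ m, p2 (p1 (D3 m)) = E3 (p2 (p1 m))

namespace Tower
variable {M M1 M2 : Type} [AddCommGroup M] [AddCommGroup M1] [AddCommGroup M2] (T : Tower M M1 M2)

include T

lemma r1 {m : M} (h : T.D1 m = 0) : m = 0 := T.inj1 (by rw [h, map_zero])

lemma r2 {m n : M} (h : T.D2 m = T.D1 n) : ∃ k, T.D1 k = m := by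
  apply T.ex1
  apply T.inj2
  rw [← T.c2, h, T.z1, map_zero]

lemma lift2 {m : M} (h : T.p2 (T.p1 m) = 0) : ∃ c d, m = T.D1 c + T.D2 d := by
  obtain ⟨u, hu⟩ := T.ex2 _ h
  obtain ⟨v, rfl⟩ := T.s1 u
  have : T.p1 (m - T.D2 v) = 0 := by rw [map_sub, T.c2, hu, sub_self]
  obtain ⟨w, hw⟩ := T.ex1 _ this
  exact ⟨w, v, by rw [hw]; abel⟩

lemma r3 {m a b : M} (h : T.D3 m = T.D1 a + T.D2 b) : ∃ c d, m = T.D1 c + T.D2 d := by
  apply T.lift2
  apply T.inj3
  rw [← T.c3, h, map_add, T.z1, zero_add, T.c2, T.z2, map_zero]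

lemma r4 {m : M} (h : T.p3 (T.p2 (T.p1 m)) = 0) : ∃ a b c, m = T.D1 a + T.D2 b + T.D3 c := by
  obtain ⟨u, hu⟩ := T.ex3 _ h
  obtain ⟨v, rfl⟩ := T.s2 u
  obtain ⟨w, rfl⟩ := T.s1 v
  have : T.p2 (T.p1 (m - T.D3 w)) = 0 := by rw [map_sub, map_sub, T.c3, hu, sub_self]
  obtain ⟨c, d, hcd⟩ := T.lift2 this
  exact ⟨c, d, w, by rw [← hcd]; abel⟩

end Tower

section shift
variable {S S' : Type}

/-- shift operator minus the identity -/
noncomputable def sh (σ : S → S) : (S →₀ ℤ) →+ (S →₀ ℤ) :=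
  Finsupp.mapDomain.addMonoidHom σ - AddMonoidHom.id _

lemma sh_apply (σ : S → S) (m : S →₀ ℤ) : sh σ m = mapDomain σ m - m := rfl

lemma sh_single (σ : S → S) (s : S) (r : ℤ) : sh σ (single s r) = single (σ s) r - single s r := by
  rw [sh_apply, mapDomain_single]

lemma sh_injective (σ : S → S) (hσ : Function.Injective σ) (n : S → ℤ) (hn : ∀ s, n (σ s) = n s + 1) :
    Function.Injective (sh σ) := by
  rw [injective_iff_map_eq_zero]
  intro m hm
  rw [sh_apply, sub_eq_zero] at hm
  by_contra hne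
  have hs : m.support.Nonempty := support_nonempty_iff.2 hne
  obtain ⟨s, hs1, hs2⟩ := Finset.exists_max_image m.support n hs
  have h1 : m (σ s) ≠ 0 := by
    rw [← hm, mapDomain_apply hσ]
    exact mem_support_iff.1 hs1
  have h2 := hs2 _ (mem_support_iff.2 h1)
  rw [hn] at h2
  lia

lemma sh_ker (σ : Equiv.Perm S) (π : S → S') (ι : S' → S) (n : S → ℤ)
    (h : ∀ s, s = (σ ^ n s) (ι (π s))) (m : S →₀ ℤ) (hm : mapDomain π m = 0) :
    ∃ k, sh σ k = m := by
  have key : ∀ m : S →₀ ℤ, ∃ k, sh σ k = m - mapDomain ι (mapDomain π m) := by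
    intro m
    induction m using Finsupp.induction_linear with
    | zero => exact ⟨0, by simp⟩
    | add f g hf hg =>
      obtain ⟨k, hk⟩ := hf
      obtain ⟨l, hl⟩ := hg
      exact ⟨k + l, by rw [map_add, hk, hl, mapDomain_add, mapDomain_add]; abel⟩
    | single s r =>
      rw [mapDomain_single, mapDomain_single]
      have hz : ∀ j : ℤ, ∀ u : S, ∃ k, sh σ k = single ((σ ^ j) u) r - single u r := by
        intro j u
        induction j using Int.induction_on with
        | zero => exact ⟨0, by simp⟩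
        | succ j ih =>
          obtain ⟨k, hk⟩ := ih
          refine ⟨k + single ((σ ^ (j : ℤ)) u) r, ?_⟩
          rw [map_add, hk, sh_single, add_comm (j : ℤ) 1, zpow_add, zpow_one]
          simp
        | pred j ih =>
          obtain ⟨k, hk⟩ := ih
          refine ⟨k - single ((σ ^ (-(j : ℤ) - 1)) u) r, ?_⟩
          have : σ ((σ ^ (-(j : ℤ) - 1)) u) = (σ ^ (-(j : ℤ))) u := by
            rw [← Equiv.Perm.mul_apply, ← zpow_one_add]
            congr 2
            ring
          rw [map_sub, hk, sh_single, this]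
          abel
      obtain ⟨k, hk⟩ := hz (n s) (ι (π s))
      rw [← h s] at hk
      exact ⟨k, hk⟩
  obtain ⟨k, hk⟩ := key m
  exact ⟨k, by rw [hk, hm]; simp⟩

lemma sh_ker' (σ : Equiv.Perm S) (π : S → S') (ι : S' → S) (n : S → ℤ)
    (h1 : ∀ s, n (σ s) = n s + 1) (h2 : ∀ s, π (σ s) = π s) (h3 : ∀ y, n (ι y) = 0)
    (h4 : ∀ y, π (ι y) = y) (h5 : ∀ s u, π s = π u → n s = n u → s = u)
    (m : S →₀ ℤ) (hm : mapDomain π m = 0) : ∃ k, sh σ k = m := by
  have a1 : ∀ (j : ℤ) (u : S), n ((σ ^ j) u) = n u + j ∧ π ((σ ^ j) u) = π u := by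
    intro j u
    induction j using Int.induction_on with
    | zero => simp
    | succ j ih =>
      have : (σ ^ ((j : ℤ) + 1)) u = σ ((σ ^ (j : ℤ)) u) := by
        rw [← Equiv.Perm.mul_apply, ← zpow_one_add, add_comm]
      rw [this, h1, h2, ih.1, ih.2]
      exact ⟨by ring, rfl⟩
    | pred j ih =>
      have : σ ((σ ^ (-(j : ℤ) - 1)) u) = (σ ^ (-(j : ℤ))) u := by
        rw [← Equiv.Perm.mul_apply, ← zpow_one_add]
        congr 2
        ring
      rw [← this, h1, h2] at ih
      exact ⟨by linarith [ih.1], ih.2⟩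
  apply sh_ker σ π ι n _ m hm
  intro s
  apply h5
  · rw [(a1 _ _).2, h4]
  · rw [(a1 _ _).1, h3, zero_add]

lemma map_sh (σ : S → S) (π : S → S') (h : ∀ s, π (σ s) = π s) (m : S →₀ ℤ) :
    mapDomain π (sh σ m) = 0 := by
  rw [sh_apply]
  have : mapDomain π (mapDomain σ m - m) = mapDomain π (mapDomain σ m) - mapDomain π m :=
    map_sub (Finsupp.mapDomain.addMonoidHom π) _ _
  rw [this, ← mapDomain_comp]
  have h2 : π ∘ σ = π := funext h
  rw [h2, sub_self]

lemma map_sh_comm (σ : S → S) (σ' : S' → S') (π : S → S') (h : ∀ s, π (σ s) = σ' (π s)) (m : S →₀ ℤ) :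
    mapDomain π (sh σ m) = sh σ' (mapDomain π m) := by
  rw [sh_apply, sh_apply]
  have : mapDomain π (mapDomain σ m - m) = mapDomain π (mapDomain σ m) - mapDomain π m :=
    map_sub (Finsupp.mapDomain.addMonoidHom π) _ _
  rw [this, ← mapDomain_comp, ← mapDomain_comp]
  have h2 : π ∘ σ = σ' ∘ π := funext h
  rw [h2]

end shift

end Pool.Agent.Helper158.PD3Nil
end part2

section part3
namespace Pool.Agent.Helper158.PD3Nil

open Finsupp

abbrev R : Type := MonoidAlgebra ℤ Nil

def zz : Nil := ⟨1, 0, 0⟩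
def xx : Nil := ⟨0, 1, 0⟩
def tt : Nil := ⟨0, 0, 1⟩

@[simp] lemma zz_a : zz.a = 1 := rfl
@[simp] lemma zz_b : zz.b = 0 := rfl
@[simp] lemma zz_c : zz.c = 0 := rfl
@[simp] lemma xx_a : xx.a = 0 := rfl
@[simp] lemma xx_b : xx.b = 1 := rfl
@[simp] lemma xx_c : xx.c = 0 := rfl
@[simp] lemma tt_a : tt.a = 0 := rfl
@[simp] lemma tt_b : tt.b = 0 := rfl
@[simp] lemma tt_c : tt.c = 1 := rfl

/-- group elements in the group ring -/
noncomputable def el (g : Nil) : R := MonoidAlgebra.single g 1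

lemma el_mul (g h : Nil) : el g * el h = el (g * h) := by
  simp [el, MonoidAlgebra.single_mul_single]

lemma el_one : el 1 = 1 := rfl

lemma coeff_el_mul (g : Nil) (m : R) : (el g * m).coeff = mapDomain (fun h => g * h) m.coeff := by
  induction m using MonoidAlgebra.induction_linear with
  | zero => simp
  | add x y hx hy => rw [mul_add, MonoidAlgebra.coeff_add, hx, hy, MonoidAlgebra.coeff_add, mapDomain_add]
  | single h r => simp [el, MonoidAlgebra.single_mul_single, mapDomain_single]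

lemma coeff_mul_el (g : Nil) (m : R) : (m * el g).coeff = mapDomain (fun h => h * g) m.coeff := by
  induction m using MonoidAlgebra.induction_linear with
  | zero => simp
  | add x y hx hy => rw [add_mul, MonoidAlgebra.coeff_add, hx, hy, MonoidAlgebra.coeff_add, mapDomain_add]
  | single h r => simp [el, MonoidAlgebra.single_mul_single, mapDomain_single]

/-- left multiplication by `g - 1` -/
noncomputable def dl (g : Nil) : R →+ R := AddMonoidHom.mulLeft (el g - 1)
/-- right multiplication by `g - 1` -/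
noncomputable def dr (g : Nil) : R →+ R := AddMonoidHom.mulRight (el g - 1)

lemma dl_apply (g : Nil) (m : R) : dl g m = (el g - 1) * m := rfl
lemma dr_apply (g : Nil) (m : R) : dr g m = m * (el g - 1) := rfl

lemma coeff_dl (g : Nil) (m : R) : (dl g m).coeff = sh (fun h => g * h) m.coeff := by
  rw [dl_apply, sub_mul, one_mul, sh_apply, ← coeff_el_mul]; rfl

lemma coeff_dr (g : Nil) (m : R) : (dr g m).coeff = sh (fun h => h * g) m.coeff := by
  rw [dr_apply, mul_sub, mul_one, sh_apply, ← coeff_mul_el]; rfl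

noncomputable def q1 : R →+ (ℤ × ℤ →₀ ℤ) :=
  (mapDomain.addMonoidHom (fun g : Nil => (g.b, g.c))).comp MonoidAlgebra.coeffAddEquiv.toAddMonoidHom

noncomputable def q2 : (ℤ × ℤ →₀ ℤ) →+ (ℤ →₀ ℤ) := mapDomain.addMonoidHom (fun p : ℤ × ℤ => p.2)

noncomputable def q3 : (ℤ →₀ ℤ) →+ ℤ :=
  (applyAddHom ()).comp (mapDomain.addMonoidHom (fun _ : ℤ => ()))

lemma q1_apply (m : R) : q1 m = mapDomain (fun g : Nil => (g.b, g.c)) m.coeff := rfl
lemma q2_apply (m : ℤ × ℤ →₀ ℤ) : q2 m = mapDomain (fun p : ℤ × ℤ => p.2) m := rfl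
lemma q3_apply (m : ℤ →₀ ℤ) : q3 m = mapDomain (fun _ : ℤ => ()) m () := rfl

lemma q3_eq_zero {m : ℤ →₀ ℤ} (h : q3 m = 0) : mapDomain (fun _ : ℤ => ()) m = 0 := by
  ext; exact h

lemma q1_surj : Function.Surjective q1 := by
  intro m
  refine ⟨MonoidAlgebra.ofCoeff (mapDomain (fun p : ℤ × ℤ => (⟨0, p.1, p.2⟩ : Nil)) m), ?_⟩
  rw [q1_apply, MonoidAlgebra.coeff_ofCoeff, ← mapDomain_comp]
  exact mapDomain_id

lemma q2_surj : Function.Surjective q2 := by
  intro m
  refine ⟨mapDomain (fun c : ℤ => ((0 : ℤ), c)) m, ?_⟩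
  rw [q2_apply, ← mapDomain_comp]
  exact mapDomain_id

lemma ex_three (m : ℤ →₀ ℤ) (h : q3 m = 0) : ∃ k, sh (fun c : ℤ => c + 1) k = m := by
  exact sh_ker' (Equiv.addRight (1 : ℤ)) (fun _ => ()) (fun _ => 0) (fun c => c) (fun s => rfl)
    (fun s => rfl) (fun _ => rfl) (fun _ => rfl) (fun s u _ h => h) m (q3_eq_zero h)

lemma el_ext {m n : R} (h : m.coeff = n.coeff) : m = n := MonoidAlgebra.coeff_inj.1 h

/-- the tower for left multiplication -/
noncomputable def TL : Tower R (ℤ × ℤ →₀ ℤ) (ℤ →₀ ℤ) where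
  D1 := dl zz
  D2 := dl xx
  D3 := dl tt
  E2 := sh (fun p => (p.1 + 1, p.2))
  E3 := sh (fun c => c + 1)
  p1 := q1
  p2 := q2
  p3 := q3
  inj1 := by
    intro m n h
    apply el_ext
    apply sh_injective (fun h => zz * h) (mul_right_injective zz) (fun g => g.a)
      (by intro s; simp; ring)
    rw [← coeff_dl, ← coeff_dl, h]
  inj2 := sh_injective _ (by rintro ⟨a, b⟩ ⟨c, d⟩ h; simpa using h) (fun p => p.1) (fun _ => rfl)
  inj3 := sh_injective _ (add_left_injective 1) (fun c => c) (fun _ => rfl)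
  z1 m := by rw [q1_apply, coeff_dl]; exact map_sh _ _ (by intro s; simp) _
  z2 m := by rw [q2_apply]; exact map_sh _ _ (by intro s; rfl) _
  ex1 m hm := by
    obtain ⟨k, hk⟩ := sh_ker' (Equiv.mulLeft zz) (fun g : Nil => (g.b, g.c)) (fun p => ⟨0, p.1, p.2⟩)
      (fun g => g.a) (by intro s; simp; ring) (by intro s; simp) (fun _ => rfl) (fun _ => rfl)
      (by
        intro s u h1 h2
        simp only [Prod.mk.injEq] at h1
        exact Nil.ext h2 h1.1 h1.2) m.coeff hm
    exact ⟨MonoidAlgebra.ofCoeff k, el_ext (by rw [coeff_dl]; exact hk)⟩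
  ex2 m hm := by
    exact sh_ker' (S := ℤ × ℤ) ((Equiv.addRight (1 : ℤ)).prodCongr (Equiv.refl ℤ)) (fun p => p.2) (fun c => (0, c))
      (fun p => p.1) (fun s => rfl) (fun s => rfl) (fun _ => rfl) (fun _ => rfl)
      (fun s u h1 h2 => Prod.ext h2 h1) m hm
  ex3 := ex_three
  s1 := q1_surj
  s2 := q2_surj
  c2 m := by rw [q1_apply, q1_apply, coeff_dl]; exact map_sh_comm _ _ _ (by intro s; simp [add_comm]) _
  c3 m := by
    rw [q1_apply, q1_apply, q2_apply, q2_apply, coeff_dl, ← mapDomain_comp, ← mapDomain_comp]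
    exact map_sh_comm _ _ _ (by intro s; simp [add_comm]) _

/-- the tower for right multiplication -/
noncomputable def TR : Tower R (ℤ × ℤ →₀ ℤ) (ℤ →₀ ℤ) where
  D1 := dr zz
  D2 := dr xx
  D3 := dr tt
  E2 := sh (fun p => (p.1 + sg p.2, p.2))
  E3 := sh (fun c => c + 1)
  p1 := q1
  p2 := q2
  p3 := q3
  inj1 := by
    intro m n h
    apply el_ext
    apply sh_injective (fun h => h * zz) (mul_left_injective zz) (fun g => sg g.c * g.a)
      (by intro s; have := sg_mul_self s.c; simp; linear_combination this)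
    rw [← coeff_dr, ← coeff_dr, h]
  inj2 := sh_injective _ (by
      rintro ⟨a, b⟩ ⟨c, d⟩ h
      simp only [Prod.mk.injEq] at h
      obtain ⟨h1, rfl⟩ := h
      simpa using h1) (fun p => sg p.2 * p.1)
    (by intro s; have := sg_mul_self s.2; linear_combination this)
  inj3 := sh_injective _ (add_left_injective 1) (fun c => c) (fun _ => rfl)
  z1 m := by rw [q1_apply, coeff_dr]; exact map_sh _ _ (by intro s; simp) _
  z2 m := by rw [q2_apply]; exact map_sh _ _ (by intro s; rfl) _
  ex1 m hm := by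
    obtain ⟨k, hk⟩ := sh_ker' (Equiv.mulRight zz) (fun g : Nil => (g.b, g.c)) (fun p => ⟨0, p.1, p.2⟩)
      (fun g => sg g.c * g.a) (by intro s; have := sg_mul_self s.c; simp; linear_combination this)
      (by intro s; simp) (fun _ => by simp) (fun _ => rfl)
      (by
        intro s u h1 h2
        simp only [Prod.mk.injEq] at h1
        have h3 : s.a = u.a := by
          have e1 := sg_mul_self s.c
          rw [← h1.2] at h2
          linear_combination sg s.c * h2 - (s.a - u.a) * e1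
        exact Nil.ext h3 h1.1 h1.2) m.coeff hm
    exact ⟨MonoidAlgebra.ofCoeff k, el_ext (by rw [coeff_dr]; exact hk)⟩
  ex2 m hm := by
    let σ : Equiv.Perm (ℤ × ℤ) :=
      { toFun := fun p => (p.1 + sg p.2, p.2)
        invFun := fun p => (p.1 - sg p.2, p.2)
        left_inv := fun p => by simp
        right_inv := fun p => by simp }
    exact sh_ker' σ (fun p => p.2) (fun c => (0, c))
      (fun p => sg p.2 * p.1) (by intro s; have := sg_mul_self s.2; simp only [σ, Equiv.coe_fn_mk]; linear_combination this)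
      (fun s => rfl) (fun _ => by simp) (fun _ => rfl)
      (by
        intro s u h1 h2
        have h3 : s.1 = u.1 := by
          have e1 := sg_mul_self s.2
          rw [← h1] at h2
          linear_combination sg s.2 * h2 - (s.1 - u.1) * e1
        exact Prod.ext h3 h1) m hm
  ex3 := ex_three
  s1 := q1_surj
  s2 := q2_surj
  c2 m := by rw [q1_apply, q1_apply, coeff_dr]; exact map_sh_comm _ _ _ (by intro s; simp) _
  c3 m := by
    rw [q1_apply, q1_apply, q2_apply, q2_apply, coeff_dr, ← mapDomain_comp, ← mapDomain_comp]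
    exact map_sh_comm _ _ _ (by intro s; simp) _

end Pool.Agent.Helper158.PD3Nil
end part3

section part4
namespace Pool.Agent.Helper158.PD3Nil

noncomputable def Z : R := el zz
noncomputable def Zi : R := el zz⁻¹
noncomputable def X : R := el xx
noncomputable def Xi : R := el xx⁻¹
noncomputable def T : R := el tt

lemma Z_Zi : Z * Zi = 1 := by rw [Z, Zi, el_mul, mul_inv_cancel, el_one]
lemma Zi_Z : Zi * Z = 1 := by rw [Z, Zi, el_mul, inv_mul_cancel, el_one]
lemma X_Xi : X * Xi = 1 := by rw [X, Xi, el_mul, mul_inv_cancel, el_one]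
lemma Xi_X : Xi * X = 1 := by rw [X, Xi, el_mul, inv_mul_cancel, el_one]
lemma X_Z : X * Z = Z * X := by rw [Z, X, el_mul, el_mul]; congr 1
lemma T_Z : T * Z = Zi * T := by rw [Z, Zi, T, el_mul, el_mul]; congr 1
lemma T_X : T * X = Xi * Z * T := by rw [X, Xi, Z, T, el_mul, el_mul, el_mul]; congr 1
lemma X_Zi : X * Zi = Zi * X := by rw [Zi, X, el_mul, el_mul]; congr 1
lemma Z_Xi : Z * Xi = Xi * Z := by rw [Z, Xi, el_mul, el_mul]; congr 1
lemma Zi_Xi : Zi * Xi = Xi * Zi := by rw [Zi, Xi, el_mul, el_mul]; congr 1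

lemma Z_Zi' (w : R) : Z * (Zi * w) = w := by rw [← mul_assoc, Z_Zi, one_mul]
lemma Zi_Z' (w : R) : Zi * (Z * w) = w := by rw [← mul_assoc, Zi_Z, one_mul]
lemma X_Xi' (w : R) : X * (Xi * w) = w := by rw [← mul_assoc, X_Xi, one_mul]
lemma Xi_X' (w : R) : Xi * (X * w) = w := by rw [← mul_assoc, Xi_X, one_mul]

lemma I1 : (T + Zi) * (Z - 1) + (1 - Zi) * (T - 1) = 0 := by
  linear_combination (norm := noncomm_ring) T_Z + Zi_Z
lemma I2 : -Xi * (Z - 1) + (T + Xi) * (X - 1) + (1 - Xi * Z) * (T - 1) = 0 := by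
  linear_combination (norm := noncomm_ring) T_X + Xi_X
lemma I3 : (X - 1) * (Z - 1) = (Z - 1) * (X - 1) := by
  linear_combination (norm := noncomm_ring) X_Z
lemma I4 : (T - Zi * Xi) * (X - 1) + (1 - Xi * Z) * (T + Zi) - (Zi - 1) * Xi = 0 := by
  linear_combination (norm := noncomm_ring) T_X - Zi * Xi_X - Xi * Z_Zi
lemma I5 : -(T - Zi * Xi) * (Z - 1) + (Zi - 1) * (T + Xi) = 0 := by
  linear_combination (norm := noncomm_ring) -T_Z - Zi * Z_Xi + Zi_Z * Xi
lemma I6 : (1 - Xi * Z) * (1 - Zi) + (Zi - 1) * (1 - Xi * Z) = 0 := by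
  linear_combination (norm := noncomm_ring) Xi * Z_Zi - Zi_Xi * Z - Xi * Zi_Z

/-! ### right multiplication: exactness of the resolution -/

/-- the augmentation -/
noncomputable def aug : R →+ ℤ := q3.comp (q2.comp q1)

lemma rr1 {m : R} (h : m * (Z - 1) = 0) : m = 0 := TR.r1 h
lemma rr2 {m n : R} (h : m * (X - 1) = n * (Z - 1)) : ∃ k, m = k * (Z - 1) := by
  obtain ⟨k, hk⟩ := TR.r2 (m := m) (n := n) h
  exact ⟨k, hk.symm⟩
lemma rr3 {m a b : R} (h : m * (T - 1) = a * (Z - 1) + b * (X - 1)) :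
    ∃ c d, m = c * (Z - 1) + d * (X - 1) := TR.r3 (m := m) (a := a) (b := b) h
lemma rr4 {m : R} (h : aug m = 0) : ∃ a b c, m = a * (Z - 1) + b * (X - 1) + c * (T - 1) :=
  TR.r4 (m := m) h

lemma ll1 {m : R} (h : (Z - 1) * m = 0) : m = 0 := TL.r1 h
lemma ll2 {m n : R} (h : (X - 1) * m = (Z - 1) * n) : ∃ k, m = (Z - 1) * k := by
  obtain ⟨k, hk⟩ := TL.r2 (m := m) (n := n) h
  exact ⟨k, hk.symm⟩
lemma ll3 {m a b : R} (h : (T - 1) * m = (Z - 1) * a + (X - 1) * b) :
    ∃ c d, m = (Z - 1) * c + (X - 1) * d := TL.r3 (m := m) (a := a) (b := b) h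
lemma ll4 {m : R} (h : aug m = 0) : ∃ a b c, m = (Z - 1) * a + (X - 1) * b + (T - 1) * c :=
  TL.r4 (m := m) h

lemma exF1 {a b c : R} (h : a * (Z - 1) + b * (X - 1) + c * (T - 1) = 0) :
    ∃ e1 e2 e3, a = e1 * (X - 1) + e2 * (T + Zi) - e3 * Xi ∧ b = -e1 * (Z - 1) + e3 * (T + Xi) ∧
      c = e2 * (1 - Zi) + e3 * (1 - Xi * Z) := by
  obtain ⟨c1, c2, hc⟩ := rr3 (m := c) (a := -a) (b := -b) (by
    linear_combination (norm := noncomm_ring) h)
  have hc' : c = ((c1 + c2) * Z) * (1 - Zi) + (c2 * X) * (1 - Xi * Z) := by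
    linear_combination (norm := noncomm_ring) hc + (c1 + c2) * Z_Zi + c2 * X_Xi * Z
  set e2 := (c1 + c2) * Z
  set e3 := c2 * X
  obtain ⟨k, hk⟩ := rr2 (m := b - e3 * (T + Xi)) (n := -(a - e2 * (T + Zi) + e3 * Xi)) (by
    linear_combination (norm := noncomm_ring) h - hc' * (T - 1) - e2 * I1 - e3 * I2)
  have h1 : a - e2 * (T + Zi) + e3 * Xi + k * (X - 1) = 0 := by
    apply rr1
    linear_combination (norm := noncomm_ring) h - hc' * (T - 1) - e2 * I1 - e3 * I2 - hk * (X - 1) + k * I3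
  refine ⟨-k, e2, e3, ?_, ?_, hc'⟩
  · linear_combination (norm := noncomm_ring) h1
  · linear_combination (norm := noncomm_ring) hk

lemma exF2 {e1 e2 e3 : R} (h1 : e1 * (X - 1) + e2 * (T + Zi) - e3 * Xi = 0)
    (h2 : -e1 * (Z - 1) + e3 * (T + Xi) = 0) (h3 : e2 * (1 - Zi) + e3 * (1 - Xi * Z) = 0) :
    ∃ f, e1 = f * (T - Zi * Xi) ∧ e2 = f * (1 - Xi * Z) ∧ e3 = f * (Zi - 1) := by
  obtain ⟨g, hg⟩ := rr2 (m := e3 * Xi) (n := -e2 * Zi + e3 * Xi) (by
    linear_combination (norm := noncomm_ring) h3 + e3 * Xi_X + e2 * Zi_Z)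
  have h4 : e3 = (-g * X * Z) * (Zi - 1) := by
    linear_combination (norm := noncomm_ring) hg * X - e3 * Xi_X - g * X_Z + g * X * Z_Zi
  set f := -g * X * Z
  have h5 : e2 - f * (1 - Xi * Z) = 0 := by
    apply rr1
    linear_combination (norm := noncomm_ring) h3 * Z - h4 * (1 - Xi * Z) * Z + e2 * Zi_Z - f * I6 * Z - f * (1 - Xi * Z) * Zi_Z
  have h6 : e1 - f * (T - Zi * Xi) = 0 := by
    apply rr1
    linear_combination (norm := noncomm_ring) -h2 + h4 * (T + Xi) + f * I5
  exact ⟨f, by linear_combination (norm := noncomm_ring) h6, by linear_combination (norm := noncomm_ring) h5, h4⟩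

lemma exF3 {f : R} (h : f * (Zi - 1) = 0) : f = 0 := by
  apply rr1
  linear_combination (norm := noncomm_ring) -h * Z + f * Zi_Z

/-! ### left multiplication: the dual complex -/

lemma coC1 {a b c : R} (h1 : (X - 1) * a - (Z - 1) * b = 0) (h2 : (T + Zi) * a + (1 - Zi) * c = 0) :
    ∃ m, a = (Z - 1) * m ∧ b = (X - 1) * m ∧ c = (T - 1) * m := by
  obtain ⟨m, hm⟩ := ll2 (m := a) (n := b) (by linear_combination (norm := noncomm_ring) h1)
  have h3 : b - (X - 1) * m = 0 := by
    apply ll1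
    linear_combination (norm := noncomm_ring) -h1 + (X - 1) * hm + I3 * m
  have h4 : c - (T - 1) * m = 0 := by
    apply ll1
    linear_combination (norm := noncomm_ring) Z * h2 - Z * (T + Zi) * hm - Z * I1 * m + Z_Zi * (c - (T - 1) * m)
  exact ⟨m, hm, by linear_combination (norm := noncomm_ring) h3, by linear_combination (norm := noncomm_ring) h4⟩

lemma E1 : Zi * Xi - 1 = -(X - 1) * (Zi * Xi) - (Z - 1) * Zi := by
  linear_combination (norm := noncomm_ring) X_Zi * Xi + Zi * X_Xi + Z_Zi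

lemma E2 : 1 - Xi * Z = (X - 1) * Xi - (Z - 1) * Xi := by
  linear_combination (norm := noncomm_ring) - X_Xi + Z_Xi

lemma coC2 {e1 e2 e3 : R} (h : (T - Zi * Xi) * e1 + (1 - Xi * Z) * e2 + (Zi - 1) * e3 = 0) :
    ∃ a b c, e1 = (X - 1) * a - (Z - 1) * b ∧ e2 = (T + Zi) * a + (1 - Zi) * c ∧
      e3 = -Xi * a + (T + Xi) * b + (1 - Xi * Z) * c := by
  obtain ⟨c', a, h1⟩ := ll3 (m := e1) (a := -Zi * e1 + Xi * e2 + Zi * e3) (b := -Zi * Xi * e1 - Xi * e2) (by
    linear_combination (norm := noncomm_ring) h + E1 * e1 - E2 * e2 - Z_Zi * e3)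
  set b := -c' with hb
  have h1' : e1 = (X - 1) * a - (Z - 1) * b := by rw [hb]; linear_combination (norm := noncomm_ring) h1
  -- reduced elements
  obtain ⟨g, hg⟩ := ll2 (m := Xi * (e2 - (T + Zi) * a))
    (n := Zi * (e3 + Xi * a - (T + Xi) * b) + Xi * (e2 - (T + Zi) * a)) (by
    linear_combination (norm := noncomm_ring) h - (T - Zi * Xi) * h1' - I4 * a - I5 * b
      - E2 * (e2 - (T + Zi) * a) - Z_Zi * (e3 + Xi * a - (T + Xi) * b))
  have h2 : e2 - (T + Zi) * a = (1 - Zi) * (Z * X * g) := by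
    linear_combination (norm := noncomm_ring) X * hg - X_Xi * (e2 - (T + Zi) * a) + X_Z * g + Zi_Z * X * g
  set c := Z * X * g
  have h3 : e3 + Xi * a - (T + Xi) * b - (1 - Xi * Z) * c = 0 := by
    apply ll1
    linear_combination (norm := noncomm_ring) -(Z * (h - (T - Zi * Xi) * h1' - I4 * a - I5 * b - (1 - Xi * Z) * h2 - I6 * c))
      + Z_Zi * (e3 + Xi * a - (T + Xi) * b - (1 - Xi * Z) * c)
  exact ⟨a, b, c, h1', by linear_combination (norm := noncomm_ring) h2, by linear_combination (norm := noncomm_ring) h3⟩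

lemma coC3 {m : R} (h : aug m = 0) :
    ∃ e1 e2 e3, m = (T - Zi * Xi) * e1 + (1 - Xi * Z) * e2 + (Zi - 1) * e3 := by
  obtain ⟨a, b, c, hm⟩ := ll4 h
  refine ⟨c, X * (b - Zi * Xi * c), -Z * (a - Zi * c + (b - Zi * Xi * c)), ?_⟩
  linear_combination (norm := noncomm_ring) hm + X_Zi * Xi * c + Zi * X_Xi * c + Z_Zi * c
    + Xi_X * Z * (b - Zi * Xi * c) - Xi * X_Z * (b - Zi * Xi * c)
    + Zi_Z * (a - Zi * c + (b - Zi * Xi * c))

end Pool.Agent.Helper158.PD3Nil
end part4

section part5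
namespace Pool.Agent.Helper158.PD3Nil

open CategoryTheory Finsupp

section general

variable {k G : Type} [CommRing k] [Group G]

/-! ### modules given by matrices -/

lemma freeLift_apply {α : Type} [Fintype α] {V : Type} [AddCommGroup V] [Module k V]
    (σ : Representation k G V) (F : α → V) (f : α →₀ MonoidAlgebra k G) :
    Representation.freeLift σ F f = ∑ i, σ.asAlgebraHom (f i) (F i) := by
  classical
  induction f using Finsupp.induction_linear with
  | zero => simp
  | add f g hf hg => simp [hf, hg, Finset.sum_add_distrib]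
  | single i r =>
    rw [Finset.sum_eq_single i]
    · rw [Finsupp.single_eq_same]
      induction r using MonoidAlgebra.induction_linear with
      | zero => simp
      | add x y hx hy => rw [Finsupp.single_add, map_add, hx, hy, map_add]; rfl
      | single g r => rw [Representation.freeLift_single_single, Representation.asAlgebraHom_single]; rfl
    · intro j _ hj
      rw [Finsupp.single_eq_of_ne hj, map_zero]; rfl
    · intro h; exact absurd (Finset.mem_univ i) h

lemma free_asAlgebraHom_apply {α : Type} (r : MonoidAlgebra k G) (w : α →₀ MonoidAlgebra k G) (j : α) :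
    ((Representation.free k G α).asAlgebraHom r w) j = r * w j := by
  induction r using MonoidAlgebra.induction_linear with
  | zero => simp
  | add x y hx hy => rw [map_add, LinearMap.add_apply, Finsupp.add_apply, hx, hy, add_mul]
  | single g r =>
    rw [Representation.asAlgebraHom_single, LinearMap.smul_apply, Finsupp.smul_apply]
    induction w using Finsupp.induction_linear with
    | zero => simp
    | add u v hu hv =>
      rw [map_add, Finsupp.add_apply, smul_add, hu, hv, Finsupp.add_apply, mul_add]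
    | single i s =>
      rw [Representation.finsupp_single]
      by_cases h : j = i
      · subst h
        rw [Finsupp.single_eq_same, Finsupp.single_eq_same]
        induction s using MonoidAlgebra.induction_linear with
        | zero => simp
        | add x y hx hy => rw [map_add, smul_add, hx, hy, mul_add]
        | single h s => simp [MonoidAlgebra.single_mul_single]
      · rw [Finsupp.single_eq_of_ne h, Finsupp.single_eq_of_ne h]; simp

variable (m : ℕ → ℕ) (A : ∀ n, Fin (m (n + 1)) → Fin (m n) → MonoidAlgebra k G)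

variable (k G) in
/-- free module of rank `m n` -/
noncomputable abbrev XX (n : ℕ) : Rep k G := Rep.free k G (Fin (m n))

noncomputable def row (n : ℕ) (i : Fin (m (n + 1))) : Fin (m n) →₀ MonoidAlgebra k G :=
  Finsupp.equivFunOnFinite.symm (A n i)

lemma row_apply (n : ℕ) (i : Fin (m (n + 1))) (j : Fin (m n)) : row m A n i j = A n i j := rfl

/-- the differential -/
noncomputable def dd (n : ℕ) : XX k G m (n + 1) ⟶ XX k G m n := Rep.freeLift k G _ (row m A n)

lemma dd_apply (n : ℕ) (f : Fin (m (n + 1)) →₀ MonoidAlgebra k G) (j : Fin (m n)) :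
    ((dd m A n).hom f) j = ∑ i, f i * A n i j := by
  have h : (dd m A n).hom f = ∑ i, (Representation.free k G (Fin (m n))).asAlgebraHom (f i) (row m A n i) :=
    freeLift_apply (Representation.free k G (Fin (m n))) (row m A n) f
  rw [h, Finsupp.finsetSum_apply]
  refine Finset.sum_congr rfl fun i _ => ?_
  rw [free_asAlgebraHom_apply, row_apply]

lemma dd_single (n : ℕ) (i : Fin (m (n + 1))) (j : Fin (m n)) :
    ((dd m A n).hom (single i (MonoidAlgebra.single 1 1))) j = A n i j := by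
  rw [dd_apply, Finset.sum_eq_single i]
  · rw [Finsupp.single_eq_same]; exact one_mul _
  · intro l _ hl
    rw [Finsupp.single_eq_of_ne hl, zero_mul]
  · intro h; exact absurd (Finset.mem_univ i) h

lemma dd_dd (hA : ∀ n i l, ∑ j, A (n + 1) i j * A n j l = 0) (n : ℕ) :
    dd m A (n + 1) ≫ dd m A n = 0 := by
  apply Rep.free_ext
  intro i
  ext l : 1
  change ((dd m A n).hom ((dd m A (n + 1)).hom (single i (MonoidAlgebra.single 1 1)))) l = 0
  rw [dd_apply]
  have : ∀ j, ((dd m A (n + 1)).hom (single i (MonoidAlgebra.single 1 1))) j = A (n + 1) i j :=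
    dd_single m A (n + 1) i
  simp_rw [this]
  exact hA n i l

/-- the chain complex -/
noncomputable abbrev cx (hA : ∀ n i l, ∑ j, A (n + 1) i j * A n j l = 0) : ChainComplex (Rep k G) ℕ :=
  ChainComplex.of (XX k G m) (dd m A) (dd_dd m A hA)

lemma cx_d (hA : ∀ n i l, ∑ j, A (n + 1) i j * A n j l = 0) (n : ℕ) :
    (cx m A hA).d (n + 1) n = dd m A n := ChainComplex.of_d _ _ _

variable (k G) in
/-- the augmentation on the degree zero module -/
noncomputable def eps : XX k G m 0 ⟶ Rep.trivial k G k := Rep.freeLift k G _ (fun _ => (1 : k))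

variable (k G) in
/-- augmentation of the group ring -/
noncomputable def ag (r : MonoidAlgebra k G) : k := (Representation.trivial k G k).asAlgebraHom r 1

lemma eps_apply (f : Fin (m 0) →₀ MonoidAlgebra k G) : (eps k G m).hom f = ∑ i, ag k G (f i) := 
  freeLift_apply (Representation.trivial k G k) (fun _ => (1 : k)) f

lemma dd_eps (h0 : ∀ i, ∑ j, ag k G (A 0 i j) = 0) : dd m A 0 ≫ eps k G m = 0 := by
  apply Rep.free_ext
  intro i
  change (eps k G m).hom ((dd m A 0).hom (single i (MonoidAlgebra.single 1 1))) = 0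
  rw [eps_apply]
  have : ∀ j, ((dd m A 0).hom (single i (MonoidAlgebra.single 1 1))) j = A 0 i j :=
    dd_single m A 0 i
  simp_rw [this]
  exact h0 i

noncomputable def resπ (hA : ∀ n i l, ∑ j, A (n + 1) i j * A n j l = 0)
    (h0 : ∀ i, ∑ j, ag k G (A 0 i j) = 0) :
    cx m A hA ⟶ (ChainComplex.single₀ (Rep k G)).obj (Rep.trivial k G k) :=
  ((cx m A hA).toSingle₀Equiv _).symm ⟨eps k G m, by
    rw [cx_d m A hA 0]; exact dd_eps m A h0⟩

lemma rep_exact {S : ShortComplex (Rep.{0} k G)}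
    (h : ∀ x : S.X₂, S.g.hom x = 0 → ∃ y : S.X₁, S.f.hom y = x) : S.Exact := by
  apply (forget₂ _ (ModuleCat k)).reflects_exact_of_faithful
  rw [ShortComplex.moduleCat_exact_iff]
  exact h

lemma res_quasiIso (hA : ∀ n i l, ∑ j, A (n + 1) i j * A n j l = 0) (h0 : ∀ i, ∑ j, ag k G (A 0 i j) = 0)
    (hε : ∀ x : k, ∃ f : Fin (m 0) →₀ MonoidAlgebra k G, ∑ i, ag k G (f i) = x)
    (hex0 : ∀ f : Fin (m 0) →₀ MonoidAlgebra k G, ∑ i, ag k G (f i) = 0 →
      ∃ g : Fin (m 1) →₀ MonoidAlgebra k G, ∀ j, f j = ∑ i, g i * A 0 i j)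
    (hex : ∀ n, ∀ f : Fin (m (n + 1)) →₀ MonoidAlgebra k G, (∀ l, ∑ j, f j * A n j l = 0) →
      ∃ g : Fin (m (n + 2)) →₀ MonoidAlgebra k G, ∀ j, f j = ∑ i, g i * A (n + 1) i j) :
    QuasiIso (resπ m A hA h0) where
  quasiIsoAt n := by
    induction n with
    | zero =>
      simp only [resπ]
      rw [ChainComplex.quasiIsoAt₀_iff, ShortComplex.quasiIso_iff_of_zeros' _ rfl rfl rfl]
      have hg : ((HomologicalComplex.shortComplexFunctor' (Rep.{0} k G) (ComplexShape.down ℕ) 1 0 0).map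
          (((cx m A hA).toSingle₀Equiv (Rep.trivial k G k)).symm ⟨eps k G m, by
            rw [cx_d m A hA 0]; exact dd_eps m A h0⟩)).τ₂ = eps k G m := by
        simp [ChainComplex.toSingle₀Equiv]
      constructor
      · apply rep_exact
        intro x hx
        have h1 : (eps k G m).hom x = 0 := by
          rw [← hg]; exact hx
        have h2 := hex0 x ((eps_apply m x).symm.trans h1)
        obtain ⟨g, hg'⟩ := h2
        refine ⟨g, ?_⟩
        change ((cx m A hA).d 1 0).hom g = x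
        rw [cx_d m A hA 0]
        refine Finsupp.ext fun j => ?_
        rw [dd_apply]
        exact (hg' j).symm
      · rw [Rep.epi_iff_surjective]
        intro x
        obtain ⟨f, hf⟩ := hε x
        refine ⟨f, ?_⟩
        have := (eps_apply m f).trans hf
        rw [← hg] at this
        exact this
    | succ n _ =>
      rw [quasiIsoAt_iff_exactAt' (hL := ChainComplex.exactAt_succ_single_obj ..),
          HomologicalComplex.exactAt_iff' _ (n + 2) (n + 1) n (by simp) (by simp)]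
      apply rep_exact
      intro x hx
      have hx' : (dd m A n).hom x = 0 := by rw [← cx_d m A hA n]; exact hx
      obtain ⟨g, hg⟩ := hex n x (by
        intro l
        have := dd_apply m A n x l
        rw [hx'] at this
        exact this.symm)
      refine ⟨g, ?_⟩
      change ((cx m A hA).d (n + 2) (n + 1)).hom g = x
      rw [cx_d m A hA (n + 1)]
      refine Finsupp.ext fun j => ?_
      rw [dd_apply]
      exact (hg j).symm

end general

end Pool.Agent.Helper158.PD3Nil
end part5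

section part6
namespace Pool.Agent.Helper158.PD3Nil

open CategoryTheory Finsupp

section general2

variable {k G : Type} [CommRing k] [Group G]
variable (m : ℕ → ℕ) (A : ∀ n, Fin (m (n + 1)) → Fin (m n) → MonoidAlgebra k G)

/-- all hypotheses on the matrices -/
structure Good : Prop where
  hA : ∀ n i l, ∑ j, A (n + 1) i j * A n j l = 0
  h0 : ∀ i, ∑ j, ag k G (A 0 i j) = 0
  hε : ∀ x : k, ∃ f : Fin (m 0) →₀ MonoidAlgebra k G, ∑ i, ag k G (f i) = x
  hex0 : ∀ f : Fin (m 0) →₀ MonoidAlgebra k G, ∑ i, ag k G (f i) = 0 →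
      ∃ g : Fin (m 1) →₀ MonoidAlgebra k G, ∀ j, f j = ∑ i, g i * A 0 i j
  hex : ∀ n, ∀ f : Fin (m (n + 1)) →₀ MonoidAlgebra k G, (∀ l, ∑ j, f j * A n j l = 0) →
      ∃ g : Fin (m (n + 2)) →₀ MonoidAlgebra k G, ∀ j, f j = ∑ i, g i * A (n + 1) i j

variable {m A} (H : Good m A)

noncomputable def Good.res : ProjectiveResolution (Rep.trivial k G k) where
  complex := cx m A H.hA
  projective n := (inferInstance : Projective (XX k G m n))
  π := resπ m A H.hA H.h0
  quasiIso := res_quasiIso m A H.hA H.h0 H.hε H.hex0 H.hex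

noncomputable def Good.iso (M : Rep k G) (n : ℕ) :
    groupCohomology M n ≅ ((cx m A H.hA).linearYonedaObj k M).homology n :=
  groupCohomologyIso M n H.res

include H

lemma hom_d (M : Rep k G) (n : ℕ) (y : XX k G m n ⟶ M) :
    ((cx m A H.hA).linearYonedaObj k M).d n (n + 1) y = dd m A n ≫ y := by
  rw [← cx_d m A H.hA n]
  rfl

lemma Good.vanish_succ (M : Rep k G) (n : ℕ)
    (h : ∀ x : XX k G m (n + 1) ⟶ M, dd m A (n + 1) ≫ x = 0 → ∃ y : XX k G m n ⟶ M, dd m A n ≫ y = x) :
    Subsingleton (groupCohomology M (n + 1)) := by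
  have h1 : ((cx m A H.hA).linearYonedaObj k M).ExactAt (n + 1) := by
    rw [HomologicalComplex.exactAt_iff' _ n (n + 1) (n + 2) (by simp) (by simp)]
    rw [ShortComplex.moduleCat_exact_iff]
    intro x hx
    obtain ⟨y, hy⟩ := h x (by rw [← hom_d H M (n + 1)]; exact hx)
    exact ⟨y, by rw [← hy, ← hom_d H M n]; rfl⟩
  have h2 := (HomologicalComplex.exactAt_iff_isZero_homology _ _).1 h1
  have h3 : Limits.IsZero (groupCohomology M (n + 1)) := h2.of_iso (H.iso M (n + 1))
  exact ModuleCat.subsingleton_of_isZero h3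

lemma Good.vanish_zero (M : Rep k G)
    (h : ∀ x : XX k G m 0 ⟶ M, dd m A 0 ≫ x = 0 → x = 0) :
    Subsingleton (groupCohomology M 0) := by
  have h1 : ((cx m A H.hA).linearYonedaObj k M).ExactAt 0 := by
    rw [HomologicalComplex.exactAt_iff' _ 0 0 1 (by simp) (by simp)]
    rw [ShortComplex.moduleCat_exact_iff]
    intro x hx
    have := h x (by rw [← hom_d H M 0]; exact hx)
    exact ⟨0, by rw [this]; exact map_zero _⟩
  have h2 := (HomologicalComplex.exactAt_iff_isZero_homology _ _).1 h1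
  have h3 : Limits.IsZero (groupCohomology M 0) := h2.of_iso (H.iso M 0)
  exact ModuleCat.subsingleton_of_isZero h3


lemma Good.top (M : Rep k G) (n : ℕ) (hz : ∀ x : XX k G m (n + 2) ⟶ M, x = 0)
    (ψ : (XX k G m (n + 1) ⟶ M) →ₗ[k] k) (hs : Function.Surjective ψ)
    (hk : ∀ x, ψ x = 0 ↔ ∃ y : XX k G m n ⟶ M, dd m A n ≫ y = x) :
    Nonempty (groupCohomology M (n + 1) ≃ₗ[k] k) := by
  let S := ((cx m A H.hA).linearYonedaObj k M).sc' n (n + 1) (n + 2)
  have e1 : groupCohomology M (n + 1) ≅ S.homology :=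
    H.iso M (n + 1) ≪≫ HomologicalComplex.homologyIsoSc' _ n (n + 1) (n + 2) (by simp) (by simp)
  have e2 : S.homology ≅ ModuleCat.of k (LinearMap.ker S.g.hom ⧸ LinearMap.range S.moduleCatToCycles) :=
    S.moduleCatHomologyIso
  let φ : LinearMap.ker S.g.hom →ₗ[k] k := ψ.comp (LinearMap.ker S.g.hom).subtype
  have hφ : Function.Surjective φ := by
    intro c
    obtain ⟨x, hx⟩ := hs c
    exact ⟨⟨x, hz _⟩, hx⟩
  have hker : LinearMap.range S.moduleCatToCycles = LinearMap.ker φ := by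
    ext ⟨x, hx⟩
    rw [LinearMap.mem_ker, LinearMap.mem_range]
    constructor
    · rintro ⟨y, hy⟩
      apply (hk x).2
      refine ⟨y, ?_⟩
      rw [← hom_d H M n]
      exact congrArg Subtype.val hy
    · intro hx2
      obtain ⟨y, hy⟩ := (hk x).1 hx2
      rw [← hom_d H M n] at hy
      exact ⟨y, Subtype.ext hy⟩
  exact ⟨(e1 ≪≫ e2).toLinearEquiv.trans ((Submodule.quotEquivOfEq _ _ hker).trans
    (φ.quotKerEquivOfSurjective hφ))⟩

omit H in
/-- morphisms out of the free modules -/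
lemma comp_eq_iff (M : Rep k G) (n : ℕ) (y : XX k G m n ⟶ M) (x : XX k G m (n + 1) ⟶ M) :
    dd m A n ≫ y = x ↔ ∀ i, ∑ j, M.ρ.asAlgebraHom (A n i j) (y.hom (single j (MonoidAlgebra.single 1 1))) =
      x.hom (single i (MonoidAlgebra.single 1 1)) := by
  have key : ∀ i, (dd m A n ≫ y).hom (single i (MonoidAlgebra.single 1 1)) =
      ∑ j, M.ρ.asAlgebraHom (A n i j) (y.hom (single j (MonoidAlgebra.single 1 1))) := by
    intro i
    have hy : y = Rep.freeLift k G _ (fun j => y.hom (single j (MonoidAlgebra.single 1 1))) := by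
      apply Rep.free_ext
      intro j
      change _ = Representation.freeLift M.ρ _ _
      rw [Representation.freeLift_single_single, one_smul, map_one]
      rfl
    have h1 : (dd m A n ≫ y).hom (single i (MonoidAlgebra.single 1 1)) =
      y.hom ((dd m A n).hom (single i (MonoidAlgebra.single 1 1))) := rfl
    rw [h1]
    conv_lhs => rw [hy]
    have h2 := freeLift_apply M.ρ (fun j => y.hom (single j (MonoidAlgebra.single 1 1)))
      ((dd m A n).hom (single i (MonoidAlgebra.single 1 1)))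
    refine h2.trans ?_
    refine Finset.sum_congr rfl fun j _ => ?_
    have h3 : ((dd m A n).hom (single i (MonoidAlgebra.single 1 1))) j = A n i j := dd_single m A n i j
    rw [h3]
  constructor
  · intro h i
    rw [← key, h]
  · intro h
    apply Rep.free_ext
    intro i
    rw [key, h]

omit H in
lemma hom_eq_zero_iff (M : Rep k G) (n : ℕ) (x : XX k G m n ⟶ M) :
    x = 0 ↔ ∀ i, x.hom (single i (MonoidAlgebra.single 1 1)) = 0 := by
  constructor
  · rintro rfl i; rfl
  · intro h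
    apply Rep.free_ext
    intro i
    rw [h]; rfl

omit H in
lemma lift_single (M : Rep k G) (n : ℕ) (F : Fin (m n) → M) (i : Fin (m n)) :
    (Rep.freeLift k G M F).hom (single i (MonoidAlgebra.single 1 1)) = F i := by
  change Representation.freeLift M.ρ _ _ = _
  rw [Representation.freeLift_single_single, one_smul, map_one]
  rfl

end general2

end Pool.Agent.Helper158.PD3Nil
end part6

section part7
namespace Pool.Agent.Helper158.PD3Nil

open CategoryTheory Finsupp

/-- ranks of the free modules -/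
def mm : ℕ → ℕ
  | 0 => 1
  | 1 => 3
  | 2 => 3
  | 3 => 1
  | _ + 4 => 0

/-- the matrices of the differentials -/
noncomputable def Mx : ∀ n, Fin (mm (n + 1)) → Fin (mm n) → MonoidAlgebra ℤ Nil
  | 0 => ![![Z - 1], ![X - 1], ![T - 1]]
  | 1 => ![![X - 1, -(Z - 1), 0], ![T + Zi, 0, 1 - Zi], ![-Xi, T + Xi, 1 - Xi * Z]]
  | 2 => ![![T - Zi * Xi, 1 - Xi * Z, Zi - 1]]
  | _ + 3 => fun i => Fin.elim0 i

lemma aug_single (g : Nil) (r : ℤ) : aug (MonoidAlgebra.single g r) = r := by
  simp [aug, q1_apply, q2_apply, q3_apply, mapDomain_single]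

lemma ag_eq (r : R) : ag ℤ Nil r = aug r := by
  unfold ag
  induction r using MonoidAlgebra.induction_linear with
  | zero => simp
  | add x y hx hy => rw [map_add, LinearMap.add_apply, hx, hy, map_add]
  | single g r =>
    rw [Representation.asAlgebraHom_single, aug_single]; simp

lemma aug_mul (r s : R) : aug (r * s) = aug r * aug s := by
  induction r using MonoidAlgebra.induction_linear with
  | zero => simp
  | add x y hx hy => rw [add_mul, map_add, hx, hy, map_add, add_mul]
  | single g r =>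
    induction s using MonoidAlgebra.induction_linear with
    | zero => simp
    | add x y hx hy => rw [mul_add, map_add, hx, hy, map_add, mul_add]
    | single h s => rw [MonoidAlgebra.single_mul_single, aug_single, aug_single, aug_single]

lemma aug_el (g : Nil) : aug (el g) = 1 := aug_single g 1
lemma aug_one : aug 1 = 1 := aug_single 1 1

lemma aZ : aug (Z - 1) = 0 := by rw [map_sub, aug_one, Z, aug_el, sub_self]
lemma aX : aug (X - 1) = 0 := by rw [map_sub, aug_one, X, aug_el, sub_self]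
lemma aT : aug (T - 1) = 0 := by rw [map_sub, aug_one, T, aug_el, sub_self]
lemma aTZX : aug (T - Zi * Xi) = 0 := by
  rw [map_sub, aug_mul, T, Zi, Xi, aug_el, aug_el, aug_el]; norm_num
lemma aXZ : aug (1 - Xi * Z) = 0 := by
  rw [map_sub, aug_mul, Z, Xi, aug_el, aug_el, aug_one]; norm_num
lemma aZi : aug (Zi - 1) = 0 := by rw [map_sub, aug_one, Zi, aug_el, sub_self]

/-- vector to finsupp -/
noncomputable def vec {n : ℕ} (f : Fin n → R) : Fin n →₀ R := Finsupp.equivFunOnFinite.symm f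

lemma vec_apply {n : ℕ} (f : Fin n → R) (i : Fin n) : vec f i = f i := rfl

lemma good : Good mm Mx where
  hA := by
    intro n
    match n with
    | 0 =>
      intro (i : Fin 3) (l : Fin 1)
      change ∑ j : Fin 3, Mx 1 i j * Mx 0 j l = 0
      rw [Fin.sum_univ_three]
      fin_cases l
      fin_cases i
      · change (X - 1) * (Z - 1) + -(Z - 1) * (X - 1) + 0 * (T - 1) = 0
        linear_combination (norm := noncomm_ring) I3
      · change (T + Zi) * (Z - 1) + 0 * (X - 1) + (1 - Zi) * (T - 1) = 0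
        linear_combination (norm := noncomm_ring) I1
      · change -Xi * (Z - 1) + (T + Xi) * (X - 1) + (1 - Xi * Z) * (T - 1) = 0
        linear_combination (norm := noncomm_ring) I2
    | 1 =>
      intro (i : Fin 1) (l : Fin 3)
      change ∑ j : Fin 3, Mx 2 i j * Mx 1 j l = 0
      rw [Fin.sum_univ_three]
      fin_cases i
      fin_cases l
      · change (T - Zi * Xi) * (X - 1) + (1 - Xi * Z) * (T + Zi) + (Zi - 1) * -Xi = 0
        linear_combination (norm := noncomm_ring) I4
      · change (T - Zi * Xi) * -(Z - 1) + (1 - Xi * Z) * 0 + (Zi - 1) * (T + Xi) = 0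
        linear_combination (norm := noncomm_ring) I5
      · change (T - Zi * Xi) * 0 + (1 - Xi * Z) * (1 - Zi) + (Zi - 1) * (1 - Xi * Z) = 0
        linear_combination (norm := noncomm_ring) I6
    | 2 => intro i; exact Fin.elim0 i
    | n + 3 => intro i; exact Fin.elim0 i
  h0 := by
    intro (i : Fin 3)
    change ∑ j : Fin 1, ag ℤ Nil (Mx 0 i j) = 0
    rw [Fin.sum_univ_one, ag_eq]
    fin_cases i
    · exact aZ
    · exact aX
    · exact aT
  hε := by
    intro x
    refine ⟨vec (n := 1) ![MonoidAlgebra.single 1 x], ?_⟩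
    change ∑ i : Fin 1, ag ℤ Nil (vec (n := 1) ![MonoidAlgebra.single 1 x] i) = x
    rw [Fin.sum_univ_one, ag_eq]
    exact aug_single 1 x
  hex0 := by
    intro f hf
    change ∑ i : Fin 1, ag ℤ Nil (f i) = 0 at hf
    rw [Fin.sum_univ_one, ag_eq] at hf
    obtain ⟨a, b, c, h⟩ := rr4 hf
    refine ⟨vec (n := 3) ![a, b, c], ?_⟩
    intro (j : Fin 1)
    change f j = ∑ i : Fin 3, vec (n := 3) ![a, b, c] i * Mx 0 i j
    rw [Fin.sum_univ_three]
    fin_cases j
    exact h
  hex := by
    intro n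
    match n with
    | 0 =>
      intro f hf
      have hf := hf (0 : Fin 1)
      change ∑ j : Fin 3, f j * Mx 0 j (0 : Fin 1) = 0 at hf
      rw [Fin.sum_univ_three] at hf
      obtain ⟨e1, e2, e3, h1, h2, h3⟩ := exF1 hf
      refine ⟨vec (n := 3) ![e1, e2, e3], ?_⟩
      intro (j : Fin 3)
      change f j = ∑ i : Fin 3, vec (n := 3) ![e1, e2, e3] i * Mx 1 i j
      rw [Fin.sum_univ_three]
      fin_cases j
      · change f (0 : Fin 3) = e1 * (X - 1) + e2 * (T + Zi) + e3 * -Xi
        linear_combination (norm := noncomm_ring) h1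
      · change f (1 : Fin 3) = e1 * -(Z - 1) + e2 * 0 + e3 * (T + Xi)
        linear_combination (norm := noncomm_ring) h2
      · change f (2 : Fin 3) = e1 * 0 + e2 * (1 - Zi) + e3 * (1 - Xi * Z)
        linear_combination (norm := noncomm_ring) h3
    | 1 =>
      intro f hf
      have hf1 := hf (0 : Fin 3)
      have hf2 := hf (1 : Fin 3)
      have hf3 := hf (2 : Fin 3)
      change ∑ j : Fin 3, f j * Mx 1 j (0 : Fin 3) = 0 at hf1
      change ∑ j : Fin 3, f j * Mx 1 j (1 : Fin 3) = 0 at hf2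
      change ∑ j : Fin 3, f j * Mx 1 j (2 : Fin 3) = 0 at hf3
      rw [Fin.sum_univ_three] at hf1 hf2 hf3
      change f (0 : Fin 3) * (X - 1) + f (1 : Fin 3) * (T + Zi) + f (2 : Fin 3) * -Xi = 0 at hf1
      change f (0 : Fin 3) * -(Z - 1) + f (1 : Fin 3) * 0 + f (2 : Fin 3) * (T + Xi) = 0 at hf2
      change f (0 : Fin 3) * 0 + f (1 : Fin 3) * (1 - Zi) + f (2 : Fin 3) * (1 - Xi * Z) = 0 at hf3
      obtain ⟨g, h1, h2, h3⟩ := exF2 (e1 := f (0 : Fin 3)) (e2 := f (1 : Fin 3)) (e3 := f (2 : Fin 3))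
        (by linear_combination (norm := noncomm_ring) hf1)
        (by linear_combination (norm := noncomm_ring) hf2)
        (by linear_combination (norm := noncomm_ring) hf3)
      refine ⟨vec (n := 1) ![g], ?_⟩
      intro (j : Fin 3)
      change f j = ∑ i : Fin 1, vec (n := 1) ![g] i * Mx 2 i j
      rw [Fin.sum_univ_one]
      fin_cases j
      · exact h1
      · exact h2
      · exact h3
    | 2 =>
      intro f hf
      have hf1 := hf (2 : Fin 3)
      change ∑ j : Fin 1, f j * Mx 2 j (2 : Fin 3) = 0 at hf1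
      rw [Fin.sum_univ_one] at hf1
      have h := exF3 (f := f (0 : Fin 1)) hf1
      refine ⟨0, ?_⟩
      intro (j : Fin 1)
      rw [Subsingleton.elim j 0]
      change f (0 : Fin 1) = ∑ i : Fin 0, _
      rw [Fin.sum_univ_zero]
      exact h
    | n + 3 =>
      intro f hf
      refine ⟨0, ?_⟩
      intro j
      exact Fin.elim0 j

end Pool.Agent.Helper158.PD3Nil
end part7

section part8
namespace Pool.Agent.Helper158.PD3Nil

open CategoryTheory Finsupp

theorem H4 (M : Rep ℤ Nil) : Subsingleton (groupCohomology M 4) := by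
  apply good.vanish_succ M 3
  intro x _
  refine ⟨0, ?_⟩
  rw [comp_eq_iff]
  intro i
  exact Fin.elim0 i

noncomputable abbrev RR : Rep ℤ Nil := Rep.ofMulAction ℤ Nil Nil

lemma RR_asAlgebraHom (r : R) (x : RR) : RR.ρ.asAlgebraHom r x = (r * x : R) :=
  Representation.asAlgebraHom_ofMulAction_smul_eq_mul r x

/-- value of a morphism on a basis vector -/
noncomputable def val {n : ℕ} (x : XX ℤ Nil mm n ⟶ RR) (i : Fin (mm n)) : R :=
  x.hom (single i (MonoidAlgebra.single 1 1))

lemma val_comp {n : ℕ} (y : XX ℤ Nil mm n ⟶ RR) (x : XX ℤ Nil mm (n + 1) ⟶ RR) :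
    dd mm Mx n ≫ y = x ↔ ∀ i, ∑ j, Mx n i j * val y j = val x i := by
  rw [comp_eq_iff]
  refine forall_congr' fun i => ?_
  have : ∑ j, RR.ρ.asAlgebraHom (Mx n i j) (y.hom (single j (MonoidAlgebra.single 1 1))) =
      ∑ j, Mx n i j * val y j :=
    Finset.sum_congr rfl fun j _ => RR_asAlgebraHom _ _
  rw [this]; rfl

lemma val_zero_iff {n : ℕ} (x : XX ℤ Nil mm n ⟶ RR) : x = 0 ↔ ∀ i, val x i = 0 :=
  hom_eq_zero_iff RR n x

lemma val_zero {n : ℕ} (i : Fin (mm n)) : val (0 : XX ℤ Nil mm n ⟶ RR) i = 0 :=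
  (val_zero_iff _).1 rfl i

/-- morphism with given values -/
noncomputable def mor (n : ℕ) (F : Fin (mm n) → R) : XX ℤ Nil mm n ⟶ RR := Rep.freeLift ℤ Nil RR F

lemma val_mor (n : ℕ) (F : Fin (mm n) → R) (i : Fin (mm n)) : val (mor n F) i = F i :=
  lift_single RR n F i

theorem H0 : Subsingleton (groupCohomology RR 0) := by
  apply good.vanish_zero RR
  intro x hx
  rw [val_comp] at hx
  have h := hx (0 : Fin 3)
  change ∑ j : Fin 1, Mx 0 (0 : Fin 3) j * val x j = val (n := 1) 0 (0 : Fin 3) at h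
  rw [val_zero (n := 1), Fin.sum_univ_one] at h
  rw [val_zero_iff]
  intro (i : Fin 1)
  rw [Subsingleton.elim i 0]
  exact ll1 h

theorem H1 : Subsingleton (groupCohomology RR 1) := by
  apply good.vanish_succ RR 0
  intro x hx
  rw [val_comp] at hx
  have h1 := hx (0 : Fin 3)
  have h2 := hx (1 : Fin 3)
  change ∑ j : Fin 3, Mx 1 (0 : Fin 3) j * val x j = val (n := 2) 0 (0 : Fin 3) at h1
  change ∑ j : Fin 3, Mx 1 (1 : Fin 3) j * val x j = val (n := 2) 0 (1 : Fin 3) at h2
  rw [val_zero (n := 2), Fin.sum_univ_three] at h1 h2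
  change (X - 1) * val (n := 1) x (0 : Fin 3) + -(Z - 1) * val (n := 1) x (1 : Fin 3) +
    0 * val (n := 1) x (2 : Fin 3) = 0 at h1
  change (T + Zi) * val (n := 1) x (0 : Fin 3) + 0 * val (n := 1) x (1 : Fin 3) +
    (1 - Zi) * val (n := 1) x (2 : Fin 3) = 0 at h2
  obtain ⟨m, e1, e2, e3⟩ := coC1 (a := val (n := 1) x (0 : Fin 3)) (b := val (n := 1) x (1 : Fin 3))
    (c := val (n := 1) x (2 : Fin 3))
    (by linear_combination (norm := noncomm_ring) h1)
    (by linear_combination (norm := noncomm_ring) h2)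
  refine ⟨mor 0 ![m], ?_⟩
  rw [val_comp]
  intro (i : Fin 3)
  change ∑ j : Fin 1, Mx 0 i j * val (mor 0 ![m]) j = val (n := 1) x i
  rw [Fin.sum_univ_one, val_mor]
  fin_cases i
  · exact e1.symm
  · exact e2.symm
  · exact e3.symm

theorem H2 : Subsingleton (groupCohomology RR 2) := by
  apply good.vanish_succ RR 1
  intro x hx
  rw [val_comp] at hx
  have h1 := hx (0 : Fin 1)
  change ∑ j : Fin 3, Mx 2 (0 : Fin 1) j * val x j = val (n := 3) 0 (0 : Fin 1) at h1
  rw [val_zero (n := 3), Fin.sum_univ_three] at h1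
  obtain ⟨a, b, c, e1, e2, e3⟩ := coC2 (e1 := val (n := 2) x (0 : Fin 3)) (e2 := val (n := 2) x (1 : Fin 3))
    (e3 := val (n := 2) x (2 : Fin 3)) h1
  refine ⟨mor 1 ![a, b, c], ?_⟩
  rw [val_comp]
  intro (i : Fin 3)
  change ∑ j : Fin 3, Mx 1 i j * val (mor 1 ![a, b, c]) j = val (n := 2) x i
  rw [Fin.sum_univ_three, val_mor, val_mor, val_mor]
  fin_cases i
  · change (X - 1) * a + -(Z - 1) * b + 0 * c = val (n := 2) x (0 : Fin 3)
    linear_combination (norm := noncomm_ring) -e1
  · change (T + Zi) * a + 0 * b + (1 - Zi) * c = val (n := 2) x (1 : Fin 3)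
    linear_combination (norm := noncomm_ring) -e2
  · change -Xi * a + (T + Xi) * b + (1 - Xi * Z) * c = val (n := 2) x (2 : Fin 3)
    linear_combination (norm := noncomm_ring) -e3

lemma aug_smul (c : ℤ) (r : R) : aug (c • r) = c * aug r := by
  rw [map_zsmul]; rfl

/-- the evaluation of the top class -/
noncomputable def topHom : (XX ℤ Nil mm 3 ⟶ RR) →ₗ[ℤ] ℤ where
  toFun x := aug (val x (0 : Fin 1))
  map_add' _ _ := map_add aug _ _
  map_smul' c _ := aug_smul c _

theorem H3 : Nonempty (groupCohomology RR 3 ≃+ ℤ) := by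
  obtain ⟨e⟩ := good.top RR 2 (by
      intro x
      rw [val_zero_iff]
      intro i
      exact Fin.elim0 i) topHom
    (by
      intro c
      refine ⟨mor 3 (fun _ => MonoidAlgebra.single 1 c), ?_⟩
      change aug (val (mor 3 _) (0 : Fin 1)) = c
      rw [val_mor]
      exact aug_single 1 c)
    (by
      intro x
      change aug (val (n := 3) x (0 : Fin 1)) = 0 ↔ _
      constructor
      · intro h
        obtain ⟨e1, e2, e3, he⟩ := coC3 h
        refine ⟨mor 2 ![e1, e2, e3], ?_⟩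
        rw [val_comp]
        intro (i : Fin 1)
        rw [Subsingleton.elim i 0]
        change ∑ j : Fin 3, Mx 2 (0 : Fin 1) j * val (mor 2 ![e1, e2, e3]) j = val (n := 3) x (0 : Fin 1)
        rw [Fin.sum_univ_three, val_mor, val_mor, val_mor]
        exact he.symm
      · rintro ⟨y, hy⟩
        rw [val_comp] at hy
        have h := hy (0 : Fin 1)
        change ∑ j : Fin 3, Mx 2 (0 : Fin 1) j * val y j = val (n := 3) x (0 : Fin 1) at h
        rw [← h, Fin.sum_univ_three, map_add, map_add, aug_mul, aug_mul, aug_mul]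
        change aug (T - Zi * Xi) * _ + aug (1 - Xi * Z) * _ + aug (Zi - 1) * _ = 0
        rw [aTZX, aXZ, aZi]; ring)
  exact ⟨e.toAddEquiv⟩

end Pool.Agent.Helper158.PD3Nil
end part8

section part9
namespace Pool.Agent.Helper158.PD3Nil

open CategoryTheory Finsupp

section fp
variable {G : Type} [Group G] {m : ℕ → ℕ} {A : ∀ n, Fin (m (n + 1)) → Fin (m n) → MonoidAlgebra ℤ G}

lemma ag_add (r s : MonoidAlgebra ℤ G) : ag ℤ G (r + s) = ag ℤ G r + ag ℤ G s := by
  unfold ag; rw [map_add]; rfl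

lemma ag_zero : ag ℤ G 0 = 0 := by
  unfold ag; rw [map_zero]; rfl

lemma ag_single (g : G) (r : ℤ) : ag ℤ G (MonoidAlgebra.single g r) = r := by
  unfold ag; rw [Representation.asAlgebraHom_single]; simp

lemma ag_mul (r s : MonoidAlgebra ℤ G) : ag ℤ G (r * s) = ag ℤ G r * ag ℤ G s := by
  induction r using MonoidAlgebra.induction_linear with
  | zero => simp [ag_zero]
  | add x y hx hy => rw [add_mul, ag_add, hx, hy, ag_add, add_mul]
  | single g r =>
    induction s using MonoidAlgebra.induction_linear with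
    | zero => simp [ag_zero]
    | add x y hx hy => rw [mul_add, ag_add, hx, hy, ag_add, mul_add]
    | single h s => rw [MonoidAlgebra.single_mul_single, ag_single, ag_single, ag_single]

theorem Good.fp (H : Good m A) (N : ℕ) :
    ∃ m : ℕ → ℕ,
        ∃ d : ∀ i : ℕ, (Fin (m (i + 1)) → MonoidAlgebra ℤ G) →ₗ[MonoidAlgebra ℤ G]
            (Fin (m i) → MonoidAlgebra ℤ G),
        ∃ ε : (Fin (m 0) → MonoidAlgebra ℤ G) →+ ℤ,
          (∀ (g : G) (x : Fin (m 0) → MonoidAlgebra ℤ G),
              ε (MonoidAlgebra.of ℤ G g • x) = ε x) ∧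
          Function.Surjective ε ∧
          (∀ x, x ∈ LinearMap.range (d 0) ↔ ε x = 0) ∧
          (∀ i : ℕ, i + 1 < N → LinearMap.range (d (i + 1)) = LinearMap.ker (d i)) := by
  let d : ∀ i : ℕ, (Fin (m (i + 1)) → MonoidAlgebra ℤ G) →ₗ[MonoidAlgebra ℤ G]
            (Fin (m i) → MonoidAlgebra ℤ G) := fun i =>
    { toFun := fun x j => ∑ l, x l * A i l j
      map_add' := fun x y => by
        funext j
        simp only [Pi.add_apply, add_mul, Finset.sum_add_distrib]
      map_smul' := fun r x => by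
        funext j
        simp only [Pi.smul_apply, smul_eq_mul, RingHom.id_apply, Finset.mul_sum, mul_assoc] }
  have hd : ∀ i x j, d i x j = ∑ l, x l * A i l j := fun _ _ _ => rfl
  let ε : (Fin (m 0) → MonoidAlgebra ℤ G) →+ ℤ :=
    { toFun := fun x => ∑ i, ag ℤ G (x i)
      map_zero' := by simp [ag_zero]
      map_add' := fun x y => by simp only [Pi.add_apply, ag_add, Finset.sum_add_distrib] }
  have hε : ∀ x, ε x = ∑ i, ag ℤ G (x i) := fun _ => rfl
  refine ⟨m, d, ε, ?_, ?_, ?_, ?_⟩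
  · intro g x
    rw [hε, hε]
    refine Finset.sum_congr rfl fun i _ => ?_
    rw [Pi.smul_apply, smul_eq_mul, ag_mul, MonoidAlgebra.of_apply, ag_single, one_mul]
  · intro c
    obtain ⟨f, hf⟩ := H.hε c
    exact ⟨f, hf⟩
  · intro x
    constructor
    · rintro ⟨y, rfl⟩
      rw [hε]
      simp_rw [hd]
      have : ∀ j, ag ℤ G (∑ l, y l * A 0 l j) = ∑ l, ag ℤ G (y l) * ag ℤ G (A 0 l j) := by
        intro j
        have h1 := map_sum (⟨⟨ag ℤ G, ag_zero⟩, ag_add⟩ : MonoidAlgebra ℤ G →+ ℤ)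
          (fun l => y l * A 0 l j) Finset.univ
        refine h1.trans (Finset.sum_congr rfl fun l _ => ag_mul _ _)
      simp_rw [this]
      rw [Finset.sum_comm]
      refine Finset.sum_eq_zero fun l _ => ?_
      rw [← Finset.mul_sum, H.h0, mul_zero]
    · intro hx
      obtain ⟨g, hg⟩ := H.hex0 (Finsupp.equivFunOnFinite.symm x) hx
      exact ⟨g, by funext j; rw [hd]; exact (hg j).symm⟩
  · intro i _
    ext x
    rw [LinearMap.mem_range, LinearMap.mem_ker]
    constructor
    · rintro ⟨y, rfl⟩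
      funext l
      rw [hd]
      simp_rw [hd, Finset.sum_mul]
      rw [Finset.sum_comm]
      refine Finset.sum_eq_zero fun a _ => ?_
      simp_rw [mul_assoc]
      rw [← Finset.mul_sum, H.hA, mul_zero]
    · intro hx
      obtain ⟨g, hg⟩ := H.hex i (Finsupp.equivFunOnFinite.symm x) (by
        intro l
        have := congrFun hx l
        rw [hd] at this
        exact this)
      exact ⟨g, by funext j; rw [hd]; exact (hg j).symm⟩

end fp

/-! ### the cyclic subgroup -/

def HH : Subgroup Nil where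
  carrier := {g | g.a = 0 ∧ g.b = 0}
  one_mem' := ⟨rfl, rfl⟩
  mul_mem' := by
    rintro x y ⟨h1, h2⟩ ⟨h3, h4⟩
    exact ⟨by simp [h1, h3, h4], by simp [h2, h4]⟩
  inv_mem' := by
    rintro x ⟨h1, h2⟩
    exact ⟨by simp [h1, h2], by simp [h2]⟩

lemma mem_HH {g : Nil} : g ∈ HH ↔ g.a = 0 ∧ g.b = 0 := Iff.rfl

def th : HH := ⟨tt, rfl, rfl⟩

def mh : ℕ → ℕ
  | 0 => 1
  | 1 => 1
  | _ + 2 => 0

noncomputable def Mh : ∀ n, Fin (mh (n + 1)) → Fin (mh n) → MonoidAlgebra ℤ HH
  | 0 => ![![MonoidAlgebra.single th 1 - 1]]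
  | _ + 1 => fun i => Fin.elim0 i

lemma coeff_mul_single (m : MonoidAlgebra ℤ HH) :
    (m * (MonoidAlgebra.single th 1 - 1)).coeff = sh (fun h => h * th) m.coeff := by
  rw [mul_sub, mul_one, sh_apply]
  have : (m * MonoidAlgebra.single th 1).coeff = mapDomain (fun h => h * th) m.coeff := by
    induction m using MonoidAlgebra.induction_linear with
    | zero => simp
    | add x y hx hy => rw [add_mul, MonoidAlgebra.coeff_add, hx, hy, MonoidAlgebra.coeff_add, mapDomain_add]
    | single h r => simp [MonoidAlgebra.single_mul_single, mapDomain_single]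
  rw [← this]; rfl

lemma ag_HH (r : MonoidAlgebra ℤ HH) : ag ℤ HH r = mapDomain (fun _ => ()) r.coeff () := by
  induction r using MonoidAlgebra.induction_linear with
  | zero => simp [ag_zero]
  | add x y hx hy => rw [ag_add, hx, hy, MonoidAlgebra.coeff_add, mapDomain_add]; rfl
  | single h r => rw [ag_single]; simp [mapDomain_single]

lemma th_shift (h : HH) : ((h * th : HH) : Nil).c = (h : Nil).c + 1 := by
  simp [th]

lemma HH_ext {h u : HH} (e : (h : Nil).c = (u : Nil).c) : h = u := by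
  apply Subtype.ext
  obtain ⟨h, h1, h2⟩ := h
  obtain ⟨u, u1, u2⟩ := u
  exact Nil.ext (h1.trans u1.symm) (h2.trans u2.symm) e

lemma good_HH : Good mh Mh where
  hA := by
    intro n i
    exact Fin.elim0 i
  h0 := by
    intro (i : Fin 1)
    change ∑ j : Fin 1, ag ℤ HH (Mh 0 i j) = 0
    rw [Fin.sum_univ_one]
    fin_cases i
    change ag ℤ HH (MonoidAlgebra.single th 1 - 1) = 0
    rw [show (1 : MonoidAlgebra ℤ HH) = MonoidAlgebra.single 1 1 from rfl]
    have h := ag_add (MonoidAlgebra.single th 1 - MonoidAlgebra.single 1 1)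
      (MonoidAlgebra.single 1 1 : MonoidAlgebra ℤ HH)
    rw [sub_add_cancel, ag_single, ag_single] at h
    linarith
  hε := by
    intro x
    refine ⟨Finsupp.equivFunOnFinite.symm (fun _ : Fin 1 => MonoidAlgebra.single 1 x), ?_⟩
    change ∑ i : Fin 1, ag ℤ HH (MonoidAlgebra.single 1 x) = x
    rw [Fin.sum_univ_one, ag_single]
  hex0 := by
    intro f hf
    change ∑ i : Fin 1, ag ℤ HH (f i) = 0 at hf
    rw [Fin.sum_univ_one, ag_HH] at hf
    obtain ⟨k, hk⟩ := sh_ker' (Equiv.mulRight th) (fun _ => ()) (fun _ => 1) (fun h => (h : Nil).c)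
      th_shift (fun _ => rfl) (fun _ => rfl) (fun _ => rfl) (fun s u _ e => HH_ext e)
      (f (0 : Fin 1)).coeff (by ext; exact hf)
    refine ⟨Finsupp.equivFunOnFinite.symm (fun _ : Fin 1 => MonoidAlgebra.ofCoeff k), ?_⟩
    intro (j : Fin 1)
    change f j = ∑ i : Fin 1, MonoidAlgebra.ofCoeff k * Mh 0 i j
    rw [Fin.sum_univ_one]
    fin_cases j
    apply MonoidAlgebra.coeff_inj.1
    exact (hk.symm.trans (coeff_mul_single (MonoidAlgebra.ofCoeff k)).symm)
  hex := by
    intro n
    match n with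
    | 0 =>
      intro f hf
      have hf1 := hf (0 : Fin 1)
      change ∑ j : Fin 1, f j * Mh 0 j (0 : Fin 1) = 0 at hf1
      rw [Fin.sum_univ_one] at hf1
      have h1 : f (0 : Fin 1) * (MonoidAlgebra.single th 1 - 1) = 0 := hf1
      have h2 : f (0 : Fin 1) = 0 := by
        apply MonoidAlgebra.coeff_inj.1
        apply sh_injective (fun h => h * th) (mul_left_injective th) (fun h => (h : Nil).c) th_shift
        rw [← coeff_mul_single, h1]
        simp
      refine ⟨0, ?_⟩
      intro (j : Fin 1)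
      rw [Subsingleton.elim j 0]
      change f (0 : Fin 1) = ∑ i : Fin 0, _
      rw [Fin.sum_univ_zero]
      exact h2
    | n + 1 =>
      intro f hf
      refine ⟨0, ?_⟩
      intro j
      exact Fin.elim0 j

end Pool.Agent.Helper158.PD3Nil
end part9

section part10
namespace Pool.Agent.Helper158.PD3Nil

lemma pow_xx (n : ℕ) : xx ^ n = ⟨0, n, 0⟩ := by
  induction n with
  | zero => rfl
  | succ n ih => rw [pow_succ, ih]; ext <;> simp

lemma pow_tt (n : ℕ) : tt ^ n = ⟨0, 0, n⟩ := by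
  induction n with
  | zero => rfl
  | succ n ih => rw [pow_succ, ih]; ext <;> simp

/-- the group is not virtually abelian -/
lemma not_va : ¬ ∃ A : Subgroup Nil, A.FiniteIndex ∧ ∀ a ∈ A, ∀ b ∈ A, a * b = b * a := by
  rintro ⟨A, hA, hc⟩
  obtain ⟨n, hn, hx⟩ := Subgroup.exists_pow_mem_of_index_ne_zero hA.index_ne_zero xx
  obtain ⟨k, hk, ht⟩ := Subgroup.exists_pow_mem_of_index_ne_zero hA.index_ne_zero tt
  have h := hc _ hx.2 _ (A.pow_mem ht.2 2)
  rw [← pow_mul, pow_xx, pow_tt] at h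
  have h1 := congrArg Nil.a h
  simp only [Nil.mul_a, sg_zero] at h1
  have h2 : sg ((k * 2 : ℕ) : ℤ) = 1 := by
    have := sg_mul_self (k : ℤ)
    rw [← sg_add] at this
    rw [← this]; congr 1; push_cast; ring
  rw [h2] at h1
  push_cast at h1
  have h3 : (0 : ℤ) < n := by exact_mod_cast hn
  have h4 : (0 : ℤ) < k := by exact_mod_cast hk
  nlinarith [mul_pos h3 h4]

/-- the cyclic subgroup is its own normaliser -/
lemma self_norm : ∀ g : Nil, (∀ h : Nil, h ∈ HH ↔ g * h * g⁻¹ ∈ HH) → g ∈ HH := by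
  intro g hg
  have h := (hg tt).1 ⟨rfl, rfl⟩
  have e : (g * tt * g⁻¹) * g = g * tt := by group
  set u := g * tt * g⁻¹ with hu
  obtain ⟨hu1, hu2⟩ := h
  have hc : u.c = 1 := by rw [hu]; simp
  have ha := congrArg Nil.a e
  have hb := congrArg Nil.b e
  simp only [Nil.mul_a, Nil.mul_b, tt_a, tt_b, hu1, hu2, hc, sg_one] at ha hb
  have hb0 : g.b = 0 := by linarith
  have ha0 : g.a = 0 := by rw [hb0] at ha; linarith
  exact ⟨ha0, hb0⟩

/-- parity of the last coordinate -/
def par : Nil →* Multiplicative (ZMod 2) where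
  toFun g := Multiplicative.ofAdd (g.c : ZMod 2)
  map_one' := by simp
  map_mul' g h := by simp [ofAdd_add]

lemma sg_even_of {c : ℤ} (h : (c : ZMod 2) = 0) : sg c = 1 := by
  rw [ZMod.intCast_zmod_eq_zero_iff_dvd] at h
  have : Even c := by
    obtain ⟨d, hd⟩ := h
    exact ⟨d, by rw [hd]; push_cast; ring⟩
  rw [sg, Int.negOnePow_even _ this]; rfl

lemma comm_index (j : ℤ) :
    (HH.map (MulAut.conj (⟨j, 0, 0⟩ : Nil)).toMonoidHom).relIndex HH ≠ 0 := by
  have h1 : (par.ker).relIndex HH ≠ 0 := by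
    have : (par.ker).FiniteIndex := inferInstance
    exact ne_zero_of_dvd_ne_zero this.index_ne_zero (Subgroup.relIndex_dvd_index_of_normal par.ker HH)
  have h2 : par.ker ⊓ HH ≤ HH.map (MulAut.conj (⟨j, 0, 0⟩ : Nil)).toMonoidHom := by
    rintro g ⟨hg1, hg2⟩
    refine ⟨g, hg2, ?_⟩
    have hs : sg g.c = 1 := sg_even_of hg1
    have e : (⟨j, 0, 0⟩ : Nil) * g = g * ⟨j, 0, 0⟩ := by
      obtain ⟨ha, hb⟩ := hg2
      ext
      · simp [ha, hb, hs]
      · simp [hb]
      · simp
    change (⟨j, 0, 0⟩ : Nil) * g * (⟨j, 0, 0⟩ : Nil)⁻¹ = g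
    rw [e, mul_inv_cancel_right]
  have h3 : (par.ker ⊓ HH).relIndex HH ≠ 0 := by
    rw [Subgroup.inf_relIndex_right]; exact h1
  intro h4
  exact h3 (Nat.eq_zero_of_zero_dvd (h4 ▸ Subgroup.relIndex_dvd_of_le_left HH h2))

/-- the commutator of the cyclic subgroup is not covered by finitely many cosets -/
lemma not_finite (F : Finset Nil)
    (hF : ∀ g : Nil, (HH.map (MulAut.conj g).toMonoidHom).relIndex HH ≠ 0 →
          (HH.map (MulAut.conj g⁻¹).toMonoidHom).relIndex HH ≠ 0 →
          ∃ f ∈ F, f⁻¹ * g ∈ HH) : False := by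
  have hinv : ∀ j : ℤ, (⟨j, 0, 0⟩ : Nil)⁻¹ = ⟨-j, 0, 0⟩ := by
    intro j; ext <;> simp
  have h1 : ∀ j : ℤ, ∃ f ∈ F, f⁻¹ * (⟨j, 0, 0⟩ : Nil) ∈ HH := by
    intro j
    apply hF _ (comm_index j)
    rw [hinv]
    exact comm_index (-j)
  choose f hf hf2 using h1
  have hinj : Function.Injective (fun j : ℤ => (⟨f j, hf j⟩ : F)) := by
    intro i j hij
    have hij' : f i = f j := congrArg Subtype.val hij
    have h2 := HH.mul_mem (HH.inv_mem (hf2 i)) (hf2 j)
    rw [hij'] at h2
    have h3 : ((f j)⁻¹ * (⟨i, 0, 0⟩ : Nil))⁻¹ * ((f j)⁻¹ * ⟨j, 0, 0⟩) = ⟨-i, 0, 0⟩ * ⟨j, 0, 0⟩ := by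
      rw [← hinv]; group
    rw [h3] at h2
    have h4 := h2.1
    simp at h4
    linarith
  exact not_injective_infinite_finite _ hinj

end Pool.Agent.Helper158.PD3Nil
end part10

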