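import Mathlib
import Pool.Agent.Helper158.PD3Nil

/-! Subgroups of the Nil-manifold group of `Pool.Agent.Helper158.PD3Nil`. -/

namespace Pool.Agent.Helper158.NilSub

open Pool.Agent.Helper158.PD3Nil CategoryTheory

/-! ### free products -/

section coprod
variable {A B : Type} [Group A] [Group B]

/-- the first action on `A × B` -/
def actA : A →* Equiv.Perm (A × B) where
  toFun a := (Equiv.mulLeft a).prodCongr (Equiv.refl B)
  map_one' := by ext p <;> simp
  map_mul' a b := by ext p <;> simp [mul_assoc]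

def actB : B →* Equiv.Perm (A × B) where
  toFun b := (Equiv.refl A).prodCongr (Equiv.mulLeft b)
  map_one' := by ext p <;> simp
  map_mul' a b := by ext p <;> simp [mul_assoc]

/-- commuting elements of the two factors of a free product -/
lemma not_comm (x : A) (y : B) (hx : x * x ≠ 1) (hy : y ≠ 1)
    (h : (Monoid.Coprod.inl x : Monoid.Coprod A B) * Monoid.Coprod.inr y =
      Monoid.Coprod.inr y * Monoid.Coprod.inl x) : False := by
  classical
  have hx1 : x ≠ 1 := by rintro rfl; exact hx (by simp)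
  let π : Equiv.Perm (A × B) := Equiv.swap (1, 1) (x, 1)
  let φ : Monoid.Coprod A B →* Equiv.Perm (A × B) :=
    Monoid.Coprod.lift actA ((MulAut.conj π).toMonoidHom.comp actB)
  have h1 := congrArg φ h
  simp only [map_mul, φ, Monoid.Coprod.lift_apply_inl, Monoid.Coprod.lift_apply_inr] at h1
  have h2 := congrArg (fun σ : Equiv.Perm (A × B) => σ (1, y⁻¹)) h1
  have e1 : π (1, y⁻¹) = (1, y⁻¹) := by
    apply Equiv.swap_apply_of_ne_of_ne
    · intro e; exact hy (by simpa using congrArg Prod.snd e)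
    · intro e; exact hx1 (by simpa using (congrArg Prod.fst e).symm)
  have e2 : π (x, y⁻¹) = (x, y⁻¹) := by
    apply Equiv.swap_apply_of_ne_of_ne
    · intro e; exact hy (by simpa using congrArg Prod.snd e)
    · intro e; exact hy (by simpa using congrArg Prod.snd e)
  have hinv : π⁻¹ = π := Equiv.swap_inv _ _
  have e3 : π (1, 1) = (x, 1) := Equiv.swap_apply_left _ _
  have e4 : π (x, 1) = (1, 1) := Equiv.swap_apply_right _ _
  simp only [MonoidHom.comp_apply, MulEquiv.coe_toMonoidHom, MulAut.conj_apply, hinv,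
    Equiv.Perm.mul_apply] at h2
  have a1 : ∀ p : A × B, (actA x : Equiv.Perm (A × B)) p = (x * p.1, p.2) := fun _ => rfl
  have b1 : ∀ p : A × B, (actB y : Equiv.Perm (A × B)) p = (p.1, y * p.2) := fun _ => rfl
  rw [e1, a1, b1, a1, b1] at h2
  simp only [mul_inv_cancel, mul_one] at h2
  rw [e3, e2] at h2
  simp only [mul_inv_cancel] at h2
  rw [e4] at h2
  exact hx (congrArg Prod.fst h2)

/-- A torsion free group in which squares commute is not a free product. -/
lemma indec {U : Type} [Group U] (htf : ∀ u : U, u * u = 1 → u = 1)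
    (hsq : ∀ u v : U, (u * u) * (v * v) = (v * v) * (u * u))
    (e : U ≃* Monoid.Coprod A B) : Subsingleton A ∨ Subsingleton B := by
  by_contra hc
  push Not at hc
  obtain ⟨hA, hB⟩ := hc
  obtain ⟨a, ha⟩ := exists_ne (1 : A)
  obtain ⟨b, hb⟩ := exists_ne (1 : B)
  have htf' : ∀ w : Monoid.Coprod A B, w * w = 1 → w = 1 := by
    intro w hw
    have h1 := htf (e.symm w) (by rw [← map_mul, hw, map_one])
    rw [← e.apply_symm_apply w, h1, map_one]
  have hsq' : ∀ u v : Monoid.Coprod A B, (u * u) * (v * v) = (v * v) * (u * u) := by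
    intro u v
    have h1 := congrArg e (hsq (e.symm u) (e.symm v))
    simpa using h1
  have tfA : ∀ x : A, x * x = 1 → x = 1 := by
    intro x hx
    have h1 := htf' (Monoid.Coprod.inl x) (by rw [← map_mul, hx, map_one])
    exact Monoid.Coprod.inl_injective (h1.trans (map_one _).symm)
  have tfB : ∀ x : B, x * x = 1 → x = 1 := by
    intro x hx
    have h1 := htf' (Monoid.Coprod.inr x) (by rw [← map_mul, hx, map_one])
    exact Monoid.Coprod.inr_injective (h1.trans (map_one _).symm)
  apply not_comm (a * a) (b * b)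
  · intro h1; exact ha (tfA a (tfA _ h1))
  · intro h1; exact hb (tfB b h1)
  · rw [map_mul, map_mul]
    exact hsq' _ _

end coprod

/-! ### the subgroups -/

lemma sg_odd_even (c : ℤ) : Even c → sg c = 1 := by
  intro h
  rw [sg, Int.negOnePow_even _ h]; rfl

/-- `U = ⟨z, t⟩` -/
def UU : Subgroup Nil where
  carrier := {g | g.b = 0}
  one_mem' := rfl
  mul_mem' := by
    rintro x y (h1 : x.b = 0) (h2 : y.b = 0)
    change (x * y).b = 0
    simp [h1, h2]
  inv_mem' := by
    rintro x (h1 : x.b = 0)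
    change (x⁻¹).b = 0
    simp [h1]

/-- `N = ⟨z, t²⟩` -/
def NN : Subgroup Nil where
  carrier := {g | g.b = 0 ∧ Even g.c}
  one_mem' := ⟨rfl, by simp⟩
  mul_mem' := by
    rintro x y ⟨h1, h2⟩ ⟨h3, h4⟩
    exact ⟨by simp [h1, h3], by rw [Nil.mul_c]; exact h2.add h4⟩
  inv_mem' := by
    rintro x ⟨h1, h2⟩
    exact ⟨by simp [h1], by rw [Nil.inv_c]; exact h2.neg⟩

lemma mem_UU {g : Nil} : g ∈ UU ↔ g.b = 0 := Iff.rfl
lemma mem_NN {g : Nil} : g ∈ NN ↔ g.b = 0 ∧ Even g.c := Iff.rfl

lemma NN_le : NN ≤ UU := fun _ h => h.1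

lemma NN_normal : NN.Normal where
  conj_mem n hn g := by
    obtain ⟨h1, h2⟩ := hn
    have hs := sg_odd_even _ h2
    refine ⟨?_, ?_⟩
    · have := sg_mul_self g.c
      simp only [Nil.mul_b, Nil.mul_c, Nil.inv_b, h1, sg_add, hs]
      linear_combination (-g.b) * this
    · simpa using h2

lemma pow_zz (n : ℕ) : zz ^ n = ⟨n, 0, 0⟩ := by
  induction n with
  | zero => rfl
  | succ n ih => rw [pow_succ, ih]; ext <;> simp

lemma zpow_zz (n : ℤ) : zz ^ n = ⟨n, 0, 0⟩ := by
  obtain ⟨k, rfl | rfl⟩ := n.eq_nat_or_neg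
  · rw [zpow_natCast, pow_zz]
  · rw [zpow_neg, zpow_natCast, pow_zz]; ext <;> simp

lemma zpow_tt (n : ℤ) : tt ^ n = ⟨0, 0, n⟩ := by
  obtain ⟨k, rfl | rfl⟩ := n.eq_nat_or_neg
  · rw [zpow_natCast, pow_tt]
  · rw [zpow_neg, zpow_natCast, pow_tt]; ext <;> simp

lemma UU_fg : UU.FG := by
  refine ⟨{zz, tt}, le_antisymm ?_ ?_⟩
  · rw [Subgroup.closure_le]
    intro g hg
    simp only [Finset.coe_insert, Finset.coe_singleton, Set.mem_insert_iff,
      Set.mem_singleton_iff] at hg
    rcases hg with rfl | rfl <;> rfl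
  · intro g (hg : g.b = 0)
    have e : g = zz ^ g.a * tt ^ g.c := by
      rw [zpow_zz, zpow_tt]
      ext <;> simp [hg]
    rw [e]
    apply Subgroup.mul_mem
    · exact Subgroup.zpow_mem _ (Subgroup.subset_closure (by simp)) _
    · exact Subgroup.zpow_mem _ (Subgroup.subset_closure (by simp)) _

lemma UU_index : UU.index = 0 := by
  by_contra h
  obtain ⟨n, hn, hx⟩ := Subgroup.exists_pow_mem_of_index_ne_zero h xx
  have h1 := hx.2
  rw [pow_xx] at h1
  have h2 : (n : ℤ) = 0 := h1
  omega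

lemma UU_normalizer : Subgroup.normalizer (UU : Set Nil) = UU := by
  apply le_antisymm _ Subgroup.le_normalizer
  intro g hg
  have h1 : g * tt * g⁻¹ ∈ UU := (Subgroup.mem_normalizer_iff.1 hg tt).1 rfl
  rw [mem_UU] at h1 ⊢
  have := sg_mul_self g.c
  simp only [Nil.mul_b, Nil.mul_c, Nil.inv_b, sg_add, tt_b, tt_c, sg_one] at h1
  have h2 : 2 * g.b = 0 := by linear_combination h1 - g.b * this
  linarith

lemma NN_not_cyclic : ¬ IsCyclic NN := by
  intro h
  obtain ⟨g, hg⟩ := h.exists_generator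
  let φ : NN →* Multiplicative ℤ :=
    { toFun := fun n => Multiplicative.ofAdd (n : Nil).c
      map_one' := rfl
      map_mul' := fun a b => by simp [ofAdd_add] }
  obtain ⟨m, hm⟩ := hg ⟨zz, rfl, by simp⟩
  obtain ⟨n, hn⟩ := hg ⟨tt ^ (2 : ℤ), by rw [zpow_tt], by rw [zpow_tt]; exact even_two⟩
  have h1 : m * (g : Nil).c = 0 := by
    have := congrArg (fun u => Multiplicative.toAdd (φ u)) hm
    simp only [map_zpow, toAdd_zpow, smul_eq_mul] at this
    exact this
  have h2 : n * (g : Nil).c = 2 := by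
    have := congrArg (fun u => Multiplicative.toAdd (φ u)) hn
    simp only [map_zpow, toAdd_zpow, smul_eq_mul] at this
    refine Eq.trans this ?_
    change (tt ^ (2 : ℤ)).c = 2
    rw [zpow_tt]
  rcases mul_eq_zero.1 h1 with h3 | h3
  · subst h3
    simp only [zpow_zero] at hm
    have := congrArg (fun u : NN => (u : Nil).a) hm
    simp at this
  · rw [h3] at h2; simp at h2

lemma UU_tf (u : UU) (h : u * u = 1) : u = 1 := by
  obtain ⟨g, hg⟩ := u
  have hg' : g.b = 0 := hg
  have h1 : g * g = 1 := congrArg Subtype.val h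
  have hc := congrArg Nil.c h1
  have ha := congrArg Nil.a h1
  simp only [Nil.mul_c, Nil.mul_a, Nil.one_c, Nil.one_a, hg'] at hc ha
  have hc0 : g.c = 0 := by linarith
  rw [hc0] at ha
  simp only [sg_zero] at ha
  apply Subtype.ext
  exact Nil.ext (by simp only [Subgroup.coe_one, Nil.one_a]; linarith) hg' hc0

lemma UU_sq (u v : UU) : (u * u) * (v * v) = (v * v) * (u * u) := by
  obtain ⟨g, hg⟩ := u
  obtain ⟨h, hh⟩ := v
  have hg' : g.b = 0 := hg
  have hh' : h.b = 0 := hh
  apply Subtype.ext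
  change (g * g) * (h * h) = (h * h) * (g * g)
  have e1 := sg_mul_self g.c
  have e2 := sg_mul_self h.c
  ext
  · simp only [Nil.mul_a, Nil.mul_b, Nil.mul_c, hg', hh', sg_add]
    linear_combination (h.a + sg h.c * h.a) * e1 - (g.a + sg g.c * g.a) * e2
  · simp only [Nil.mul_b, hg', hh', mul_zero, add_zero]
  · simp only [Nil.mul_c]; ring

/-! ### the resolution -/

/-- the free modules -/
abbrev PM (i : ℕ) : Type := Fin (mm i) → MonoidAlgebra ℤ Nil

noncomputable def dm (i : ℕ) : PM (i + 1) →ₗ[MonoidAlgebra ℤ Nil] PM i where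
  toFun x j := ∑ l, x l * Mx i l j
  map_add' x y := by
    funext j
    simp only [Pi.add_apply, add_mul, Finset.sum_add_distrib]
  map_smul' r x := by
    funext j
    simp only [Pi.smul_apply, smul_eq_mul, RingHom.id_apply, Finset.mul_sum, mul_assoc]

noncomputable def em : PM 0 →+ ℤ where
  toFun x := ∑ i, ag ℤ Nil (x i)
  map_zero' := by simp [ag_zero]
  map_add' x y := by simp only [Pi.add_apply, ag_add, Finset.sum_add_distrib]

lemma dm_apply (i : ℕ) (x : PM (i + 1)) (j : Fin (mm i)) : dm i x j = ∑ l, x l * Mx i l j := rfl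
lemma em_apply (x : PM 0) : em x = ∑ i, ag ℤ Nil (x i) := rfl

lemma em_smul (g : Nil) (x : PM 0) : em (MonoidAlgebra.of ℤ Nil g • x) = em x := by
  rw [em_apply, em_apply]
  refine Finset.sum_congr rfl fun i _ => ?_
  rw [Pi.smul_apply, smul_eq_mul, ag_mul, MonoidAlgebra.of_apply, ag_single, one_mul]

lemma em_surj : Function.Surjective em := by
  intro c
  obtain ⟨f, hf⟩ := good.hε c
  exact ⟨f, hf⟩

lemma em_ker (x : PM 0) : em x = 0 ↔ x ∈ LinearMap.range (dm 0) := by
  constructor
  · intro hx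
    obtain ⟨g, hg⟩ := good.hex0 (Finsupp.equivFunOnFinite.symm x) hx
    exact ⟨g, by funext j; rw [dm_apply]; exact (hg j).symm⟩
  · rintro ⟨y, rfl⟩
    rw [em_apply]
    simp_rw [dm_apply]
    have : ∀ j, ag ℤ Nil (∑ l, y l * Mx 0 l j) = ∑ l, ag ℤ Nil (y l) * ag ℤ Nil (Mx 0 l j) := by
      intro j
      have h1 := map_sum (⟨⟨ag ℤ Nil, ag_zero⟩, ag_add⟩ : MonoidAlgebra ℤ Nil →+ ℤ)
        (fun l => y l * Mx 0 l j) Finset.univ
      refine h1.trans (Finset.sum_congr rfl fun l _ => ag_mul _ _)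
    simp_rw [this]
    rw [Finset.sum_comm]
    refine Finset.sum_eq_zero fun l _ => ?_
    rw [← Finset.mul_sum, good.h0, mul_zero]

lemma dm_ker (i : ℕ) (x : PM (i + 1)) : dm i x = 0 ↔ x ∈ LinearMap.range (dm (i + 1)) := by
  constructor
  · intro hx
    obtain ⟨g, hg⟩ := good.hex i (Finsupp.equivFunOnFinite.symm x) (by
      intro l
      have := congrFun hx l
      rw [dm_apply] at this
      exact this)
    exact ⟨g, by funext j; rw [dm_apply]; exact (hg j).symm⟩
  · rintro ⟨y, rfl⟩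
    funext l
    rw [dm_apply]
    simp_rw [dm_apply, Finset.sum_mul]
    rw [Finset.sum_comm]
    refine Finset.sum_eq_zero fun a _ => ?_
    simp_rw [mul_assoc]
    rw [← Finset.mul_sum, good.hA, mul_zero]

lemma PM_subsingleton (i : ℕ) (hi : 3 < i) : Subsingleton (PM i) := by
  obtain ⟨j, rfl⟩ : ∃ j, i = j + 4 := ⟨i - 4, by omega⟩
  change Subsingleton (Fin 0 → MonoidAlgebra ℤ Nil)
  infer_instance

/-- cohomology vanishes outside degree three -/
lemma coh (i : ℕ) (hi : i ≠ 3) : Subsingleton (groupCohomology (Rep.leftRegular ℤ Nil) i) := by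
  match i, hi with
  | 0, _ => exact H0
  | 1, _ => exact H1
  | 2, _ => exact H2
  | n + 4, _ =>
    apply good.vanish_succ _ (n + 3)
    intro x _
    refine ⟨0, ?_⟩
    have h1 : x = 0 := by
      rw [hom_eq_zero_iff]
      intro j
      exact Fin.elim0 j
    rw [h1]
    simp

lemma coh3 : Nonempty (groupCohomology (Rep.leftRegular ℤ Nil) 3 ≃+ ℤ) := H3

end Pool.Agent.Helper158.NilSub
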