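import Pool.Agent.Helper158.Bridge

namespace Pool.Agent.Helper158

section JJ

variable {H : Type} [Group H]

/-- the augmentation -/
noncomputable def augS : MonoidAlgebra ℤ H →ₐ[ℤ] ℤ := MonoidAlgebra.lift ℤ ℤ H (1 : H →* ℤ)

theorem augS_of (g : H) : augS (MonoidAlgebra.of ℤ H g) = 1 := by
  rw [augS, MonoidAlgebra.lift_of]
  rfl

/-- the subgroup generated by the differences `h m - m` -/
def JJ (H : Type) [Group H] (M : Type) [AddCommGroup M] [Module (MonoidAlgebra ℤ H) M] :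
    AddSubgroup M :=
  AddSubgroup.closure {x | ∃ (h : H) (m : M), MonoidAlgebra.of ℤ H h • m - m = x}

variable {M N : Type} [AddCommGroup M] [Module (MonoidAlgebra ℤ H) M]
  [AddCommGroup N] [Module (MonoidAlgebra ℤ H) N]

theorem JJ_gen (h : H) (m : M) : MonoidAlgebra.of ℤ H h • m - m ∈ JJ H M :=
  AddSubgroup.subset_closure ⟨h, m, rfl⟩

theorem JJ_map (f : M →ₗ[MonoidAlgebra ℤ H] N) {x : M} (hx : x ∈ JJ H M) : f x ∈ JJ H N := by
  induction hx using AddSubgroup.closure_induction with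
  | mem x hx =>
    obtain ⟨h, m, rfl⟩ := hx
    rw [map_sub, map_smul]
    exact JJ_gen h _
  | zero => rw [map_zero]; exact zero_mem _
  | add x y _ _ hx hy => rw [map_add]; exact add_mem hx hy
  | neg x _ hx => rw [map_neg]; exact neg_mem hx

theorem JJ_smul (r : MonoidAlgebra ℤ H) (m : M) : r • m - augS r • m ∈ JJ H M := by
  induction r using MonoidAlgebra.induction_on with
  | of g =>
    rw [augS_of, one_smul]
    exact JJ_gen g m
  | add a b ha hb =>
    rw [map_add, add_smul, add_smul]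
    have := add_mem ha hb
    convert this using 1
    abel
  | smul n a ha =>
    rw [map_smul, smul_assoc, smul_assoc, ← smul_sub]
    exact zsmul_mem ha n

theorem JJ_of_aug {r : MonoidAlgebra ℤ H} (hr : augS r = 0) (m : M) : r • m ∈ JJ H M := by
  have := JJ_smul r m
  rwa [hr, zero_smul, sub_zero] at this

theorem aug_JJ {x : MonoidAlgebra ℤ H} (hx : x ∈ JJ H (MonoidAlgebra ℤ H)) : augS x = 0 := by
  induction hx using AddSubgroup.closure_induction with
  | mem x hx =>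
    obtain ⟨h, m, rfl⟩ := hx
    rw [map_sub, smul_eq_mul, map_mul, augS_of, one_mul, sub_self]
  | zero => rw [map_zero]
  | add x y _ _ hx hy => rw [map_add, hx, hy, add_zero]
  | neg x _ hx => rw [map_neg, hx, neg_zero]

theorem JJ_prod {x : M} {y : N} (hx : x ∈ JJ H M) (hy : y ∈ JJ H N) : (x, y) ∈ JJ H (M × N) := by
  have h1 := JJ_map (LinearMap.inl (MonoidAlgebra ℤ H) M N) hx
  have h2 := JJ_map (LinearMap.inr (MonoidAlgebra ℤ H) M N) hy
  have := add_mem h1 h2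
  simpa using this

end JJ

section Rank

variable {H : Type} [Group H] {P : ℕ → Type} [∀ i, AddCommGroup (P i)]
  [∀ i, Module (MonoidAlgebra ℤ H) (P i)] {d : ∀ i, P (i + 1) →ₗ[MonoidAlgebra ℤ H] P i}
  {ε : P 0 →+ ℤ} [∀ i, Module.Finite (MonoidAlgebra ℤ H) (P i)]
  [∀ i, Module.Projective (MonoidAlgebra ℤ H) (P i)]

/-- splitting claim -/
def Spl (d : ∀ i, P (i + 1) →ₗ[MonoidAlgebra ℤ H] P i) (i : ℕ) : Prop :=
  ∃ e : P i →ₗ[MonoidAlgebra ℤ H] P i, e ∘ₗ d i = 0 ∧ ∀ x, ∃ y, x - e x = d i y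

theorem dual_basis (M : Type) [AddCommGroup M] [Module (MonoidAlgebra ℤ H) M]
    [Module.Finite (MonoidAlgebra ℤ H) M] [Module.Projective (MonoidAlgebra ℤ H) M] :
    ∃ (n : ℕ) (p : Fin n → M) (π : Fin n → (M →ₗ[MonoidAlgebra ℤ H] MonoidAlgebra ℤ H)),
      ∀ x, x = ∑ j, π j x • p j := by
  obtain ⟨n, f, g, -, -, h⟩ :=
    Module.Finite.exists_comp_eq_id_of_projective (MonoidAlgebra ℤ H) M
  refine ⟨n, fun j => f (Pi.single j 1), fun j => LinearMap.proj j ∘ₗ g, fun x => ?_⟩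
  have h1 := LinearMap.congr_fun h x
  conv_lhs => rw [← LinearMap.id_apply (R := MonoidAlgebra ℤ H) x, ← h1]
  rw [LinearMap.comp_apply, LinearMap.pi_apply_eq_sum_univ f (g x)]
  refine Finset.sum_congr rfl fun j _ => ?_
  have : (fun i => if j = i then (1 : MonoidAlgebra ℤ H) else 0) = Pi.single j 1 := by
    funext i
    rw [Pi.single_apply]
    simp only [eq_comm]
  rw [this]
  rfl

theorem spl_step (hR : Reso P d ε) (hc : ∀ i, 3 ≤ i → ∀ f : P i →ₗ[MonoidAlgebra ℤ H] MonoidAlgebra ℤ H,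
    f ∈ cocyc d i → IsCob d i f) (i : ℕ) (hi : 2 ≤ i) (h : Spl d (i + 1)) : Spl d i := by
  obtain ⟨e, he, he2⟩ := h
  obtain ⟨n, p, π, hp⟩ := dual_basis (H := H) (P (i + 1))
  have h1 : ∀ j, ∃ ψ : P i →ₗ[MonoidAlgebra ℤ H] MonoidAlgebra ℤ H, ψ ∘ₗ d i = π j ∘ₗ e := by
    intro j
    apply hc (i + 1) (by omega)
    rw [mem_cocyc, LinearMap.comp_assoc, he, LinearMap.comp_zero]
  choose ψ hψ using h1
  let s : P i →ₗ[MonoidAlgebra ℤ H] P (i + 1) :=
    ∑ j, (LinearMap.toSpanSingleton (MonoidAlgebra ℤ H) _ (p j)) ∘ₗ ψ j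
  have hs : ∀ x, s (d i x) = e x := by
    intro x
    rw [hp (e x)]
    simp only [s, LinearMap.sum_apply, LinearMap.comp_apply, LinearMap.toSpanSingleton_apply]
    refine Finset.sum_congr rfl fun j _ => ?_
    have := LinearMap.congr_fun (hψ j) x
    simp only [LinearMap.comp_apply] at this
    rw [this]
  have hd : ∀ x, d i (e x) = d i x := by
    intro x
    obtain ⟨y, hy⟩ := he2 x
    have h3 := congrArg (d i) hy
    rw [hR.dd, map_sub, sub_eq_zero] at h3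
    exact h3.symm
  refine ⟨LinearMap.id - d i ∘ₗ s, ?_, ?_⟩
  · refine LinearMap.ext fun x => ?_
    simp only [LinearMap.comp_apply, LinearMap.sub_apply, LinearMap.id_apply, hs, hd, sub_self,
      LinearMap.zero_apply]
  · intro x
    refine ⟨s x, ?_⟩
    simp only [LinearMap.comp_apply, LinearMap.sub_apply, LinearMap.id_apply]
    abel

theorem spl_two (hR : Reso P d ε) (m : ℕ) (hm : ∀ i, m < i → Subsingleton (P i))
    (hc : ∀ i, 3 ≤ i → ∀ f : P i →ₗ[MonoidAlgebra ℤ H] MonoidAlgebra ℤ H,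
      f ∈ cocyc d i → IsCob d i f) : Spl d 2 := by
  have key : ∀ k i, 2 ≤ i → m < i + k → Spl d i := by
    intro k
    induction k with
    | zero =>
      intro i _ h
      have := hm i (by simpa using h)
      exact ⟨0, LinearMap.zero_comp _, fun x => ⟨0, Subsingleton.elim _ _⟩⟩
    | succ k ih =>
      intro i hi h
      exact spl_step hR hc i hi (ih (i + 1) (by omega) (by omega))
  exact key (m + 1) 2 le_rfl (by omega)

/-- The rank lemma on the finite resolution. -/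
theorem rank_P (hR : Reso P d ε) (m : ℕ) (hm : ∀ i, m < i → Subsingleton (P i))
    (hv : ∀ i, 3 ≤ i → Subsingleton (groupCohomology (Rep.leftRegular ℤ H) i))
    (h2 : Nonempty (groupCohomology (Rep.leftRegular ℤ H) 2 ≃+ ℤ)) :
    ∃ φ : P 2 →ₗ[MonoidAlgebra ℤ H] MonoidAlgebra ℤ H, ∀ p : P 2, d 1 p ∈ JJ H (P 1) →
      augS (φ p) = 0 → ∃ v ∈ JJ H (P 2), d 1 v = d 1 p := by
  have hc : ∀ i, 3 ≤ i → ∀ f : P i →ₗ[MonoidAlgebra ℤ H] MonoidAlgebra ℤ H,
      f ∈ cocyc d i → IsCob d i f := by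
    intro i hi f hf
    obtain ⟨π, -, h2⟩ := hR.coh i
    have := hv i hi
    exact (h2 ⟨f, hf⟩).1 (Subsingleton.elim _ _)
  obtain ⟨e, he, he2⟩ := spl_two hR m hm hc
  obtain ⟨π, hπ, hπ0⟩ := hR.coh 2
  obtain ⟨E⟩ := h2
  obtain ⟨φ0, hφ0⟩ := hπ (E.symm 1)
  have hgen : ∀ f : cocyc d 2, ∃ (n : ℤ) (ψ : P 1 →ₗ[MonoidAlgebra ℤ H] MonoidAlgebra ℤ H),
      (f : P 2 →ₗ[MonoidAlgebra ℤ H] MonoidAlgebra ℤ H) = n • φ0.1 + ψ ∘ₗ d 1 := by
    intro f
    have h1 : π (f - (E (π f)) • φ0) = 0 := by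
      rw [map_sub, map_zsmul, hφ0, ← map_zsmul, zsmul_one, sub_eq_zero]
      simp
    obtain ⟨ψ, hψ⟩ := (hπ0 _).1 h1
    refine ⟨E (π f), ψ, ?_⟩
    rw [hψ]
    simp
  refine ⟨φ0.1, fun p hp hφ => ⟨e p, ?_, ?_⟩⟩
  · obtain ⟨n, b, β, hb⟩ := dual_basis (H := H) (P 2)
    rw [hb (e p)]
    refine sum_mem fun j _ => JJ_of_aug ?_ _
    obtain ⟨n, ψ, hψ⟩ := hgen ⟨β j ∘ₗ e, by
      rw [mem_cocyc, LinearMap.comp_assoc, he, LinearMap.comp_zero]⟩
    have h3 := LinearMap.congr_fun hψ p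
    simp only [LinearMap.comp_apply, LinearMap.add_apply, LinearMap.smul_apply] at h3
    rw [h3, map_add, map_zsmul, hφ, smul_zero, zero_add]
    exact aug_JJ (JJ_map ψ hp)
  · obtain ⟨y, hy⟩ := he2 p
    have h3 := congrArg (d 1) hy
    rw [hR.dd, map_sub, sub_eq_zero] at h3
    exact h3.symm

end Rank

end Pool.Agent.Helper158
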