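import Pool.Agent.Helper158.Alg
import Pool.Agent.Helper158.Coh
import Pool.Agent.Helper158.NiceP
import Pool.Agent.Helper158.Bridge

namespace Pool.Agent.Helper158

open Finsupp

theorem Nice.transport {M M' : Type*} [AddCommGroup M] [AddCommGroup M'] {G : Type*} [Group G]
    {act : G → M → M} {act' : G → M' → M'} {a b z c d w : G}
    (hN : Nice act' a b z c d w) (e : M ≃+ M') (he : ∀ g m, e (act g m) = act' g (e m)) :
    Nice act a b z c d w := by
  have he' : ∀ g m, e (act g m - m) = act' g (e m) - e m := by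
    intro g m
    rw [map_sub, he]
  have hi : ∀ g m', e.symm (act' g m' - m') = act g (e.symm m') - e.symm m' := by
    intro g m'
    rw [AddEquiv.symm_apply_eq, he', AddEquiv.apply_symm_apply]
  refine ⟨?_, ?_, ?_, ?_, ?_, ?_⟩
  · intro m h
    have := hN.zinj (e m) (by rw [← he', h, map_zero])
    simpa using this
  · intro m h
    have := hN.winj (e m) (by rw [← he', h, map_zero])
    simpa using this
  · intro x y h
    obtain ⟨u, h1, h2⟩ := hN.kos (e x) (e y) (by rw [← he', ← he', h])
    refine ⟨e.symm u, ?_, ?_⟩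
    · rw [← hi, ← h1, AddEquiv.symm_apply_apply]
    · rw [← hi, ← h2, AddEquiv.symm_apply_apply]
  · intro x y u h
    obtain ⟨x', y', h1, h2⟩ := hN.free1 (e x) (e y) (e u) (by
      rw [← he', ← he', ← he', ← map_add, h])
    refine ⟨e.symm x', e.symm y', ?_, ?_⟩
    · rw [← hi, ← h1, AddEquiv.symm_apply_apply]
    · rw [← hi, ← h2, AddEquiv.symm_apply_apply]
  · intro x y u h
    obtain ⟨x', y', h1, h2⟩ := hN.free2 (e x) (e y) (e u) (by
      rw [← he', ← he', ← he', ← map_add, h])
    refine ⟨e.symm x', e.symm y', ?_, ?_⟩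
    · rw [← hi, ← h1, AddEquiv.symm_apply_apply]
    · rw [← hi, ← h2, AddEquiv.symm_apply_apply]
  · intro x1 x2 x3 y1 y2 y3 h
    obtain ⟨u, v, h1⟩ := hN.tree (e x1) (e x2) (e x3) (e y1) (e y2) (e y3) (by
      simp only [← he', ← map_add]
      rw [h])
    refine ⟨e.symm u, e.symm v, ?_⟩
    simp only [← hi, ← he', ← map_add] at h1 ⊢
    rw [← h1, AddEquiv.symm_apply_apply]

/-- the group ring -/
abbrev RG : Type := MonoidAlgebra ℤ GM

/-- right multiplication by inverses -/
noncomputable def ρR : GM →* Module.End RG RG where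
  toFun g := LinearMap.toSpanSingleton RG RG (MonoidAlgebra.of ℤ GM g⁻¹)
  map_one' := by
    refine LinearMap.ext fun x => ?_
    simp [MonoidAlgebra.one_def.symm]
  map_mul' g h := by
    refine LinearMap.ext fun x => ?_
    simp [Module.End.mul_apply, mul_assoc, MonoidAlgebra.single_mul_single]

theorem ρR_apply (g : GM) (x : RG) : ρR g x = x * MonoidAlgebra.of ℤ GM g⁻¹ := rfl

/-- left multiplication -/
noncomputable def ρL : GM →* Module.End ℤ RG where
  toFun g := LinearMap.mulLeft ℤ (MonoidAlgebra.of ℤ GM g)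
  map_one' := by
    refine LinearMap.ext fun x => ?_
    simp [MonoidAlgebra.one_def.symm]
  map_mul' g h := by
    refine LinearMap.ext fun x => ?_
    simp [Module.End.mul_apply, ← mul_assoc, MonoidAlgebra.single_mul_single]

theorem ρL_apply (g : GM) (x : RG) : ρL g x = MonoidAlgebra.of ℤ GM g * x := rfl

theorem coeff_ρL (g : GM) (x : RG) : (ρL g x).coeff = permRep GM GM g x.coeff := by
  rw [ρL_apply]
  induction x using MonoidAlgebra.induction_on with
  | of h => simp [MonoidAlgebra.single_mul_single]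
  | add a b ha hb => rw [mul_add, MonoidAlgebra.coeff_add, ha, hb, MonoidAlgebra.coeff_add, map_add]
  | smul n a ha => rw [mul_smul_comm, MonoidAlgebra.coeff_smul, ha, MonoidAlgebra.coeff_smul, map_smul]

/-- the antipode as an additive equivalence -/
noncomputable def eInv : RG ≃+ (GM →₀ ℤ) :=
  MonoidAlgebra.coeffAddEquiv.trans (Finsupp.domCongr (Equiv.inv GM))

theorem eInv_ρR (g : GM) (x : RG) : eInv (ρR g x) = permRep GM GM g (eInv x) := by
  rw [ρR_apply]
  induction x using MonoidAlgebra.induction_on with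
  | of h => simp [MonoidAlgebra.single_mul_single, eInv]
  | add a b ha hb => rw [add_mul, map_add, ha, hb, map_add, map_add]
  | smul n a ha => rw [smul_mul_assoc, map_zsmul, ha, map_zsmul, map_zsmul]

theorem nice_R : Nice (fun g m => ρR g m) gA gB gZ gC gD gW :=
  nice_perm.transport eInv eInv_ρR

theorem nice_L : Nice (fun g m => ρL g m) gA gB gZ gC gD gW :=
  nice_perm.transport MonoidAlgebra.coeffAddEquiv coeff_ρL

/-- the augmentation -/
noncomputable def aug : RG →ₐ[ℤ] ℤ := MonoidAlgebra.lift ℤ ℤ GM (1 : GM →* ℤ)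

theorem aug_of (g : GM) : aug (MonoidAlgebra.of ℤ GM g) = 1 := by
  rw [aug, MonoidAlgebra.lift_of]
  rfl

theorem aug_eq (x : RG) : aug x = x.coeff.sum (fun _ n => n) := by
  simp [aug, MonoidAlgebra.lift_apply]

theorem aug_ρR (g : GM) (x : RG) : aug (ρR g x) = aug x := by
  rw [ρR_apply, map_mul, aug_of, mul_one]

theorem aug_ρL (g : GM) (x : RG) : aug (ρL g x) = aug x := by
  rw [ρL_apply, map_mul, aug_of, one_mul]

theorem aug_R (x : RG) (hx : aug x = 0) (I : AddSubgroup RG)
    (hI : ∀ m, ρR gA m - m ∈ I ∧ ρR gB m - m ∈ I ∧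
      ρR gZ m - m ∈ I ∧ ρR gC m - m ∈ I ∧ ρR gD m - m ∈ I ∧
      ρR gW m - m ∈ I) : x ∈ I := by
  have h := aug_perm (eInv x) (by
    rw [← hx, aug_eq]
    simp [eInv, Finsupp.sum_equivMapDomain]) (I.comap eInv.symm.toAddMonoidHom) (by
    intro m
    have h := hI (eInv.symm m)
    have h2 : ∀ g, eInv.symm (permRep GM GM g m - m) = ρR g (eInv.symm m) - eInv.symm m := by
      intro g
      rw [AddEquiv.symm_apply_eq, map_sub, eInv_ρR, AddEquiv.apply_symm_apply]
    simp only [← h2] at h
    exact h)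
  simpa using h

theorem aug_L (x : RG) (hx : aug x = 0) (I : AddSubgroup RG)
    (hI : ∀ m, ρL gA m - m ∈ I ∧ ρL gB m - m ∈ I ∧
      ρL gZ m - m ∈ I ∧ ρL gC m - m ∈ I ∧ ρL gD m - m ∈ I ∧
      ρL gW m - m ∈ I) : x ∈ I := by
  let e : RG ≃+ (GM →₀ ℤ) := MonoidAlgebra.coeffAddEquiv
  have h := aug_perm (e x) (by
    rw [← hx, aug_eq]
    rfl) (I.comap e.symm.toAddMonoidHom) (by
    intro m
    have h := hI (e.symm m)
    have h2 : ∀ g, e.symm (permRep GM GM g m - m) = ρL g (e.symm m) - e.symm m := by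
      intro g
      rw [AddEquiv.symm_apply_eq, map_sub]
      congr 1
      exact (coeff_ρL g (e.symm m)).symm
    simp only [← h2] at h
    exact h)
  simpa using h

/-- the modules of the resolution -/
def PT : ℕ → Type
  | 0 => RG × RG
  | 1 => RG × RG × RG × RG × RG × RG × RG
  | 2 => RG × RG × RG × RG × RG × RG
  | 3 => RG
  | _ => PUnit

noncomputable instance PT.acg : ∀ i, AddCommGroup (PT i)
  | 0 => inferInstanceAs (AddCommGroup (RG × RG))
  | 1 => inferInstanceAs (AddCommGroup (RG × RG × RG × RG × RG × RG × RG))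
  | 2 => inferInstanceAs (AddCommGroup (RG × RG × RG × RG × RG × RG))
  | 3 => inferInstanceAs (AddCommGroup RG)
  | (_ + 4) => inferInstanceAs (AddCommGroup PUnit)

noncomputable instance PT.mod : ∀ i, Module RG (PT i)
  | 0 => inferInstanceAs (Module RG (RG × RG))
  | 1 => inferInstanceAs (Module RG (RG × RG × RG × RG × RG × RG × RG))
  | 2 => inferInstanceAs (Module RG (RG × RG × RG × RG × RG × RG))
  | 3 => inferInstanceAs (Module RG RG)
  | (_ + 4) => inferInstanceAs (Module RG PUnit)

instance PT.fin : ∀ i, Module.Finite RG (PT i)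
  | 0 => inferInstanceAs (Module.Finite RG (RG × RG))
  | 1 => inferInstanceAs (Module.Finite RG (RG × RG × RG × RG × RG × RG × RG))
  | 2 => inferInstanceAs (Module.Finite RG (RG × RG × RG × RG × RG × RG))
  | 3 => inferInstanceAs (Module.Finite RG RG)
  | (_ + 4) => inferInstanceAs (Module.Finite RG PUnit)

instance PT.proj : ∀ i, Module.Projective RG (PT i)
  | 0 => inferInstanceAs (Module.Projective RG (RG × RG))
  | 1 => inferInstanceAs (Module.Projective RG (RG × RG × RG × RG × RG × RG × RG))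
  | 2 => inferInstanceAs (Module.Projective RG (RG × RG × RG × RG × RG × RG))
  | 3 => inferInstanceAs (Module.Projective RG RG)
  | (_ + 4) => inferInstanceAs (Module.Projective RG PUnit)

/-- the differentials of the resolution -/
noncomputable def dT : ∀ i, PT (i + 1) →ₗ[RG] PT i
  | 0 => bd1 ρR gA gB gZ gC gD gW
  | 1 => bd2 ρR gA gB gZ gC gD gW
  | 2 => bd3 ρR gA gB gZ gC gD gW
  | (_ + 3) => 0

/-- the augmentation of the resolution -/
noncomputable def εR : RG × RG →+ ℤ :=
  AddMonoidHom.mk' (fun p : RG × RG => aug p.1 - aug p.2) (by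
    intro p q
    simp only [Prod.fst_add, Prod.snd_add, map_add]
    abel)

/-- the augmentation of the resolution -/
noncomputable def εT : PT 0 →+ ℤ := εR

theorem ex0_R (x : RG × RG) :
    εR x = 0 ↔ ∃ p, bd1 ρR gA gB gZ gC gD gW p = x := by
  constructor
  · intro h
    obtain ⟨x1, x2⟩ := x
    change aug x1 - aug x2 = 0 at h
    let I : AddSubgroup RG :=
      { carrier := {m | ∃ p1 p2 p3 p4 p5 p6, m =
          (ρR gA p1 - p1) + (ρR gB p2 - p2) + (ρR gZ p3 - p3)
          + ((ρR gC p4 - p4) + (ρR gD p5 - p5) + (ρR gW p6 - p6))}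
        zero_mem' := ⟨0, 0, 0, 0, 0, 0, by simp⟩
        add_mem' := by
          rintro _ _ ⟨p1, p2, p3, p4, p5, p6, rfl⟩ ⟨q1, q2, q3, q4, q5, q6, rfl⟩
          refine ⟨p1 + q1, p2 + q2, p3 + q3, p4 + q4, p5 + q5, p6 + q6, ?_⟩
          simp only [map_add]
          abel
        neg_mem' := by
          rintro _ ⟨p1, p2, p3, p4, p5, p6, rfl⟩
          refine ⟨-p1, -p2, -p3, -p4, -p5, -p6, ?_⟩
          simp only [map_neg]
          abel }
    have hm : x1 - x2 ∈ I := by
      apply aug_R
      · rw [map_sub, h]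
      · intro m
        refine ⟨⟨m, 0, 0, 0, 0, 0, by simp⟩, ⟨0, m, 0, 0, 0, 0, by simp⟩,
          ⟨0, 0, m, 0, 0, 0, by simp⟩, ⟨0, 0, 0, m, 0, 0, by simp⟩,
          ⟨0, 0, 0, 0, m, 0, by simp⟩, ⟨0, 0, 0, 0, 0, m, by simp⟩⟩
    obtain ⟨p1, p2, p3, p4, p5, p6, hp⟩ := hm
    refine ⟨(p1, p2, p3, -p4, -p5, -p6,
      (ρR gA p1 - p1) + (ρR gB p2 - p2) + (ρR gZ p3 - p3) - x1), ?_⟩
    simp only [bd1, LinearMap.coe_mk, AddHom.coe_mk, sub_one_apply, map_neg]
    ext1
    · simp only
      abel
    · have : x2 = x1 - (x1 - x2) := by abel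
      rw [this, hp]
      simp only
      abel
  · rintro ⟨p, rfl⟩
    simp only [bd1, LinearMap.coe_mk, AddHom.coe_mk, sub_one_apply]
    change aug _ - aug _ = 0
    simp only [map_sub, map_add, aug_ρR]
    ring

theorem reso_T : Reso PT dT εT where
  surj n := ⟨((n : RG), 0), by
    change aug (n : RG) - aug 0 = n
    simp⟩
  equi g x := by
    obtain ⟨x1, x2⟩ := x
    change aug (MonoidAlgebra.of ℤ GM g * x1) - aug (MonoidAlgebra.of ℤ GM g * x2) =
      aug x1 - aug x2
    rw [map_mul, map_mul, aug_of, one_mul, one_mul]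
  ex0 x := by
    constructor
    · intro h
      obtain ⟨u, hu⟩ := (ex0_R x).1 h
      exact ⟨u, hu⟩
    · rintro ⟨y, rfl⟩
      exact (ex0_R _).2 ⟨y, rfl⟩
  ex i x := by
    match i, x with
    | 0, x =>
      constructor
      · intro h
        obtain ⟨u, hu⟩ := exact1 rels nice_R x h
        exact ⟨u, hu⟩
      · rintro ⟨y, rfl⟩
        exact bd1_bd2 ρR rels y
    | 1, x =>
      constructor
      · intro h
        obtain ⟨u, hu⟩ := exact2 rels nice_R x h
        exact ⟨u, hu⟩
      · rintro ⟨y, rfl⟩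
        exact bd2_bd3 ρR rels y
    | 2, x =>
      constructor
      · intro h
        exact ⟨0, (bd3_injective nice_R x h).symm⟩
      · rintro ⟨y, rfl⟩
        exact map_zero _
    | (i + 3), x =>
      constructor
      · intro h
        exact ⟨0, Subsingleton.elim (α := PUnit) _ _⟩
      · intro h
        rfl

end Pool.Agent.Helper158
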