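import Mathlib

namespace Pool.Agent.Helper158

theorem lift_range {S : Type*} [Ring S] {M N N' : Type*} [AddCommGroup M] [Module S M]
    [AddCommGroup N] [Module S N] [AddCommGroup N'] [Module S N'] [Module.Projective S M]
    (φ : M →ₗ[S] N) (ψ : N' →ₗ[S] N) (h : ∀ m, ∃ n, ψ n = φ m) :
    ∃ χ : M →ₗ[S] N', ∀ m, ψ (χ m) = φ m := by
  let φ' : M →ₗ[S] LinearMap.range ψ := φ.codRestrict _ (fun m => h m)
  obtain ⟨χ, hχ⟩ := Module.projective_lifting_property ψ.rangeRestrict φ'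
    ψ.surjective_rangeRestrict
  refine ⟨χ, fun m => ?_⟩
  have := LinearMap.congr_fun hχ m
  exact congrArg Subtype.val this

section

variable {S : Type*} [Ring S] {L0 L1 L2 P0 P1 P2 Z : Type*}
  [AddCommGroup L0] [Module S L0] [AddCommGroup L1] [Module S L1] [AddCommGroup L2] [Module S L2]
  [AddCommGroup P0] [Module S P0] [AddCommGroup P1] [Module S P1] [AddCommGroup P2] [Module S P2]
  [AddCommGroup Z] [Module S Z]
  [Module.Projective S L0] [Module.Projective S L1] [Module.Projective S L2]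
  [Module.Projective S P0] [Module.Projective S P1] [Module.Projective S P2]

/-- Comparison of two projective resolutions in low degrees. -/
theorem transfer (b1 : L2 →ₗ[S] L1) (b0 : L1 →ₗ[S] L0) (εL : L0 →ₗ[S] Z)
    (d1 : P2 →ₗ[S] P1) (d0 : P1 →ₗ[S] P0) (εP : P0 →ₗ[S] Z)
    (sL : Function.Surjective εL) (sP : Function.Surjective εP)
    (cL0 : ∀ x, εL (b0 x) = 0) (cL1 : ∀ x, b0 (b1 x) = 0)
    (cP0 : ∀ x, εP (d0 x) = 0) (cP1 : ∀ x, d0 (d1 x) = 0)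
    (eL0 : ∀ x, εL x = 0 → ∃ y, b0 y = x) (eL1 : ∀ x, b0 x = 0 → ∃ y, b1 y = x)
    (eP0 : ∀ x, εP x = 0 → ∃ y, d0 y = x) (eP1 : ∀ x, d0 x = 0 → ∃ y, d1 y = x) :
    ∃ (f1 : L1 →ₗ[S] P1) (f2 : L2 →ₗ[S] P2) (g1 : P1 →ₗ[S] L1) (g2 : P2 →ₗ[S] L2)
      (h1 : L1 →ₗ[S] L2), (∀ x, d1 (f2 x) = f1 (b1 x)) ∧ (∀ x, b1 (g2 x) = g1 (d1 x)) ∧
      ∀ x, b0 x = 0 → x - g1 (f1 x) = b1 (h1 x) := by
  obtain ⟨f0, hf0⟩ := lift_range εL εP (fun m => sP _)
  obtain ⟨f1, hf1⟩ := lift_range (f0 ∘ₗ b0) d0 (fun m => eP0 _ (by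
    rw [LinearMap.comp_apply, hf0, cL0]))
  obtain ⟨f2, hf2⟩ := lift_range (f1 ∘ₗ b1) d1 (fun m => eP1 _ (by
    rw [LinearMap.comp_apply, hf1, LinearMap.comp_apply, cL1, map_zero]))
  obtain ⟨g0, hg0⟩ := lift_range εP εL (fun m => sL _)
  obtain ⟨g1, hg1⟩ := lift_range (g0 ∘ₗ d0) b0 (fun m => eL0 _ (by
    rw [LinearMap.comp_apply, hg0, cP0]))
  obtain ⟨g2, hg2⟩ := lift_range (g1 ∘ₗ d1) b1 (fun m => eL1 _ (by
    rw [LinearMap.comp_apply, hg1, LinearMap.comp_apply, cP1, map_zero]))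
  obtain ⟨h0, hh0⟩ := lift_range (LinearMap.id - g0 ∘ₗ f0) b0 (fun m => eL0 _ (by
    rw [LinearMap.sub_apply, LinearMap.comp_apply, map_sub, hg0, hf0, LinearMap.id_apply,
      sub_self]))
  obtain ⟨h1, hh1⟩ := lift_range (LinearMap.id - g1 ∘ₗ f1 - h0 ∘ₗ b0) b1 (fun m => eL1 _ (by
    rw [LinearMap.sub_apply, LinearMap.sub_apply, LinearMap.comp_apply, LinearMap.comp_apply,
      map_sub, map_sub, hg1, hh0, LinearMap.comp_apply, hf1, LinearMap.sub_apply,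
      LinearMap.id_apply, LinearMap.id_apply, LinearMap.comp_apply, LinearMap.comp_apply]
    abel))
  refine ⟨f1, f2, g1, g2, h1, hf2, hg2, fun x hx => ?_⟩
  rw [hh1, LinearMap.sub_apply, LinearMap.sub_apply, LinearMap.comp_apply, LinearMap.comp_apply,
    hx, map_zero, sub_zero, LinearMap.id_apply]

end

end Pool.Agent.Helper158
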