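import Pool.Agent.Helper158.Sub
import Pool.Agent.Helper158.Transfer
import Pool.Agent.Helper158.Res

namespace Pool.Agent.Helper158

open Finsupp

/-- finite type resolution data -/
def FP (H : Type) [Group H] : Prop :=
  ∃ (P : ℕ → Type) (_ : ∀ i, AddCommGroup (P i)) (_ : ∀ i, Module (MonoidAlgebra ℤ H) (P i))
    (d : ∀ i, P (i + 1) →ₗ[MonoidAlgebra ℤ H] P i) (ε : P 0 →+ ℤ) (m : ℕ),
    (∀ i, Module.Finite (MonoidAlgebra ℤ H) (P i)) ∧
    (∀ i, Module.Projective (MonoidAlgebra ℤ H) (P i)) ∧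
    (∀ i, m < i → Subsingleton (P i)) ∧
    Function.Surjective ε ∧
    (∀ (h : H) (x : P 0), ε (MonoidAlgebra.of ℤ H h • x) = ε x) ∧
    (∀ x : P 0, ε x = 0 ↔ x ∈ LinearMap.range (d 0)) ∧
    (∀ (i : ℕ) (x : P (i + 1)), d i x = 0 ↔ x ∈ LinearMap.range (d (i + 1)))

/-- the trivial module -/
def TrivZ (_H : Type) : Type := ℤ

instance (H : Type) : AddCommGroup (TrivZ H) := inferInstanceAs (AddCommGroup ℤ)

noncomputable instance (H : Type) [Group H] : Module (MonoidAlgebra ℤ H) (TrivZ H) :=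
  Module.compHom ℤ (augS (H := H)).toRingHom

theorem triv_of {H : Type} [Group H] (h : H) (n : TrivZ H) : MonoidAlgebra.of ℤ H h • n = n := by
  change augS (MonoidAlgebra.of ℤ H h) * (show ℤ from n) = n
  rw [augS_of, one_mul]

/-- identity map -/
def toTriv (H : Type) : ℤ →+ TrivZ H := AddMonoidHom.id ℤ

section

variable (H : Subgroup GM)

attribute [local instance] modS

theorem rank_L (hFP : FP H)
    (hv : ∀ i, 3 ≤ i → Subsingleton (groupCohomology (Rep.leftRegular ℤ H) i))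
    (h2 : Nonempty (groupCohomology (Rep.leftRegular ℤ H) 2 ≃+ ℤ)) :
    ∃ lam : (RG × RG × RG × RG × RG × RG) →+ ℤ, ∀ l,
      bd2 ρR gA gB gZ gC gD gW l ∈ JJ H (RG × RG × RG × RG × RG × RG × RG) → lam l = 0 →
      ∃ v ∈ JJ H (RG × RG × RG × RG × RG × RG),
        bd2 ρR gA gB gZ gC gD gW v = bd2 ρR gA gB gZ gC gD gW l := by
  obtain ⟨P, iA, iM, d, ε, m, hfin, hproj, hm, hsurj, hequi, hex0, hex⟩ := hFP
  have hR : Reso P d ε := ⟨hsurj, hequi, hex0, hex⟩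
  obtain ⟨φ, hφ⟩ := rank_P hR m hm hv h2
  have := projS H
  have := towerS H
  let b1 : (RG × RG × RG × RG × RG × RG) →ₗ[MonoidAlgebra ℤ H]
      (RG × RG × RG × RG × RG × RG × RG) :=
    (bd2 ρR gA gB gZ gC gD gW).restrictScalars (MonoidAlgebra ℤ H)
  let b0 : (RG × RG × RG × RG × RG × RG × RG) →ₗ[MonoidAlgebra ℤ H] (RG × RG) :=
    (bd1 ρR gA gB gZ gC gD gW).restrictScalars (MonoidAlgebra ℤ H)
  let εL : (RG × RG) →ₗ[MonoidAlgebra ℤ H] TrivZ H := mkLinZ ((toTriv H).comp εR) (by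
    intro h x
    rw [triv_of]
    obtain ⟨x1, x2⟩ := x
    change aug (MonoidAlgebra.of ℤ H h • x1) - aug (MonoidAlgebra.of ℤ H h • x2) =
      aug x1 - aug x2
    rw [smulS_of, smulS_of, map_mul, map_mul, aug_of, one_mul, one_mul])
  let εP : P 0 →ₗ[MonoidAlgebra ℤ H] TrivZ H := mkLinZ ((toTriv H).comp ε) (by
    intro h x
    rw [triv_of]
    exact hequi h x)
  obtain ⟨f1, f2, g1, g2, h1, hf2, hg2, hh⟩ := transfer b1 b0 εL (d 1) (d 0) εP
    reso_T.surj hsurj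
    (fun x => (ex0_R _).2 ⟨x, rfl⟩) (fun x => bd1_bd2 ρR rels x)
    (fun x => (hex0 _).2 ⟨x, rfl⟩) (fun x => hR.dd 0 x)
    (fun x hx => (ex0_R _).1 hx) (fun x hx => exact1 rels nice_R x hx)
    (fun x hx => (hex0 _).1 hx) (fun x hx => (hex 0 _).1 hx)
  refine ⟨(augS.toRingHom.toAddMonoidHom).comp (φ.toAddMonoidHom.comp f2.toAddMonoidHom),
    fun l hl hlam => ?_⟩
  obtain ⟨v', hv', hv2⟩ := hφ (f2 l) (by rw [hf2]; exact JJ_map f1 hl) hlam
  refine ⟨g2 v' + h1 (b1 l), add_mem (JJ_map g2 hv') (JJ_map h1 hl), ?_⟩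
  have e1 : b1 (g2 v') = g1 (f1 (b1 l)) := by rw [hg2, hv2, hf2]
  have e2 := hh (b1 l) (bd1_bd2 ρR rels l)
  change b1 (g2 v' + h1 (b1 l)) = b1 l
  rw [map_add, e1, ← e2]
  abel

end

end Pool.Agent.Helper158
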