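import Pool.Agent.Helper158.Rank
import Pool.Agent.Helper158.Perm

namespace Pool.Agent.Helper158

open Finsupp

/-- an equivariant additive map as a linear map -/
noncomputable def mkLinZ {H : Type} [Group H] {M N : Type} [AddCommGroup M]
    [Module (MonoidAlgebra ℤ H) M] [AddCommGroup N] [Module (MonoidAlgebra ℤ H) N] (f : M →+ N)
    (h : ∀ g x, f (MonoidAlgebra.of ℤ H g • x) = MonoidAlgebra.of ℤ H g • f x) :
    M →ₗ[MonoidAlgebra ℤ H] N :=
  mkLin (k := ℤ) f.toIntLinearMap h

theorem mkLinZ_apply {H : Type} [Group H] {M N : Type} [AddCommGroup M]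
    [Module (MonoidAlgebra ℤ H) M] [AddCommGroup N] [Module (MonoidAlgebra ℤ H) N] (f : M →+ N)
    (h : ∀ g x, f (MonoidAlgebra.of ℤ H g • x) = MonoidAlgebra.of ℤ H g • f x) (x : M) :
    mkLinZ f h x = f x := rfl

section

variable {G : Type} [Group G] (H : Subgroup G)

/-- inclusion of group rings -/
noncomputable def incS : MonoidAlgebra ℤ H →+* MonoidAlgebra ℤ G :=
  MonoidAlgebra.mapDomainRingHom ℤ H.subtype

theorem incS_of (h : H) : incS H (MonoidAlgebra.of ℤ H h) = MonoidAlgebra.of ℤ G (h : G) := by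
  simp [incS]

/-- the group ring of `G` as a module over the group ring of `H` -/
noncomputable abbrev modS : Module (MonoidAlgebra ℤ H) (MonoidAlgebra ℤ G) :=
  Module.compHom _ (incS H)

attribute [local instance] modS

theorem smulS (s : MonoidAlgebra ℤ H) (x : MonoidAlgebra ℤ G) : s • x = incS H s * x := rfl

theorem smulS_of (h : H) (x : MonoidAlgebra ℤ G) :
    MonoidAlgebra.of ℤ H h • x = MonoidAlgebra.of ℤ G (h : G) * x := by
  rw [smulS, incS_of]

theorem towerS : IsScalarTower (MonoidAlgebra ℤ H) (MonoidAlgebra ℤ G) (MonoidAlgebra ℤ G) where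
  smul_assoc s x y := by
    rw [smulS, smulS, smul_eq_mul, smul_eq_mul, mul_assoc]

/-- coset representative -/
noncomputable def rt (x : G) : G :=
  Quotient.out (Quotient.mk (QuotientGroup.rightRel H) x)

theorem rt_mem (x : G) : x * (rt H x)⁻¹ ∈ H := by
  have h := Quotient.mk_out (s := QuotientGroup.rightRel H) x
  exact QuotientGroup.rightRel_apply.1 h

theorem rt_mul (h : H) (x : G) : rt H (h * x) = rt H x := by
  unfold rt
  congr 1
  apply Quotient.sound
  change QuotientGroup.rightRel H _ _
  rw [QuotientGroup.rightRel_apply]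
  have : x * (↑h * x)⁻¹ = (h⁻¹ : H) := by
    push_cast
    group
  rw [this]
  exact (h⁻¹).2

/-- value of the section on group elements -/
noncomputable def secF (x : G) : MonoidAlgebra ℤ G →₀ MonoidAlgebra ℤ H :=
  Finsupp.single (MonoidAlgebra.of ℤ G (rt H x)) (MonoidAlgebra.of ℤ H ⟨_, rt_mem H x⟩)

theorem secF_mul (h : H) (x : G) : secF H (h * x) = MonoidAlgebra.of ℤ H h • secF H x := by
  unfold secF
  rw [Finsupp.smul_single, smul_eq_mul, ← map_mul]
  have h1 : MonoidAlgebra.of ℤ G (rt H (h * x)) = MonoidAlgebra.of ℤ G (rt H x) := by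
    rw [rt_mul]
  have h2 : (⟨_, rt_mem H (h * x)⟩ : H) = h * ⟨_, rt_mem H x⟩ := by
    apply Subtype.ext
    simp only [Subgroup.coe_mul, rt_mul, mul_assoc]
  rw [h1, h2]

/-- the section -/
noncomputable def secA : MonoidAlgebra ℤ G →+ (MonoidAlgebra ℤ G →₀ MonoidAlgebra ℤ H) :=
  (Finsupp.liftAddHom (fun g => (zmultiplesHom _ (secF H g)))).comp
    (MonoidAlgebra.coeffAddEquiv (R := ℤ) (M := G)).toAddMonoidHom

theorem secA_of (x : G) : secA H (MonoidAlgebra.of ℤ G x) = secF H x := by
  simp [secA, zmultiplesHom_apply]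

theorem projS : Module.Projective (MonoidAlgebra ℤ H) (MonoidAlgebra ℤ G) := by
  refine ⟨⟨mkLinZ (secA H) ?_, ?_⟩⟩
  · intro h x
    rw [smulS_of]
    induction x using MonoidAlgebra.induction_on with
    | of g => rw [← map_mul, secA_of, secA_of, secF_mul]
    | add a b ha hb => rw [mul_add, map_add, map_add, ha, hb, smul_add]
    | smul n a ha =>
      rw [mul_smul_comm, map_zsmul, ha, map_zsmul, smul_comm]
  · intro x
    rw [mkLinZ_apply]
    induction x using MonoidAlgebra.induction_on with
    | of g =>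
      rw [secA_of, secF, Finsupp.linearCombination_single, id, smulS_of, ← map_mul]
      simp
    | add a b ha hb => rw [map_add, map_add, ha, hb]
    | smul n a ha => rw [map_zsmul, map_zsmul, ha]

end

end Pool.Agent.Helper158
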